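import Pool.Agent.CliqueQuery.Tree

/-!
# The upper bound: asymptotics
-/

namespace Pool.Agent.CliqueQuery

open Finset Classical Filter Topology

lemma eventually_poly_le (η A B : ℝ) (hη : 0 < η) :
    ∀ᶠ x : ℝ in atTop, A * x ^ B ≤ (2 : ℝ) ^ (η * x) := by
  have h := (isLittleO_rpow_exp_pos_mul_atTop B (b := η * Real.log 2)
    (mul_pos hη (Real.log_pos (by norm_num)))).bound (c := (|A| + 1)⁻¹) (by positivity)
  filter_upwards [h, eventually_gt_atTop 0] with x hx hx0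
  have h1 : (2 : ℝ) ^ (η * x) = Real.exp (η * Real.log 2 * x) := by
    rw [Real.rpow_def_of_pos (by norm_num)]
    congr 1
    ring
  rw [Real.norm_of_nonneg (by positivity), Real.norm_of_nonneg (by positivity)] at hx
  rw [h1]
  have h2 : 0 ≤ x ^ B := by positivity
  have h3 : (|A| + 1) * x ^ B ≤ Real.exp (η * Real.log 2 * x) := by
    rwa [inv_mul_eq_div, le_div_iff₀ (by positivity), mul_comm] at hx
  calc A * x ^ B ≤ (|A| + 1) * x ^ B := by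
        gcongr
        linarith [le_abs_self A]
    _ ≤ _ := h3

/-- the bound on the number of active vertices -/
lemma act_le {n : ℕ} (η C L : ℝ) (hη : 0 < η) (hL1 : 1 ≤ L) (hn : (2 : ℝ) ^ L = n) (r : ℕ)
    (hr : (r : ℝ) ≤ 2 * L) (hC0 : 0 ≤ C)
    (hA : 12 * L ≤ (2 : ℝ) ^ (η * L)) (hC : 4 * C * L ^ C ≤ (2 : ℝ) ^ (η * L))
    (R : Finset (Fin n)) (hR : R.card ≤ r) (l : List (Sym2 (Fin n)))
    (hl : (l.toFinset.card : ℝ) ≤ C * n * L ^ C) :
    (Act R (Nat.sqrt n + 1) l).card ≤ ⌈(2 : ℝ) ^ ((1 / 2 + η) * L)⌉₊ := by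
  obtain ⟨H, h1, h2'⟩ := card_Act_le R (Nat.sqrt n + 1) l
  have h2 : H * (Nat.sqrt n + 1) ≤ 2 * l.toFinset.card := by
    have e : ∀ i j : DecidableEq (Sym2 (Fin n)),
        (@List.toFinset _ i l).card = (@List.toFinset _ j l).card := by
      intro i j
      rw [Subsingleton.elim i j]
    rw [e _ _]
    exact h2'
  set Δ := Nat.sqrt n + 1 with hΔ
  have hh : (2 : ℝ) ^ (L / 2) * (2 : ℝ) ^ (L / 2) = n := by
    rw [← Real.rpow_add (by norm_num), ← hn]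
    congr 1
    ring
  set W : ℝ := (2 : ℝ) ^ (L / 2) with hW
  have hW1 : 1 ≤ W := Real.one_le_rpow (by norm_num) (by linarith)
  have hΔ1 : W ≤ Δ := by
    have h3 : n < Δ * Δ := Nat.lt_succ_sqrt n
    have h4 : (n : ℝ) < (Δ : ℝ) * Δ := by exact_mod_cast h3
    rw [← hh] at h4
    by_contra hc
    push Not at hc
    have h5 : (0 : ℝ) ≤ Δ := by positivity
    nlinarith
  have hΔ2 : (Δ : ℝ) ≤ 2 * W := by
    have h3 : Nat.sqrt n * Nat.sqrt n ≤ n := Nat.sqrt_le n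
    have h4 : ((Nat.sqrt n : ℕ) : ℝ) * (Nat.sqrt n : ℕ) ≤ W * W := by
      rw [hh]; exact_mod_cast h3
    have h5 : ((Nat.sqrt n : ℕ) : ℝ) ≤ W := by
      by_contra hc
      push Not at hc
      nlinarith
    rw [hΔ]
    push_cast
    linarith
  have hH : (H : ℝ) ≤ 2 * C * L ^ C * W := by
    have h3 : (H : ℝ) * Δ ≤ 2 * (C * n * L ^ C) := by
      calc (H : ℝ) * Δ ≤ 2 * (l.toFinset.card : ℝ) := by exact_mod_cast h2
        _ ≤ _ := by gcongr
    have h4 : (H : ℝ) * W ≤ 2 * (C * (W * W) * L ^ C) := by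
      rw [hh]
      refine le_trans ?_ h3
      gcongr
    have h5 : (H : ℝ) * W ≤ (2 * C * L ^ C * W) * W := by
      calc (H : ℝ) * W ≤ _ := h4
        _ = _ := by ring
    exact le_of_mul_le_mul_right h5 (by linarith)
  have hRr : (R.card : ℝ) ≤ 2 * L := le_trans (by exact_mod_cast hR) hr
  have hfin : ((Act R Δ l).card : ℝ) ≤ (2 : ℝ) ^ ((1 / 2 + η) * L) := by
    have h6 : (2 : ℝ) ^ ((1 / 2 + η) * L) = (2 : ℝ) ^ (η * L) * W := by
      rw [hW, ← Real.rpow_add (by norm_num)]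
      congr 1
      ring
    rw [h6]
    have h7 : ((Act R Δ l).card : ℝ) ≤ R.card + H + R.card * Δ := by exact_mod_cast h1
    have h8 : (R.card : ℝ) ≤ 2 * L * W := by nlinarith
    have h9 : (R.card : ℝ) * Δ ≤ (2 * L) * (2 * W) := by gcongr
    have h10 : 4 * C * L ^ C * W ≤ (2 : ℝ) ^ (η * L) * W := by gcongr
    have h11 : 12 * L * W ≤ (2 : ℝ) ^ (η * L) * W := by gcongr
    nlinarith
  exact_mod_cast hfin.trans (Nat.le_ceil _)

/-- the condition for a random set of roots to hit many sets -/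
lemma hit_cond (k g : ℕ) (η L : ℝ) (hη : 0 < η) (hL : 1 ≤ L) (hg : η * L ≤ g) (hgk : g ≤ k)
    (hk : (k : ℝ) ≤ 3 * L) (hB : 4 * L ≤ (2 : ℝ) ^ (η ^ 2 / 3 * L)) :
    k * (k - g) ^ g < k ^ g := by
  have hg0 : 0 < (g : ℝ) := lt_of_lt_of_le (by positivity) hg
  have hk0 : 0 < (k : ℝ) := lt_of_lt_of_le hg0 (by exact_mod_cast hgk)
  have h1 : (1 - (g : ℝ) / k) ^ g ≤ Real.exp (-(η ^ 2 / 3 * L)) := by
    have h2 : 1 - (g : ℝ) / k ≤ Real.exp (-((g : ℝ) / k)) := by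
      have := Real.add_one_le_exp (-((g : ℝ) / k))
      linarith
    have h3 : 0 ≤ 1 - (g : ℝ) / k := by
      rw [sub_nonneg, div_le_one hk0]
      exact_mod_cast hgk
    calc (1 - (g : ℝ) / k) ^ g ≤ (Real.exp (-((g : ℝ) / k))) ^ g := by gcongr
      _ = Real.exp (-((g : ℝ) * g / k)) := by
          rw [← Real.exp_nat_mul]
          congr 1
          ring
      _ ≤ _ := by
          apply Real.exp_le_exp.2
          apply neg_le_neg
          rw [le_div_iff₀ hk0]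
          calc η ^ 2 / 3 * L * k ≤ η ^ 2 / 3 * L * (3 * L) := by gcongr
            _ = (η * L) * (η * L) := by ring
            _ ≤ g * g := by gcongr
  have h4 : (2 : ℝ) ^ (η ^ 2 / 3 * L) ≤ Real.exp (η ^ 2 / 3 * L) := by
    rw [Real.rpow_def_of_pos (by norm_num)]
    apply Real.exp_le_exp.2
    have : Real.log 2 ≤ 1 := by linarith [Real.log_two_lt_d9]
    have h5 : 0 ≤ η ^ 2 / 3 * L := by positivity
    nlinarith
  have h5 : (k : ℝ) < Real.exp (η ^ 2 / 3 * L) := by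
    linarith
  have h6 : (k : ℝ) * (1 - (g : ℝ) / k) ^ g < 1 := by
    calc (k : ℝ) * (1 - (g : ℝ) / k) ^ g ≤ (k : ℝ) * Real.exp (-(η ^ 2 / 3 * L)) := by gcongr
      _ < Real.exp (η ^ 2 / 3 * L) * Real.exp (-(η ^ 2 / 3 * L)) := by gcongr
      _ = 1 := by rw [← Real.exp_add]; simp
  have h7 : (k : ℝ) * ((k - g : ℕ) : ℝ) ^ g < (k : ℝ) ^ g := by
    rw [Nat.cast_sub hgk]
    have h8 : (k : ℝ) - g = k * (1 - (g : ℝ) / k) := by field_simp
    rw [h8, mul_pow]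
    have h9 : (0 : ℝ) < (k : ℝ) ^ g := by positivity
    calc (k : ℝ) * ((k : ℝ) ^ g * (1 - (g : ℝ) / k) ^ g)
        = (k : ℝ) ^ g * ((k : ℝ) * (1 - (g : ℝ) / k) ^ g) := by ring
      _ < (k : ℝ) ^ g * 1 := by gcongr
      _ = (k : ℝ) ^ g := mul_one _
  exact_mod_cast h7

lemma Phi_le (η L : ℝ) (m : ℕ) (hη : 0 < η) (hη2 : η ≤ 1 / 80) (hL : 1 ≤ η * L)
    (hL0 : 0 < L) (hm : m = ⌈(2 : ℝ) ^ ((1 / 2 + η) * L)⌉₊) :
    Phi (-Real.log (1 / 2 + η)) m ≤ (2 : ℝ) ^ ((1 / 8 + 3 / 2 * η) * L ^ 2) := by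
  have ht1 : 0.69 < Real.log 2 := by linarith [Real.log_two_gt_d9]
  have ht2 : Real.log 2 < 0.7 := by linarith [Real.log_two_lt_d9]
  set t := Real.log 2 with ht
  have hm0 : 1 ≤ (2 : ℝ) ^ ((1 / 2 + η) * L) := Real.one_le_rpow (by norm_num) (by positivity)
  have hm1 : (1 : ℝ) ≤ m := by
    rw [hm]; exact hm0.trans (Nat.le_ceil _)
  have hm2 : (m : ℝ) ≤ (2 : ℝ) ^ ((1 / 2 + 2 * η) * L) := by
    have h1 : (m : ℝ) ≤ (2 : ℝ) ^ ((1 / 2 + η) * L) * 2 := by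
      have := Nat.ceil_lt_add_one (a := (2 : ℝ) ^ ((1 / 2 + η) * L)) (by positivity)
      rw [← hm] at this
      linarith
    refine h1.trans ?_
    have h2 : (2 : ℝ) ^ ((1 / 2 + η) * L) * 2 = (2 : ℝ) ^ ((1 / 2 + η) * L + 1) := by
      rw [Real.rpow_add (by norm_num), Real.rpow_one]
    rw [h2]
    apply Real.rpow_le_rpow_of_exponent_le (by norm_num)
    linarith
  have hlog : Real.log m ≤ (1 / 2 + 2 * η) * L * t := by
    calc Real.log m ≤ Real.log ((2 : ℝ) ^ ((1 / 2 + 2 * η) * L)) :=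
          Real.log_le_log (by linarith) hm2
      _ = _ := by rw [Real.log_rpow (by norm_num)]
  have hlog0 : 0 ≤ Real.log m := Real.log_nonneg hm1
  have hlam : t - 2 * η ≤ -Real.log (1 / 2 + η) := by
    have h1 : Real.log (1 / 2 + η) = Real.log (1 + 2 * η) - t := by
      rw [ht, ← Real.log_div (by positivity) (by norm_num)]
      congr 1
      ring
    have h2 : Real.log (1 + 2 * η) ≤ 2 * η := by
      have := Real.log_le_sub_one_of_pos (x := 1 + 2 * η) (by positivity)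
      linarith
    linarith
  have hlam0 : 0 < t - 2 * η := by linarith
  unfold Phi
  rw [Real.rpow_def_of_pos (by norm_num)]
  apply Real.exp_le_exp.2
  rw [div_le_iff₀ (by linarith), ← ht]
  have h3 : Real.log m ^ 2 ≤ ((1 / 2 + 2 * η) * L * t) ^ 2 := by gcongr
  refine h3.trans ?_
  have h4 : t * ((1 / 8 + 3 / 2 * η) * L ^ 2) * (2 * (t - 2 * η)) ≤
      t * ((1 / 8 + 3 / 2 * η) * L ^ 2) * (2 * -Real.log (1 / 2 + η)) := by
    gcongr
  refine le_trans ?_ h4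
  have h5 : (1 / 2 + 2 * η) ^ 2 * t ≤ (1 / 8 + 3 / 2 * η) * (2 * (t - 2 * η)) := by
    nlinarith [mul_pos hη hη, mul_nonneg hη.le (sub_nonneg.2 hη2)]
  have h6 : 0 ≤ L ^ 2 * t := by positivity
  calc ((1 / 2 + 2 * η) * L * t) ^ 2 = (L ^ 2 * t) * ((1 / 2 + 2 * η) ^ 2 * t) := by ring
    _ ≤ (L ^ 2 * t) * ((1 / 8 + 3 / 2 * η) * (2 * (t - 2 * η))) := by gcongr
    _ = _ := by ring

lemma bad_le {n : ℕ} (η L : ℝ) (hη : 0 < η) (hη2 : η ≤ 1 / 80) (hL1 : 8 ≤ L)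
    (hn : (2 : ℝ) ^ L = n) (k s r0 r1 r2 : ℕ) (hr0 : 96 * L / η ^ 2 ≤ r0)
    (hr1 : 2 * (r0 : ℝ) / η ≤ r1) (hr1k : k + 2 ≤ r1) (hs : (1 + 10 * η) * L ≤ s)
    (hr2 : ((k : ℝ) + s + 1) / (10 * η) ≤ r2) :
    (n : ℝ) ^ k *
      pr (fun ω : Sym2 (Fin n) → Bool => ¬ (Good1 r0 r1 η ω ∧ Good2 s r2 ω)) ≤ 1 := by
  have hn6 : (6 : ℝ) ≤ n := by
    rw [← hn]
    calc (6 : ℝ) ≤ (2 : ℝ) ^ (3 : ℝ) := by norm_num
      _ ≤ _ := Real.rpow_le_rpow_of_exponent_le (by norm_num) (by linarith)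
  have hn2 : 2 ≤ Fintype.card (Fin n) := by
    rw [Fintype.card_fin]
    have : (2 : ℝ) ≤ n := by linarith
    exact_mod_cast this
  have hlogn : Real.log n ≤ L := by
    rw [← hn, Real.log_rpow (by norm_num)]
    have := Real.log_two_lt_d9
    nlinarith
  have hg1 := pr_not_good1 (V := Fin n) r0 r1 η hη (by linarith)
    (by rw [div_le_iff₀ hη] at hr1; linarith) hn2
    (by
      rw [Fintype.card_fin]
      rw [div_le_iff₀ (by positivity)] at hr0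
      linarith)
  have hg2 := pr_not_good2 (V := Fin n) s r2
  rw [Fintype.card_fin] at hg1 hg2
  have hor : pr (fun ω : Sym2 (Fin n) → Bool => ¬ (Good1 r0 r1 η ω ∧ Good2 s r2 ω)) ≤
      3 * ((n : ℝ) ^ (4 * r1))⁻¹ + (n : ℝ) ^ (s + r2) * (1 / 2) ^ (s * r2) := by
    refine le_trans ?_ (add_le_add hg1 hg2)
    refine le_trans (pr_mono ?_) (pr_or_le _ _)
    intro ω hω
    by_contra hc
    push Not at hc
    exact hω ⟨hc.1, hc.2⟩
  have hn1 : (1 : ℝ) ≤ n := by linarith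
  have hA : (n : ℝ) ^ k * (3 * ((n : ℝ) ^ (4 * r1))⁻¹) ≤ 1 / 2 := by
    have h1 : (n : ℝ) ^ (k + 1) ≤ (n : ℝ) ^ (4 * r1) := pow_le_pow_right₀ hn1 (by omega)
    rw [← mul_assoc, ← div_eq_mul_inv, div_le_iff₀ (by positivity)]
    rw [pow_succ] at h1
    have h2 : (0 : ℝ) < (n : ℝ) ^ k := by positivity
    nlinarith
  have hB : (n : ℝ) ^ k * ((n : ℝ) ^ (s + r2) * (1 / 2) ^ (s * r2)) ≤ 1 / 2 := by
    have h1 : ((1 : ℝ) / 2) ^ (s * r2) = (2 : ℝ) ^ (-((s : ℝ) * r2)) := by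
      rw [one_div, inv_pow, ← Real.rpow_natCast, ← Real.rpow_neg (by norm_num)]
      push_cast
      rfl
    have h2 : (n : ℝ) ^ k * (n : ℝ) ^ (s + r2) = (2 : ℝ) ^ (L * (k + s + r2)) := by
      rw [← pow_add, ← Real.rpow_natCast, ← hn, ← Real.rpow_mul (by norm_num)]
      push_cast
      congr 1
      ring
    rw [← mul_assoc, h1, h2, ← Real.rpow_add (by norm_num)]
    have h3 : (1 : ℝ) / 2 = (2 : ℝ) ^ (-1 : ℝ) := by norm_num [Real.rpow_neg]
    rw [h3]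
    apply Real.rpow_le_rpow_of_exponent_le (by norm_num)
    rw [div_le_iff₀ (by positivity)] at hr2
    have h4 : (1 + 10 * η) * L * r2 ≤ s * r2 := by gcongr
    have h5 : L * ((k : ℝ) + s + 1) ≤ L * (r2 * (10 * η)) := by gcongr
    nlinarith
  calc (n : ℝ) ^ k * pr (fun ω : Sym2 (Fin n) → Bool => ¬ (Good1 r0 r1 η ω ∧ Good2 s r2 ω))
      ≤ (n : ℝ) ^ k * (3 * ((n : ℝ) ^ (4 * r1))⁻¹ + (n : ℝ) ^ (s + r2) * (1 / 2) ^ (s * r2)) := by
        gcongr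
    _ ≤ 1 := by rw [mul_add]; linarith

theorem pr_small_core {n : ℕ} (η C L : ℝ) (hη : 0 < η) (hη2 : η ≤ 1 / 80)
    (hn : (2 : ℝ) ^ L = n) (hL : 1000 / η ≤ L) (hC0 : 0 ≤ C)
    (hA : 300 / η ^ 3 * L ≤ (2 : ℝ) ^ (η * L)) (hB : 4 * L ≤ (2 : ℝ) ^ (η ^ 2 / 3 * L))
    (hC : 4 * C * L ^ C ≤ (2 : ℝ) ^ (η * L))
    (q : (Sym2 (Fin n) → Bool) → List (Sym2 (Fin n))) (hq : Adapted q)
    (hcard : ∀ ω, ((q ω).toFinset.card : ℝ) ≤ C * n * L ^ C) :
    pr (fun ω => ∃ K : Finset (Fin n), K.card = ⌈(3 / 2 + 40 * η) * L⌉₊ ∧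
        ∀ u ∈ K, ∀ v ∈ K, u ≠ v → ω s(u, v) = true ∧ s(u, v) ∈ q ω) ≤ 1 / 2 := by
  have hηL : 1000 ≤ η * L := by
    rw [div_le_iff₀ hη] at hL
    linarith
  have hLbig : 80000 ≤ L := by nlinarith
  have hL0 : 0 < L := by linarith
  have hη3 : 1 ≤ 1 / η ^ 3 := by
    rw [le_div_iff₀ (by positivity), one_mul]
    exact pow_le_one₀ hη.le (by linarith)
  -- parameters
  set k := ⌈(3 / 2 + 40 * η) * L⌉₊ with hk
  have hk1 : (3 / 2 + 40 * η) * L ≤ k := Nat.le_ceil _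
  have hk2 : (k : ℝ) < (3 / 2 + 40 * η) * L + 1 := Nat.ceil_lt_add_one (by positivity)
  obtain ⟨s, hs⟩ : ∃ s, s = ⌈(1 + 10 * η) * L⌉₊ := ⟨_, rfl⟩
  have hs1 : (1 + 10 * η) * L ≤ s := by rw [hs]; exact Nat.le_ceil _
  have hs2 : (s : ℝ) < (1 + 10 * η) * L + 1 := by
    rw [hs]; exact Nat.ceil_lt_add_one (by positivity)
  have hsk : s ≤ k := by
    have : (s : ℝ) ≤ k := by nlinarith
    exact_mod_cast this
  obtain ⟨f, hf⟩ : ∃ f, f = k - s := ⟨_, rfl⟩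
  have hsf : s + f = k := by omega
  have hfr : (s : ℝ) + f = k := by exact_mod_cast hsf
  have hf1 : (1 / 2 + 30 * η) * L - 1 < f := by linarith
  have hf2 : (f : ℝ) < (1 / 2 + 30 * η) * L + 1 := by linarith
  obtain ⟨g, hg⟩ : ∃ g, g = ⌈η * L⌉₊ := ⟨_, rfl⟩
  have hg1 : η * L ≤ g := by rw [hg]; exact Nat.le_ceil _
  have hg2 : (g : ℝ) < η * L + 1 := by
    rw [hg]; exact Nat.ceil_lt_add_one (by positivity)
  obtain ⟨r0, hr0⟩ : ∃ r0, r0 = ⌈96 * L / η ^ 2⌉₊ := ⟨_, rfl⟩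
  have hr01 : 96 * L / η ^ 2 ≤ r0 := by rw [hr0]; exact Nat.le_ceil _
  have hr02 : (r0 : ℝ) < 96 * L / η ^ 2 + 1 := by
    rw [hr0]; exact Nat.ceil_lt_add_one (by positivity)
  obtain ⟨r1, hr1⟩ : ∃ r1, r1 = ⌈2 * (r0 : ℝ) / η⌉₊ + k + 2 := ⟨_, rfl⟩
  have hr11 : 2 * (r0 : ℝ) / η ≤ r1 := by
    have := Nat.le_ceil (2 * (r0 : ℝ) / η)
    rw [hr1]
    push_cast
    have hk0 : (0 : ℝ) ≤ k := by positivity
    linarith
  have hr12 : (r1 : ℝ) < 2 * (r0 : ℝ) / η + 1 + k + 2 := by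
    have := Nat.ceil_lt_add_one (a := 2 * (r0 : ℝ) / η) (by positivity)
    rw [hr1]
    push_cast
    linarith
  obtain ⟨r2, hr2⟩ : ∃ r2, r2 = ⌈((k : ℝ) + s + 1) / (10 * η)⌉₊ := ⟨_, rfl⟩
  have hr21 : ((k : ℝ) + s + 1) / (10 * η) ≤ r2 := by rw [hr2]; exact Nat.le_ceil _
  have hr22 : (r2 : ℝ) < ((k : ℝ) + s + 1) / (10 * η) + 1 := by
    rw [hr2]; exact Nat.ceil_lt_add_one (by positivity)
  obtain ⟨m, hm⟩ : ∃ m, m = ⌈(2 : ℝ) ^ ((1 / 2 + η) * L)⌉₊ := ⟨_, rfl⟩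
  have hk3 : (k : ℝ) ≤ 2 * L + 1 := by nlinarith
  -- bounds for `r1`, `r2`
  have hr1b : (r1 : ℝ) + 2 ≤ (2 : ℝ) ^ (η * L) := by
    refine le_trans ?_ hA
    have h1 : 2 * (r0 : ℝ) / η ≤ 192 * (1 / η ^ 3 * L) + 2 * (1 / η ^ 3 * L) := by
      rw [div_le_iff₀ hη]
      have e1 : (192 * (1 / η ^ 3 * L) + 2 * (1 / η ^ 3 * L)) * η = 194 * L / η ^ 2 := by
        field_simp
        ring
      rw [e1]
      have e2 : 194 * L / η ^ 2 = 2 * (96 * L / η ^ 2) + 2 * (L / η ^ 2) := by ring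
      have e3 : 1 ≤ L / η ^ 2 := by
        rw [le_div_iff₀ (by positivity)]
        nlinarith
      linarith
    have h2 : L ≤ 1 / η ^ 3 * L := by nlinarith
    have h3 : 300 / η ^ 3 * L = 300 * (1 / η ^ 3 * L) := by ring
    rw [h3]
    linarith
  have hr2b : (r2 : ℝ) ≤ (2 : ℝ) ^ (η * L) := by
    refine le_trans ?_ hA
    have h1 : ((k : ℝ) + s + 1) / (10 * η) ≤ 1 / η ^ 3 * L := by
      rw [div_le_iff₀ (by positivity)]
      have e1 : 1 / η ^ 3 * L * (10 * η) = 10 * (1 / η ^ 2 * L) := by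
        field_simp
      rw [e1]
      have e2 : 1 ≤ 1 / η ^ 2 := by
        rw [le_div_iff₀ (by positivity), one_mul]
        exact pow_le_one₀ hη.le (by linarith)
      nlinarith
    have h2 : L ≤ 1 / η ^ 3 * L := by nlinarith
    have h3 : 300 / η ^ 3 * L = 300 * (1 / η ^ 3 * L) := by ring
    rw [h3]
    linarith
  have hgf : g ≤ f := by
    have : (g : ℝ) ≤ f := by nlinarith
    exact_mod_cast this
  have hmain := pr_found_le hq (Nat.sqrt n + 1) s f g g r0 r1 r2 m η hη (by linarith)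
    (by
      have h1 : (r0 : ℝ) ≤ 2 * (r0 : ℝ) / η := by
        rw [le_div_iff₀ hη]
        have : (0 : ℝ) ≤ r0 := by positivity
        nlinarith
      exact_mod_cast h1.trans hr11)
    (by omega)
    (by
      have : (1 : ℝ) ≤ g := by linarith
      exact_mod_cast this)
    hgf
    (by
      rw [hsf]
      exact hit_cond k g η L hη (by linarith) hg1 (by omega) (by linarith) hB)
    (by
      intro ω R hR
      rw [hm]
      refine act_le η C L hη (by linarith) hn g (by nlinarith) hC0 ?_ hC R hR (q ω) (hcard ω)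
      refine le_trans ?_ hA
      have h3 : 300 / η ^ 3 * L = 300 * (1 / η ^ 3 * L) := by ring
      rw [h3]
      nlinarith)
    (by
      rw [hm, Nat.one_le_ceil_iff]
      positivity)
  rw [hsf, Fintype.card_fin] at hmain
  refine hmain.trans ?_
  -- the bracket
  have hPhi := Phi_le η L m hη hη2 (by linarith) hL0 hm
  have hbad := bad_le (n := n) η L hη hη2 (by linarith) hn k s r0 r1 r2 hr01 hr11 (by omega) hs1 hr21
  have hlam : 0 < -Real.log (1 / 2 + η) := by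
    rw [neg_pos]
    exact Real.log_neg (by linarith) (by linarith)
  have hbr : ((r1 : ℝ) + 2) ^ s * Phi (-Real.log (1 / 2 + η)) m * (r2 : ℝ) ^ f +
          (n : ℝ) ^ k *
            pr (fun ω : Sym2 (Fin n) → Bool => ¬ (Good1 r0 r1 η ω ∧ Good2 s r2 ω)) ≤
      (2 : ℝ) ^ (1 + η * L * k + (1 / 8 + 3 / 2 * η) * L ^ 2) := by
    have h1 : ((r1 : ℝ) + 2) ^ s * Phi (-Real.log (1 / 2 + η)) m * (r2 : ℝ) ^ f ≤
        (2 : ℝ) ^ (η * L * k + (1 / 8 + 3 / 2 * η) * L ^ 2) := by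
      calc ((r1 : ℝ) + 2) ^ s * Phi (-Real.log (1 / 2 + η)) m * (r2 : ℝ) ^ f
          ≤ ((2 : ℝ) ^ (η * L)) ^ s * (2 : ℝ) ^ ((1 / 8 + 3 / 2 * η) * L ^ 2) *
              ((2 : ℝ) ^ (η * L)) ^ f := by
            have : 0 ≤ Phi (-Real.log (1 / 2 + η)) m := zero_le_one.trans (one_le_Phi hlam)
            gcongr
        _ = ((2 : ℝ) ^ (η * L)) ^ (s + f) * (2 : ℝ) ^ ((1 / 8 + 3 / 2 * η) * L ^ 2) := by
            rw [pow_add]; ring
        _ = _ := by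
            rw [hsf, ← Real.rpow_natCast, ← Real.rpow_mul (by norm_num),
              ← Real.rpow_add (by norm_num)]
    have h2 : (1 : ℝ) ≤ (2 : ℝ) ^ (η * L * k + (1 / 8 + 3 / 2 * η) * L ^ 2) :=
      Real.one_le_rpow (by norm_num) (by positivity)
    have h3 : (2 : ℝ) ^ (1 + η * L * k + (1 / 8 + 3 / 2 * η) * L ^ 2) =
        2 * (2 : ℝ) ^ (η * L * k + (1 / 8 + 3 / 2 * η) * L ^ 2) := by
      rw [add_assoc, Real.rpow_add (by norm_num), Real.rpow_one]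
    rw [h3]
    linarith
  have hhalf : ((1 : ℝ) / 2) ^ (f.choose 2 - (f * g + 1)) ≤
      (2 : ℝ) ^ ((f : ℝ) * g + 1 - (f : ℝ) * (f - 1) / 2) := by
    have h1 : ((f.choose 2 : ℕ) : ℝ) ≤ ((f.choose 2 - (f * g + 1) : ℕ) : ℝ) + (f * g + 1) := by
      have : f.choose 2 ≤ (f.choose 2 - (f * g + 1)) + (f * g + 1) := by omega
      exact_mod_cast this
    rw [Nat.cast_choose_two] at h1
    rw [one_div, inv_pow, ← Real.rpow_natCast, ← Real.rpow_neg (by norm_num)]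
    apply Real.rpow_le_rpow_of_exponent_le (by norm_num)
    linarith
  have hnr : (n : ℝ) ^ g = (2 : ℝ) ^ (L * g) := by
    rw [← hn, ← Real.rpow_natCast, ← Real.rpow_mul (by norm_num)]
  have hpr0 : 0 ≤ pr (fun ω : Sym2 (Fin n) → Bool => ¬ (Good1 r0 r1 η ω ∧ Good2 s r2 ω)) :=
    pr_nonneg _
  have hbr0 : 0 ≤ ((r1 : ℝ) + 2) ^ s * Phi (-Real.log (1 / 2 + η)) m * (r2 : ℝ) ^ f +
          (n : ℝ) ^ k *
            pr (fun ω : Sym2 (Fin n) → Bool => ¬ (Good1 r0 r1 η ω ∧ Good2 s r2 ω)) := by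
    have : 0 ≤ Phi (-Real.log (1 / 2 + η)) m := zero_le_one.trans (one_le_Phi hlam)
    positivity
  calc (n : ℝ) ^ g * ((1 / 2) ^ (f.choose 2 - (f * g + 1)) *
        (((r1 : ℝ) + 2) ^ s * Phi (-Real.log (1 / 2 + η)) m * (r2 : ℝ) ^ f +
          (n : ℝ) ^ k *
            pr (fun ω : Sym2 (Fin n) → Bool => ¬ (Good1 r0 r1 η ω ∧ Good2 s r2 ω))))
      ≤ (2 : ℝ) ^ (L * g) * ((2 : ℝ) ^ ((f : ℝ) * g + 1 - (f : ℝ) * (f - 1) / 2) *
          (2 : ℝ) ^ (1 + η * L * k + (1 / 8 + 3 / 2 * η) * L ^ 2)) := by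
        rw [hnr]
        gcongr
    _ = (2 : ℝ) ^ (L * g + ((f : ℝ) * g + 1 - (f : ℝ) * (f - 1) / 2) +
          (1 + η * L * k + (1 / 8 + 3 / 2 * η) * L ^ 2)) := by
        rw [← Real.rpow_add (by norm_num), ← Real.rpow_add (by norm_num), ← add_assoc]
    _ ≤ (2 : ℝ) ^ (-1 : ℝ) := by
        apply Real.rpow_le_rpow_of_exponent_le (by norm_num)
        set h := η * L with hh
        have e1 : (1 / 8 + 3 / 2 * η) * L ^ 2 = L ^ 2 / 8 + 3 / 2 * (h * L) := by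
          rw [hh]; ring
        have e2 : (1 / 2 + 30 * η) * L = L / 2 + 30 * h := by rw [hh]; ring
        have e3 : (3 / 2 + 40 * η) * L = 3 / 2 * L + 40 * h := by rw [hh]; ring
        rw [e2] at hf1 hf2
        rw [e3] at hk1 hk2
        rw [e1]
        have b1 : L * g ≤ L * (h + 1) := by gcongr
        have b2 : (f : ℝ) * g ≤ (L / 2 + 30 * h + 1) * (h + 1) := by gcongr
        have b3 : h * k ≤ h * (3 / 2 * L + 40 * h + 1) := by gcongr
        have b4 : (L / 2 + 30 * h - 1) * (L / 2 + 30 * h - 2) ≤ (f : ℝ) * (f - 1) := by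
          have c1 : 0 ≤ L / 2 + 30 * h - 2 := by linarith
          have c2 : L / 2 + 30 * h - 2 ≤ (f : ℝ) - 1 := by linarith
          have c3 : L / 2 + 30 * h - 1 ≤ (f : ℝ) := by linarith
          gcongr
        have b5 : 1000 * L ≤ h * L := by gcongr
        have b6 : 0 ≤ h * h := by positivity
        ring_nf at b1 b2 b3 b4 ⊢
        ring_nf at b5 b6
        linarith
    _ = 1 / 2 := by norm_num [Real.rpow_neg]

end Pool.Agent.CliqueQuery
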