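import Mathlib

/-!
# Probability of events on independent fair bits
-/

namespace Pool.Agent.CliqueQuery

open Finset Classical

variable {E : Type} [Fintype E]

/-- The probability of `P` for independent fair bits indexed by `E`. -/
noncomputable def pr (P : (E → Bool) → Prop) : ℝ :=
  ((univ.filter P).card : ℝ) / 2 ^ (Fintype.card E)

lemma pr_eq (P : (E → Bool) → Prop) [inst : Fintype (E → Bool)] [DecidablePred P] :
    pr P = (((@univ (E → Bool) inst).filter P).card : ℝ) / 2 ^ (Fintype.card E) := by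
  have e : ∀ (i j : Fintype (E → Bool)) (a b : DecidablePred P),
      (@Finset.filter _ P a (@univ (E → Bool) i)).card =
        (@Finset.filter _ P b (@univ (E → Bool) j)).card := by
    intro i j a b
    rw [Subsingleton.elim i j, Subsingleton.elim a b]
  unfold pr
  rw [e]

lemma card_bits [inst : Fintype (E → Bool)] :
    (@Fintype.card (E → Bool) inst : ℝ) = 2 ^ (Fintype.card E) := by
  rw [← Nat.card_eq_fintype_card, Nat.card_fun]
  simp

lemma pr_nonneg (P : (E → Bool) → Prop) : 0 ≤ pr P := by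
  unfold pr; positivity

lemma pr_mono {P Q : (E → Bool) → Prop} (h : ∀ ω, P ω → Q ω) : pr P ≤ pr Q := by
  unfold pr
  gcongr with ω
  exact h ω

lemma pr_congr {P Q : (E → Bool) → Prop} (h : ∀ ω, P ω ↔ Q ω) : pr P = pr Q :=
  le_antisymm (pr_mono fun ω => (h ω).1) (pr_mono fun ω => (h ω).2)

lemma pr_true : pr (fun _ : E → Bool => True) = 1 := by
  unfold pr
  rw [filter_true, card_univ, card_bits, div_self (by positivity)]

lemma pr_le_one (P : (E → Bool) → Prop) : pr P ≤ 1 := by
  rw [← pr_true (E := E)]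
  exact pr_mono fun _ _ => trivial

lemma pr_not (P : (E → Bool) → Prop) : pr (fun ω => ¬ P ω) = 1 - pr P := by
  have h := Finset.card_filter_add_card_filter_not (s := (univ : Finset (E → Bool))) P
  have h' : ((univ.filter P).card : ℝ) + ((univ.filter fun ω => ¬ P ω).card : ℝ) =
      2 ^ (Fintype.card E) := by
    rw [← card_bits (E := E), ← card_univ]
    exact_mod_cast h
  rw [pr_eq P, pr_eq (fun ω => ¬ P ω)]
  have hpos : (0 : ℝ) < 2 ^ (Fintype.card E) := by positivity
  rw [eq_sub_iff_add_eq, ← add_div, div_eq_one_iff_eq hpos.ne']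
  rw [← h', add_comm]

lemma pr_or_le (P Q : (E → Bool) → Prop) : pr (fun ω => P ω ∨ Q ω) ≤ pr P + pr Q := by
  have : (univ.filter fun ω => P ω ∨ Q ω) = univ.filter P ∪ univ.filter Q := by
    ext; simp
  rw [pr_eq (fun ω => P ω ∨ Q ω), this, pr, pr, ← add_div]
  gcongr
  exact_mod_cast card_union_le _ _

lemma pr_exists_le {ι : Type} (s : Finset ι) (P : ι → (E → Bool) → Prop) :
    pr (fun ω => ∃ i ∈ s, P i ω) ≤ ∑ i ∈ s, pr (P i) := by
  have : (univ.filter fun ω => ∃ i ∈ s, P i ω) = s.biUnion fun i => univ.filter (P i) := by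
    ext; simp
  rw [pr_eq (fun ω => ∃ i ∈ s, P i ω), this]
  unfold pr
  rw [← Finset.sum_div]
  gcongr
  exact_mod_cast card_biUnion_le

/-- Markov inequality. -/
lemma pr_le_of_weight (P : (E → Bool) → Prop) (w : (E → Bool) → ℝ) (hw : ∀ ω, 0 ≤ w ω)
    (h1 : ∀ ω, P ω → 1 ≤ w ω) : pr P ≤ (∑ ω, w ω) / 2 ^ (Fintype.card E) := by
  unfold pr
  gcongr
  rw [card_filter]
  push_cast
  refine sum_le_sum fun ω _ => ?_
  split_ifs with h
  · exact h1 ω h
  · exact hw ω

lemma sum_prod_bits (φ : E → Bool → ℝ) :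
    ∑ ω : E → Bool, ∏ e, φ e (ω e) = ∏ e, (φ e true + φ e false) := by
  have h := Finset.prod_univ_sum (fun _ : E => (univ : Finset Bool)) φ
  rw [Fintype.piFinset_univ] at h
  rw [← h]
  simp

/-- weights only on the coordinates in `Z` -/
lemma sum_prod_bits_subset (Z : Finset E) (φ : E → Bool → ℝ) :
    (∑ ω : E → Bool, ∏ e ∈ Z, φ e (ω e)) / 2 ^ (Fintype.card E) =
      ∏ e ∈ Z, ((φ e true + φ e false) / 2) := by
  have h := sum_prod_bits (fun e b => if e ∈ Z then φ e b else 1)
  have h1 : ∀ ω : E → Bool, ∏ e, (if e ∈ Z then φ e (ω e) else 1) = ∏ e ∈ Z, φ e (ω e) := by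
    intro ω
    rw [Finset.prod_ite_mem, univ_inter]
  simp only [h1] at h
  rw [h]
  have h2 : ∀ e, ((if e ∈ Z then φ e true else 1) + (if e ∈ Z then φ e false else 1) : ℝ) =
      2 * (if e ∈ Z then (φ e true + φ e false) / 2 else 1) := by
    intro e
    split_ifs <;> ring
  simp only [h2]
  rw [Finset.prod_mul_distrib, Finset.prod_ite_mem, univ_inter, Finset.prod_const, card_univ]
  field_simp

/-- all bits in `Z` have prescribed values -/
lemma pr_fixed (Z : Finset E) (t : E → Bool) :
    pr (fun ω : E → Bool => ∀ e ∈ Z, ω e = t e) = (1 / 2) ^ Z.card := by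
  have h := sum_prod_bits_subset Z (fun e b => if b = t e then (1 : ℝ) else 0)
  have h1 : ∀ ω : E → Bool, ∏ e ∈ Z, (if ω e = t e then (1 : ℝ) else 0) =
      if (∀ e ∈ Z, ω e = t e) then 1 else 0 := by
    intro ω
    rw [Finset.prod_ite_zero]
    simp
  simp only [h1] at h
  have h2 : ∀ e, ((if true = t e then (1 : ℝ) else 0) + (if false = t e then 1 else 0)) / 2 =
      1 / 2 := by
    intro e
    cases t e <;> simp
  simp only [h2] at h
  rw [prod_const] at h
  rw [← h, pr, card_filter]
  push_cast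
  rfl

/-- exponential tail bound: many bits of `Z` equal to `b` -/
lemma pr_tail (Z : Finset E) (b : Bool) (η : ℝ) (h0 : 0 < η) (h1 : η ≤ 1 / 2) :
    pr (fun ω : E → Bool => (1 / 2 + η) * (Z.card : ℝ) ≤ ((Z.filter fun e => ω e = b).card : ℝ)) ≤
      Real.exp (-(η ^ 2 * Z.card / 2)) := by
  set x : ℝ := 1 + 2 * η with hx
  have hx1 : 1 ≤ x := by linarith
  have hx0 : 0 < x := by linarith
  set M : ℝ := (Z.card : ℝ) with hM
  -- weight
  have hw := pr_le_of_weight
    (fun ω : E → Bool => (1 / 2 + η) * M ≤ ((Z.filter fun e => ω e = b).card : ℝ))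
    (fun ω => (∏ e ∈ Z, (if ω e = b then x else 1)) * x ^ (-((1 / 2 + η) * M)))
    (by
      intro ω
      refine mul_nonneg (prod_nonneg fun e _ => ?_) (by positivity)
      split_ifs <;> linarith)
    (by
      intro ω hω
      rw [Finset.prod_ite, prod_const_one, mul_one, prod_const, ← Real.rpow_natCast,
        ← Real.rpow_add hx0]
      exact Real.one_le_rpow hx1 (by linarith))
  refine hw.trans ?_
  rw [← Finset.sum_mul, mul_div_right_comm, sum_prod_bits_subset Z (fun _ c => if c = b then x else 1)]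
  have h2 : ∀ e ∈ Z, (((if true = b then x else 1) + (if false = b then x else 1)) / 2 : ℝ) =
      1 + η := by
    intro e _
    cases b <;> simp [hx] <;> ring
  rw [prod_congr rfl h2, prod_const]
  have h3 : (1 + η) ^ Z.card = Real.exp (M * Real.log (1 + η)) := by
    rw [← Real.rpow_natCast, Real.rpow_def_of_pos (by linarith)]
    congr 1
    ring
  have h4 : x ^ (-((1 / 2 + η) * M)) = Real.exp (-(M * ((1 / 2 + η) * Real.log x))) := by
    rw [Real.rpow_def_of_pos hx0]
    congr 1
    ring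
  rw [h3, h4, ← Real.exp_add]
  apply Real.exp_le_exp.2
  -- `log(1+η) ≤ (log x + η²)/2` and `log x ≥ η`
  have hlog1 : Real.log (1 + η) ≤ (Real.log x + η ^ 2) / 2 := by
    have h5 : (1 + η) ^ 2 ≤ x * Real.exp (η ^ 2) := by
      have h6 : 1 + η ^ 2 ≤ Real.exp (η ^ 2) := by
        have := Real.add_one_le_exp (η ^ 2)
        linarith
      have h7 : (1 + η) ^ 2 ≤ x * (1 + η ^ 2) := by
        rw [hx]; nlinarith [sq_nonneg η, pow_pos h0 3]
      exact h7.trans (mul_le_mul_of_nonneg_left h6 hx0.le)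
    have h8 : Real.log ((1 + η) ^ 2) ≤ Real.log (x * Real.exp (η ^ 2)) :=
      Real.log_le_log (by positivity) h5
    rw [Real.log_pow, Real.log_mul hx0.ne' (Real.exp_ne_zero _), Real.log_exp] at h8
    push_cast at h8
    linarith
  have hlog2 : η ≤ Real.log x := by
    have := Real.one_sub_inv_le_log_of_pos hx0
    have h9 : η ≤ 1 - x⁻¹ := by
      rw [hx]
      have : (1 + 2 * η)⁻¹ ≤ 1 - η := by
        rw [inv_le_iff_one_le_mul₀ (by linarith)]
        nlinarith
      linarith
    linarith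
  have hM0 : 0 ≤ M := by positivity
  nlinarith [mul_nonneg hM0 (mul_nonneg h0.le (sub_nonneg.2 hlog2)),
    mul_nonneg hM0 (sub_nonneg.2 hlog1)]

lemma sum_pr_eq {ι : Type} [inst : Fintype (E → Bool)] (I : Finset ι)
    (P : ι → (E → Bool) → Prop) :
    ∑ i ∈ I, pr (P i) =
      (∑ ω ∈ (@univ (E → Bool) inst), ((I.filter fun i => P i ω).card : ℝ)) /
        2 ^ Fintype.card E := by
  simp only [pr_eq, card_filter, Nat.cast_sum, Finset.sum_div]
  rw [sum_comm]

end Pool.Agent.CliqueQuery
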