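import Mathlib

/-!
# Query algorithms looking for cliques in `G(n,1/2)`: definitions
-/

namespace Pool.Agent.CliqueQuery

open Finset Filter Topology

/-- A deterministic adaptive query algorithm on the vertex set `Fin n`: it either stops and outputs
a set of vertices, or asks whether the pair `e` is an edge and goes on in a way depending on the
answer. -/
inductive QueryTree (n : ℕ) : Type
  | output (S : Finset (Fin n)) : QueryTree n
  | query (e : Sym2 (Fin n)) (next : Bool → QueryTree n) : QueryTree n

namespace QueryTree

variable {n : ℕ}

/-- The set of pairs queried by the algorithm, when `ans e` is the answer to the query `e`. -/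
noncomputable def queried (ans : Sym2 (Fin n) → Bool) (T : QueryTree n) : Finset (Sym2 (Fin n)) :=
  QueryTree.rec (fun _ => ∅) (fun e _ q => insert e (q (ans e))) T

/-- The set of vertices output by the algorithm, when `ans e` is the answer to the query `e`. -/
noncomputable def out (ans : Sym2 (Fin n) → Bool) (T : QueryTree n) : Finset (Fin n) :=
  QueryTree.rec (fun S => S) (fun e _ o => o (ans e)) T

end QueryTree

open Classical in
/-- The true answers for the graph `G`. -/
noncomputable def answers {n : ℕ} (G : SimpleGraph (Fin n)) (e : Sym2 (Fin n)) : Bool :=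
  decide (e ∈ G.edgeSet)

/-- On the graph `G`, the algorithm `T` finds a clique of size at least `s`: its output has at
least `s` elements, and every pair inside it is an edge of `G` and has been queried. -/
def Finds {n : ℕ} (T : QueryTree n) (G : SimpleGraph (Fin n)) (s : ℝ) : Prop :=
  s ≤ ((T.out (answers G)).card : ℝ) ∧
    ∀ u ∈ T.out (answers G), ∀ v ∈ T.out (answers G), u ≠ v →
      G.Adj u v ∧ s(u, v) ∈ T.queried (answers G)

open Classical in
/-- The probability that the randomised algorithm `A` (a probability distribution on deterministic
algorithms) finds a clique of size at least `s` in a uniformly random graph on `Fin n`, that is, in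
`G(n,1/2)`. -/
noncomputable def successProb {n : ℕ} (A : PMF (QueryTree n)) (s : ℝ) : ENNReal :=
  (∑ G : SimpleGraph (Fin n), A.toOuterMeasure {T | Finds T G s}) /
    (Fintype.card (SimpleGraph (Fin n)) : ENNReal)

/-- Cliques of size at least `c log₂ n` can be found with probability `1 - o(1)` by query
algorithms that query at most `C n (log₂ n)^C` pairs. -/
def Achievable (c : ℝ) : Prop :=
  ∃ (C : ℝ) (A : ∀ n : ℕ, PMF (QueryTree n)),
    (∀ n : ℕ, ∀ T ∈ (A n).support, ∀ G : SimpleGraph (Fin n),
      ((T.queried (answers G)).card : ℝ) ≤ C * n * (Real.logb 2 n) ^ C) ∧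
    Tendsto (fun n => successProb (A n) (c * Real.logb 2 n)) atTop (𝓝 1)

/-- The constant `c*` of the problem. -/
noncomputable def cStar : ℝ := sSup {c : ℝ | 0 ≤ c ∧ Achievable c}

end Pool.Agent.CliqueQuery
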