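import Pool.Agent.CliqueQuery.Tree

/-!
# Success probabilities
-/

namespace Pool.Agent.CliqueQuery

open Finset Classical Filter Topology

lemma sum_toOuterMeasure {n : ℕ} (A : PMF (QueryTree n)) (s : ℝ) :
    ∑ G : SimpleGraph (Fin n), A.toOuterMeasure {T | Finds T G s} =
      ∑' T, A T * ((univ.filter fun G : SimpleGraph (Fin n) => Finds T G s).card : ENNReal) := by
  simp only [PMF.toOuterMeasure_apply]
  rw [← Summable.tsum_finsetSum fun _ _ => ENNReal.summable]
  refine tsum_congr fun T => ?_
  rw [card_filter]
  push_cast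
  rw [mul_sum]
  refine sum_congr rfl fun G _ => ?_
  rw [Set.indicator_apply]
  simp only [Set.mem_ofPred_eq]
  split_ifs <;> simp

lemma successProb_le {n : ℕ} (A : PMF (QueryTree n)) (s : ℝ) (ε : ENNReal)
    (h : ∀ T ∈ A.support, ((univ.filter fun G : SimpleGraph (Fin n) => Finds T G s).card : ENNReal)
      ≤ ε * (Fintype.card (SimpleGraph (Fin n)) : ENNReal)) : successProb A s ≤ ε := by
  unfold successProb
  rw [sum_toOuterMeasure]
  refine ENNReal.div_le_of_le_mul ?_
  calc ∑' T, A T * ((univ.filter fun G : SimpleGraph (Fin n) => Finds T G s).card : ENNReal)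
      ≤ ∑' T, A T * (ε * (Fintype.card (SimpleGraph (Fin n)) : ENNReal)) := by
        refine ENNReal.tsum_le_tsum fun T => ?_
        by_cases hT : T ∈ A.support
        · exact mul_le_mul_right (h T hT) _
        · rw [PMF.mem_support_iff, not_not] at hT
          rw [hT, zero_mul, zero_mul]
    _ = ε * (Fintype.card (SimpleGraph (Fin n)) : ENNReal) := by
        rw [ENNReal.tsum_mul_right, A.tsum_coe, one_mul]

lemma successProb_pure {n : ℕ} (T : QueryTree n) (s : ℝ) :
    successProb (PMF.pure T) s =
      ENNReal.ofReal (((univ.filter fun G : SimpleGraph (Fin n) => Finds T G s).card : ℝ) /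
        (Fintype.card (SimpleGraph (Fin n)) : ℝ)) := by
  unfold successProb
  have h : ∀ G : SimpleGraph (Fin n), (PMF.pure T).toOuterMeasure {T | Finds T G s} =
      if Finds T G s then 1 else 0 := by
    intro G
    rw [PMF.toOuterMeasure_pure_apply]
    simp only [Set.mem_ofPred_eq]
  simp only [h]
  rw [Finset.sum_boole, ENNReal.ofReal_div_of_pos (by exact_mod_cast Fintype.card_pos),
    ENNReal.ofReal_natCast, ENNReal.ofReal_natCast]

end Pool.Agent.CliqueQuery
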