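import Pool.Agent.CliqueQuery.Second
import Pool.Agent.CliqueQuery.Success

/-!
# The greedy algorithm
-/

namespace Pool.Agent.CliqueQuery

open Finset Classical Filter Topology

set_option linter.unusedSectionVars false

section generic

variable {V : Type} [Fintype V]

/-- a subset with at most `M` elements -/
noncomputable def pick (M : ℕ) (P : Finset V) : Finset V :=
  if h : M ≤ P.card then (exists_subset_card_eq h).choose else P

lemma pick_subset (M : ℕ) (P : Finset V) : pick M P ⊆ P := by
  unfold pick
  split_ifs with h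
  · exact (exists_subset_card_eq h).choose_spec.1
  · exact subset_rfl

lemma card_pick {M : ℕ} {P : Finset V} (h : M ≤ P.card) : (pick M P).card = M := by
  unfold pick
  rw [dif_pos h]
  exact (exists_subset_card_eq h).choose_spec.2

lemma card_pick_le (M : ℕ) (P : Finset V) : (pick M P).card ≤ M := by
  by_cases h : M ≤ P.card
  · exact (card_pick h).le
  · unfold pick
    rw [dif_neg h]
    omega

/-- success of the greedy algorithm -/
def Succ (M b : ℕ) : ℕ → Finset V → (Sym2 V → Bool) → Prop
  | 0, P, ω => ∃ K ⊆ pick M P, K.card = b ∧ IsCl ω K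
  | j + 1, P, ω => ∃ h : P.Nonempty, Succ M b j (nbr ω h.choose P) ω

lemma isCl_congr {ω ω' : Sym2 V → Bool} {K : Finset V}
    (h : ∀ u ∈ K, ∀ v ∈ K, u ≠ v → ω s(u, v) = ω' s(u, v)) : IsCl ω K ↔ IsCl ω' K := by
  constructor
  · intro h1 u hu v hv huv
    rw [← h u hu v hv huv]
    exact h1 u hu v hv huv
  · intro h1 u hu v hv huv
    rw [h u hu v hv huv]
    exact h1 u hu v hv huv

lemma nbr_congr {ω ω' : Sym2 V → Bool} {P : Finset V} {a : V}
    (h : ∀ v ∈ P, v ≠ a → ω s(a, v) = ω' s(a, v)) : nbr ω a P = nbr ω' a P := by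
  unfold nbr
  apply filter_congr
  intro w hw
  refine and_congr_right fun hwa => ?_
  rw [h w hw hwa]

lemma succ_congr (M b : ℕ) (j : ℕ) : ∀ (P : Finset V) (ω ω' : Sym2 V → Bool)
    (_ : ∀ u ∈ P, ∀ v ∈ P, u ≠ v → ω s(u, v) = ω' s(u, v)),
    Succ M b j P ω ↔ Succ M b j P ω' := by
  induction j with
  | zero =>
    intro P ω ω' h
    unfold Succ
    refine exists_congr fun K => and_congr_right fun hK => and_congr_right fun _ => ?_
    exact isCl_congr fun u hu v hv => h u (pick_subset M P (hK hu)) v (pick_subset M P (hK hv))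
  | succ j ih =>
    intro P ω ω' h
    unfold Succ
    refine exists_congr fun hne => ?_
    have hc := hne.choose_spec
    rw [nbr_congr (fun v hv hva => h _ hc v hv hva.symm)]
    exact ih _ ω ω' fun u hu v hv =>
      h u (nbr_subset _ _ _ hu) v (nbr_subset _ _ _ hv)

/-- the pairs consisting of `a` and another element of `P` -/
noncomputable def star (a : V) (P : Finset V) : Finset (Sym2 V) :=
  (P.erase a).image fun x => s(a, x)

lemma star_inj (a : V) : Function.Injective fun x : V => s(a, x) := by
  intro x y h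
  rcases Sym2.eq_iff.1 h with ⟨_, h⟩ | ⟨h1, h2⟩
  · exact h
  · rw [h2, h1]

lemma card_star (a : V) (P : Finset V) : (star a P).card = (P.erase a).card := by
  unfold star
  rw [card_image_of_injective _ (star_inj a)]

lemma mem_star {a : V} {P : Finset V} {x : V} (hx : x ∈ P) (hxa : x ≠ a) :
    s(a, x) ∈ star a P :=
  mem_image_of_mem _ (mem_erase.2 ⟨hxa, hx⟩)

lemma star_filter (ω : Sym2 V → Bool) (a : V) (P : Finset V) :
    ((star a P).filter fun e => ω e = true).card = (nbr ω a P).card := by
  have : ((star a P).filter fun e => ω e = true) = (nbr ω a P).image fun x => s(a, x) := by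
    ext e
    simp only [star, mem_filter, mem_image, mem_erase, nbr]
    constructor
    · rintro ⟨⟨x, ⟨h1, h2⟩, rfl⟩, h3⟩
      exact ⟨x, ⟨h2, h1, h3⟩, rfl⟩
    · rintro ⟨x, ⟨h2, h1, h3⟩, rfl⟩
      exact ⟨⟨x, ⟨h1, h2⟩, rfl⟩, h3⟩
  rw [this, card_image_of_injective _ (star_inj a)]

lemma nbr_eq_iff (ω : Sym2 V → Bool) (a : V) (P Q : Finset V) (hQ : Q ⊆ P.erase a) :
    nbr ω a P = Q ↔ ∀ e ∈ star a P, ω e = decide (∃ x ∈ Q, e = s(a, x)) := by
  constructor
  · rintro rfl e he
    obtain ⟨x, hx, rfl⟩ := mem_image.1 he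
    rw [mem_erase] at hx
    rcases hb : ω s(a, x) with _ | _
    · symm
      rw [decide_eq_false_iff_not]
      rintro ⟨y, hy, hxy⟩
      have := star_inj a hxy
      subst this
      simp only [nbr, mem_filter] at hy
      rw [hb] at hy
      simp at hy
    · symm
      rw [decide_eq_true_iff]
      refine ⟨x, ?_, rfl⟩
      simp only [nbr, mem_filter]
      exact ⟨hx.2, hx.1, hb⟩
  · intro h
    ext x
    simp only [nbr, mem_filter]
    constructor
    · rintro ⟨h1, h2, h3⟩
      rw [h _ (mem_star h1 h2), decide_eq_true_iff] at h3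
      obtain ⟨y, hy, hxy⟩ := h3
      have := star_inj a hxy
      subst this
      exact hy
    · intro hx
      have hx' := mem_erase.1 (hQ hx)
      refine ⟨hx'.2, hx'.1, ?_⟩
      rw [h _ (mem_star hx'.2 hx'.1), decide_eq_true_iff]
      exact ⟨x, hx, rfl⟩

/-- The probability that the greedy algorithm fails. -/
theorem greedy_prob (M b : ℕ) (hM : 1 ≤ M) (hb : b ≤ M) (y : ℝ) (hy : 1 ≤ y)
    (hy2 : y ^ 2 = 2 ^ (b - 1)) (ε : ℝ) (hε : 0 < ε) (hε1 : ε ≤ 1) (hεM : 4 ≤ ε * M) (j : ℕ) :
    ∀ P : Finset V, (M : ℝ) * (2 + ε) ^ j ≤ P.card →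
      pr (fun ω : Sym2 V → Bool => ¬ Succ M b j P ω) ≤
        j * Real.exp (-((ε / 8) ^ 2 * (M - 1) / 2)) + y * (b : ℝ) ^ 2 / M := by
  induction j with
  | zero =>
    intro P hP
    rw [pow_zero, mul_one] at hP
    have hP' : M ≤ P.card := by exact_mod_cast hP
    have h1 := clique_prob (pick M P) b (by rw [card_pick hP']; exact hb)
      (by rw [card_pick hP']; omega) y hy hy2
    rw [card_pick hP'] at h1
    simp only [Nat.cast_zero, zero_mul, zero_add]
    exact h1
  | succ j ih =>
    intro P hP
    have hM' : (1 : ℝ) ≤ M := by exact_mod_cast hM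
    have hpow : (1 : ℝ) ≤ (2 + ε) ^ j := one_le_pow₀ (by linarith)
    have hMj : (M : ℝ) ≤ M * (2 + ε) ^ j := by nlinarith
    have hne : P.Nonempty := by
      rw [← card_pos]
      have : (0 : ℝ) < P.card := by
        refine lt_of_lt_of_le ?_ hP
        positivity
      exact_mod_cast this
    set a := hne.choose with ha
    have haP : a ∈ P := hne.choose_spec
    set δ : ℝ := j * Real.exp (-((ε / 8) ^ 2 * (M - 1) / 2)) + y * (b : ℝ) ^ 2 / M with hδ
    set Z := star a P with hZ
    have hZc : (Z.card : ℝ) = P.card - 1 := by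
      have : Z.card + 1 = P.card := by
        rw [hZ, card_star, card_erase_of_mem haP]
        have := card_pos.2 hne
        omega
      rw [← this]
      push_cast
      ring
    have hstep : pr (fun ω : Sym2 V → Bool => ¬ Succ M b (j + 1) P ω) ≤
        pr (fun ω : Sym2 V → Bool =>
          (1 / 2 + ε / 8) * (Z.card : ℝ) ≤ ((Z.filter fun e => ω e = false).card : ℝ)) +
        pr (fun ω : Sym2 V → Bool => ∃ Q ∈ (P.erase a).powerset.filter
            (fun Q => (M : ℝ) * (2 + ε) ^ j ≤ Q.card), nbr ω a P = Q ∧ ¬ Succ M b j Q ω) := by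
      refine le_trans (pr_mono ?_) (pr_or_le _ _)
      intro ω hω
      by_cases hsmall : (1 / 2 + ε / 8) * (Z.card : ℝ) ≤
          ((Z.filter fun e => ω e = false).card : ℝ)
      · exact Or.inl hsmall
      · refine Or.inr ⟨nbr ω a P, ?_, rfl, ?_⟩
        · rw [mem_filter, mem_powerset]
          refine ⟨?_, ?_⟩
          · intro x hx
            simp only [nbr, mem_filter] at hx
            exact mem_erase.2 ⟨hx.2.1, hx.1⟩
          · push Not at hsmall
            have h1 : (Z.filter fun e => ω e = false).card +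
                (Z.filter fun e => ω e = true).card = Z.card := by
              have := Finset.card_filter_add_card_filter_not (s := Z) (fun e => ω e = false)
              rw [← this]
              congr 2
              apply filter_congr
              intro e _
              simp
            have h2 : ((Z.filter fun e => ω e = false).card : ℝ) + ((nbr ω a P).card : ℝ) =
                Z.card := by
              rw [← star_filter]
              exact_mod_cast h1
            have h3 : (1 / 2 - ε / 8) * (Z.card : ℝ) ≤ (nbr ω a P).card := by linarith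
            refine le_trans ?_ h3
            rw [hZc]
            rw [pow_succ] at hP
            have h4 : (1 / 2 - ε / 8) * ((M : ℝ) * (2 + ε) ^ j * (2 + ε) - 1) ≤
                (1 / 2 - ε / 8) * ((P.card : ℝ) - 1) := by
              have : 0 ≤ 1 / 2 - ε / 8 := by linarith
              gcongr
              linarith
            refine le_trans ?_ h4
            set W : ℝ := (M : ℝ) * (2 + ε) ^ j with hW
            have h5 : 4 ≤ ε * W := by
              calc 4 ≤ ε * M := hεM
                _ ≤ ε * W := by gcongr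
            have hW0 : 0 < W := by positivity
            nlinarith [mul_nonneg (mul_nonneg hε.le (sub_nonneg.2 hε1)) hW0.le]
        · intro hs
          exact hω ⟨hne, hs⟩
    refine hstep.trans ?_
    have htail := pr_tail Z false (ε / 8) (by linarith) (by linarith)
    have hterm : pr (fun ω : Sym2 V → Bool => ∃ Q ∈ (P.erase a).powerset.filter
            (fun Q => (M : ℝ) * (2 + ε) ^ j ≤ Q.card), nbr ω a P = Q ∧ ¬ Succ M b j Q ω) ≤ δ := by
      refine (pr_exists_le _ _).trans ?_
      have h1 : ∀ Q ∈ (P.erase a).powerset.filter (fun Q => (M : ℝ) * (2 + ε) ^ j ≤ Q.card),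
          pr (fun ω : Sym2 V → Bool => nbr ω a P = Q ∧ ¬ Succ M b j Q ω) ≤
            (1 / 2) ^ Z.card * δ := by
        intro Q hQ
        rw [mem_filter, mem_powerset] at hQ
        have h2 : pr (fun ω : Sym2 V → Bool => nbr ω a P = Q ∧ ¬ Succ M b j Q ω) =
            pr (fun ω : Sym2 V → Bool =>
              (∀ e ∈ Z, ω e = decide (∃ x ∈ Q, e = s(a, x))) ∧ ¬ Succ M b j Q ω) := by
          apply pr_congr
          intro ω
          rw [nbr_eq_iff ω a P Q hQ.1]
        rw [h2, pr_fixed_and Z (fun e => decide (∃ x ∈ Q, e = s(a, x)))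
          (fun ω => ¬ Succ M b j Q ω)]
        · gcongr
          exact ih Q hQ.2
        · intro ω ω' h
          rw [not_iff_not]
          apply succ_congr
          intro u hu v hv huv
          apply h
          rw [hZ]
          intro hmem
          obtain ⟨x, hx, hxe⟩ := mem_image.1 hmem
          have hau : a ≠ u := fun h => (mem_erase.1 (hQ.1 hu)).1 h.symm
          have hav : a ≠ v := fun h => (mem_erase.1 (hQ.1 hv)).1 h.symm
          rcases Sym2.eq_iff.1 hxe with ⟨h, _⟩ | ⟨h, _⟩
          · exact hau h
          · exact hav h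
      refine (sum_le_sum h1).trans ?_
      rw [sum_const, nsmul_eq_mul]
      have h3 : ((((P.erase a).powerset.filter
          (fun Q => (M : ℝ) * (2 + ε) ^ j ≤ Q.card)).card : ℕ) : ℝ) ≤ 2 ^ Z.card := by
        have h4 : ((P.erase a).powerset.filter
          (fun Q => (M : ℝ) * (2 + ε) ^ j ≤ Q.card)).card ≤ 2 ^ Z.card := by
          refine (card_filter_le _ _).trans ?_
          rw [card_powerset, hZ, card_star]
        exact_mod_cast h4
      have hδ0 : 0 ≤ δ := by positivity
      calc ((((P.erase a).powerset.filter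
          (fun Q => (M : ℝ) * (2 + ε) ^ j ≤ Q.card)).card : ℕ) : ℝ) * ((1 / 2) ^ Z.card * δ)
          ≤ 2 ^ Z.card * ((1 / 2) ^ Z.card * δ) := by gcongr
        _ = δ := by
          rw [← mul_assoc, ← mul_pow]
          norm_num
    have hexp : Real.exp (-((ε / 8) ^ 2 * Z.card / 2)) ≤
        Real.exp (-((ε / 8) ^ 2 * (M - 1) / 2)) := by
      apply Real.exp_le_exp.2
      rw [hZc]
      have : (M : ℝ) ≤ P.card := by
        refine le_trans ?_ hP
        rw [pow_succ]
        nlinarith
      gcongr
    refine (add_le_add (htail.trans hexp) hterm).trans (le_of_eq ?_)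
    rw [hδ]
    push_cast
    ring

end generic

end Pool.Agent.CliqueQuery
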