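import Pool.Agent.CliqueQuery.Greedy

/-!
# The greedy algorithm as a query tree
-/

namespace Pool.Agent.CliqueQuery

open Finset Classical Filter Topology

namespace QueryTree

variable {n : ℕ}

/-- ask all pairs in a list, and go on with the answers -/
noncomputable def ask : List (Sym2 (Fin n)) → ((Sym2 (Fin n) → Bool) → QueryTree n) → QueryTree n
  | [], k => k fun _ => false
  | e :: l, k => query e fun b => ask l fun f => k (Function.update f e b)

/-- the answers to the pairs in `l` -/
noncomputable def res (ans : Sym2 (Fin n) → Bool) (l : List (Sym2 (Fin n))) :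
    Sym2 (Fin n) → Bool := fun e => if e ∈ l then ans e else false

lemma res_nil (ans : Sym2 (Fin n) → Bool) : res ans [] = fun _ => false := by
  funext e
  simp [res]

lemma update_res (ans : Sym2 (Fin n) → Bool) (l : List (Sym2 (Fin n))) (e : Sym2 (Fin n)) :
    Function.update (res ans l) e (ans e) = res ans (e :: l) := by
  funext e'
  unfold res
  by_cases h : e' = e
  · subst h
    simp
  · simp [h]

lemma out_ask (ans : Sym2 (Fin n) → Bool) (l : List (Sym2 (Fin n))) :
    ∀ k, (ask l k).out ans = (k (res ans l)).out ans := by
  induction l with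
  | nil =>
    intro k
    simp [ask, res_nil]
  | cons e l ih =>
    intro k
    rw [ask, out_query, ih, update_res]

lemma queried_ask (ans : Sym2 (Fin n) → Bool) (l : List (Sym2 (Fin n))) :
    ∀ k, (ask l k).queried ans = l.toFinset ∪ (k (res ans l)).queried ans := by
  induction l with
  | nil =>
    intro k
    simp [ask, res_nil]
  | cons e l ih =>
    intro k
    rw [ask, queried_query, ih, update_res, List.toFinset_cons, insert_union]

/-- apply a function to the output -/
def mapOut (g : Finset (Fin n) → Finset (Fin n)) : QueryTree n → QueryTree n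
  | output S => output (g S)
  | query e next => query e fun b => mapOut g (next b)

lemma out_mapOut (ans : Sym2 (Fin n) → Bool) (g : Finset (Fin n) → Finset (Fin n))
    (T : QueryTree n) : (mapOut g T).out ans = g (T.out ans) := by
  induction T with
  | output S => rfl
  | query e next ih => rw [mapOut, out_query, out_query, ih]

lemma queried_mapOut (ans : Sym2 (Fin n) → Bool) (g : Finset (Fin n) → Finset (Fin n))
    (T : QueryTree n) : (mapOut g T).queried ans = T.queried ans := by
  induction T with
  | output S => rfl
  | query e next ih => rw [mapOut, queried_query, queried_query, ih]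

/-- the greedy algorithm -/
noncomputable def greedy (M b : ℕ) : ℕ → Finset (Fin n) → QueryTree n
  | 0, P => ask (prs (pick M P)).toList fun f =>
      output (if h : ∃ K ⊆ pick M P, K.card = b ∧ IsCl f K then h.choose else ∅)
  | j + 1, P => if h : P.Nonempty then
      ask (star h.choose P).toList fun f =>
        mapOut (insert h.choose) (greedy M b j (nbr f h.choose P))
      else output ∅

lemma res_star (ans : Sym2 (Fin n) → Bool) (a : Fin n) (P : Finset (Fin n)) :
    nbr (res ans (star a P).toList) a P = nbr ans a P := by
  apply nbr_congr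
  intro v hv hva
  unfold res
  rw [if_pos]
  rw [mem_toList]
  exact mem_star hv hva

lemma res_prs (ans : Sym2 (Fin n) → Bool) (P K : Finset (Fin n)) (hK : K ⊆ P) :
    IsCl (res ans (prs P).toList) K ↔ IsCl ans K := by
  apply isCl_congr
  intro u hu v hv huv
  unfold res
  rw [if_pos]
  rw [mem_toList, mem_prs]
  exact ⟨u, hK hu, v, hK hv, huv, rfl⟩

/-- if the greedy algorithm succeeds, then it outputs a clique -/
lemma greedy_spec (M b : ℕ) (ans : Sym2 (Fin n) → Bool) (j : ℕ) : ∀ P : Finset (Fin n),
    Succ M b j P ans →
      (greedy M b j P).out ans ⊆ P ∧ ((greedy M b j P).out ans).card = j + b ∧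
      ∀ u ∈ (greedy M b j P).out ans, ∀ v ∈ (greedy M b j P).out ans, u ≠ v →
        ans s(u, v) = true ∧ s(u, v) ∈ (greedy M b j P).queried ans := by
  induction j with
  | zero =>
    intro P hS
    unfold Succ at hS
    have hS' : ∃ K ⊆ pick M P, K.card = b ∧ IsCl (res ans (prs (pick M P)).toList) K := by
      obtain ⟨K, h1, h2, h3⟩ := hS
      exact ⟨K, h1, h2, (res_prs ans _ K h1).2 h3⟩
    have hout : (greedy M b 0 P).out ans = hS'.choose := by
      rw [greedy, out_ask, dif_pos hS', out_output]
    obtain ⟨h1, h2, h3⟩ := hS'.choose_spec
    rw [hout]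
    refine ⟨h1.trans (pick_subset M P), by rw [h2, zero_add], ?_⟩
    intro u hu v hv huv
    refine ⟨(res_prs ans _ _ h1).1 h3 u hu v hv huv, ?_⟩
    rw [greedy, queried_ask, mem_union]
    left
    rw [List.mem_toFinset, mem_toList, mem_prs]
    exact ⟨u, h1 hu, v, h1 hv, huv, rfl⟩
  | succ j ih =>
    intro P hS
    obtain ⟨hne, hS⟩ := hS
    obtain ⟨h1, h2, h3⟩ := ih _ hS
    have hout : (greedy M b (j + 1) P).out ans =
        insert hne.choose ((greedy M b j (nbr ans hne.choose P)).out ans) := by
      rw [greedy, dif_pos hne, out_ask, out_mapOut, res_star]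
    have hqu : (greedy M b (j + 1) P).queried ans =
        (star hne.choose P).toList.toFinset ∪
          (greedy M b j (nbr ans hne.choose P)).queried ans := by
      rw [greedy, dif_pos hne, queried_ask, queried_mapOut, res_star]
    have hnot : hne.choose ∉ (greedy M b j (nbr ans hne.choose P)).out ans := by
      intro hmem
      have := h1 hmem
      simp [nbr] at this
    have hstar : ∀ x ∈ (greedy M b j (nbr ans hne.choose P)).out ans,
        ans s(hne.choose, x) = true ∧ s(hne.choose, x) ∈ (greedy M b (j + 1) P).queried ans := by
      intro x hx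
      have hx' := h1 hx
      simp only [nbr, mem_filter] at hx'
      refine ⟨hx'.2.2, ?_⟩
      rw [hqu, mem_union, List.mem_toFinset, mem_toList]
      exact Or.inl (mem_star hx'.1 hx'.2.1)
    rw [hout]
    refine ⟨?_, ?_, ?_⟩
    · intro x hx
      rcases mem_insert.1 hx with rfl | hx
      · exact hne.choose_spec
      · exact nbr_subset _ _ _ (h1 hx)
    · rw [card_insert_of_notMem hnot, h2]
      ring
    · intro u hu v hv huv
      rcases mem_insert.1 hu with rfl | hu
      · rcases mem_insert.1 hv with rfl | hv
        · exact absurd rfl huv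
        · exact hstar v hv
      · rcases mem_insert.1 hv with rfl | hv
        · rw [Sym2.eq_swap]
          exact hstar u hu
        · have := h3 u hu v hv huv
          refine ⟨this.1, ?_⟩
          rw [hqu, mem_union]
          exact Or.inr this.2

lemma card_queried_greedy (M b : ℕ) (ans : Sym2 (Fin n) → Bool) (j : ℕ) :
    ∀ P : Finset (Fin n), ((greedy M b j P).queried ans).card ≤ j * n + M * M := by
  induction j with
  | zero =>
    intro P
    rw [greedy, queried_ask]
    rw [queried_output, union_empty]
    have h1 : ((prs (pick M P)).toList.toFinset).card ≤ (prs (pick M P)).card := by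
      refine (List.toFinset_card_le _).trans ?_
      rw [length_toList]
    refine h1.trans ?_
    rw [card_prs, Nat.choose_two_right, zero_mul, zero_add]
    refine (Nat.div_le_self _ _).trans ?_
    have := card_pick_le M P
    exact Nat.mul_le_mul this (by omega)
  | succ j ih =>
    intro P
    rw [greedy]
    by_cases hne : P.Nonempty
    · rw [dif_pos hne, queried_ask, queried_mapOut, res_star]
      refine (card_union_le _ _).trans ?_
      have h1 : ((star hne.choose P).toList.toFinset).card ≤ n := by
        refine (List.toFinset_card_le _).trans ?_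
        rw [length_toList, card_star]
        refine (card_le_univ _).trans ?_
        rw [Fintype.card_fin]
      have h2 := ih (nbr ans hne.choose P)
      calc _ ≤ n + (j * n + M * M) := add_le_add h1 h2
        _ = (j + 1) * n + M * M := by ring
    · rw [dif_neg hne, queried_output, card_empty]
      exact Nat.zero_le _

end QueryTree

/-- the fraction of graphs in which the greedy algorithm finds a large clique -/
lemma frac_ge {n : ℕ} (M b j : ℕ) (s : ℝ) (hs : s ≤ (j : ℝ) + b) :
    1 - pr (fun ω : Sym2 (Fin n) → Bool => ¬ Succ M b j univ ω) ≤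
    ((univ.filter fun G : SimpleGraph (Fin n) => Finds (QueryTree.greedy M b j univ) G s).card : ℝ)
      / (Fintype.card (SimpleGraph (Fin n)) : ℝ) := by
  have h1 := card_graphs (n := n) (fun ans => Succ M b j univ ans)
  have h2 : pr (fun ω : Sym2 (Fin n) → Bool => Succ M b j univ (hat ω)) =
      pr (fun ω : Sym2 (Fin n) → Bool => Succ M b j univ ω) := by
    apply pr_congr
    intro ω
    apply succ_congr
    intro u _ v _ huv
    simp [hat, huv]
  have h3 : 1 - pr (fun ω : Sym2 (Fin n) → Bool => ¬ Succ M b j univ ω) =
      pr (fun ω : Sym2 (Fin n) → Bool => Succ M b j univ ω) := by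
    rw [pr_not]
    ring
  rw [h3, ← h2, ← h1]
  gcongr with G
  intro hS
  obtain ⟨g1, g2, g3⟩ := QueryTree.greedy_spec M b (answers G) j univ hS
  refine ⟨?_, ?_⟩
  · rw [g2]
    push_cast
    exact hs
  · intro u hu v hv huv
    have := g3 u hu v hv huv
    refine ⟨?_, this.2⟩
    simpa [answers] using this.1

end Pool.Agent.CliqueQuery
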