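import Pool.Agent.CliqueQuery.Asymp
import Pool.Agent.CliqueQuery.Success

/-!
# The upper bound
-/

namespace Pool.Agent.CliqueQuery

open Finset Classical Filter Topology

lemma tendsto_L : Tendsto (fun n : ℕ => Real.logb 2 n) atTop atTop :=
  (Real.tendsto_logb_atTop (by norm_num)).comp tendsto_natCast_atTop_atTop

/-- the fraction of graphs in which a tree finds a large clique -/
lemma frac_le {n : ℕ} (T : QueryTree n) (s : ℝ) (k : ℕ) (hk : k = ⌈s⌉₊) :
    ((univ.filter fun G : SimpleGraph (Fin n) => Finds T G s).card : ℝ) /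
      (Fintype.card (SimpleGraph (Fin n)) : ℝ) ≤
    pr (fun ω : Sym2 (Fin n) → Bool => ∃ K : Finset (Fin n), K.card = k ∧
        ∀ u ∈ K, ∀ v ∈ K, u ≠ v → ω s(u, v) = true ∧ s(u, v) ∈ T.path (hat ω)) := by
  have h1 := card_graphs (n := n) (fun ans => ∃ K : Finset (Fin n), K.card = k ∧
        ∀ u ∈ K, ∀ v ∈ K, u ≠ v → ans s(u, v) = true ∧ s(u, v) ∈ T.path ans)
  have h2 : pr (fun ω : Sym2 (Fin n) → Bool => ∃ K : Finset (Fin n), K.card = k ∧
        ∀ u ∈ K, ∀ v ∈ K, u ≠ v → hat ω s(u, v) = true ∧ s(u, v) ∈ T.path (hat ω)) =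
      pr (fun ω : Sym2 (Fin n) → Bool => ∃ K : Finset (Fin n), K.card = k ∧
        ∀ u ∈ K, ∀ v ∈ K, u ≠ v → ω s(u, v) = true ∧ s(u, v) ∈ T.path (hat ω)) := by
    apply pr_congr
    intro ω
    have h3 : ∀ u v : Fin n, u ≠ v → hat ω s(u, v) = ω s(u, v) := by
      intro u v huv
      simp [hat, huv]
    constructor
    · rintro ⟨K, hK, h⟩
      refine ⟨K, hK, fun u hu v hv huv => ?_⟩
      have := h u hu v hv huv
      rwa [h3 u v huv] at this
    · rintro ⟨K, hK, h⟩
      refine ⟨K, hK, fun u hu v hv huv => ?_⟩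
      rw [h3 u v huv]
      exact h u hu v hv huv
  rw [← h2, ← h1]
  gcongr with G
  rintro ⟨hs, hG⟩
  have h4 : k ≤ (T.out (answers G)).card := by
    rw [hk]
    exact Nat.ceil_le.2 hs
  obtain ⟨K, hKsub, hKcard⟩ := exists_subset_card_eq h4
  refine ⟨K, hKcard, fun u hu v hv huv => ?_⟩
  have h5 := hG u (hKsub hu) v (hKsub hv) huv
  refine ⟨?_, ?_⟩
  · simp [answers, h5.1]
  · rw [QueryTree.mem_path]
    exact h5.2

theorem not_achievable {c : ℝ} (hc : 3 / 2 < c) : ¬ Achievable c := by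
  rintro ⟨C, A, hq, hlim⟩
  set η : ℝ := min (c - 3 / 2) (1 / 2) / 40 with hη
  have hmin : 0 < min (c - 3 / 2) (1 / 2) := lt_min (by linarith) (by norm_num)
  have hη0 : 0 < η := by rw [hη]; positivity
  have hη1 : η ≤ 1 / 80 := by
    rw [hη]
    have := min_le_right (c - 3 / 2) (1 / 2)
    linarith
  have hηc : 3 / 2 + 40 * η ≤ c := by
    rw [hη]
    have := min_le_left (c - 3 / 2) (1 / 2)
    linarith
  set C' : ℝ := |C| with hC'
  have hev : ∀ᶠ x : ℝ in atTop, 1000 / η ≤ x ∧ 300 / η ^ 3 * x ≤ (2 : ℝ) ^ (η * x) ∧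
      4 * x ≤ (2 : ℝ) ^ (η ^ 2 / 3 * x) ∧ 4 * C' * x ^ C' ≤ (2 : ℝ) ^ (η * x) := by
    have e1 := eventually_poly_le η (300 / η ^ 3) 1 hη0
    have e2 := eventually_poly_le (η ^ 2 / 3) 4 1 (by positivity)
    have e3 := eventually_poly_le η (4 * C') C' hη0
    filter_upwards [e1, e2, e3, eventually_ge_atTop (1000 / η)] with x h1 h2 h3 h4
    rw [Real.rpow_one] at h1 h2
    exact ⟨h4, h1, h2, h3⟩
  have hev2 := tendsto_L.eventually hev
  have hle : ∀ᶠ n : ℕ in atTop, successProb (A n) (c * Real.logb 2 n) ≤ 1 / 2 := by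
    filter_upwards [hev2, eventually_ge_atTop 1] with n hn hn1
    obtain ⟨h1, h2, h3, h4⟩ := hn
    set L := Real.logb 2 n with hL
    have hn0 : (0 : ℝ) < n := by exact_mod_cast hn1
    have hnL : (2 : ℝ) ^ L = n := Real.rpow_logb (by norm_num) (by norm_num) hn0
    have hL1 : 1 ≤ L := by
      have : 1 ≤ 1000 / η := by
        rw [le_div_iff₀ hη0]
        linarith
      linarith
    apply successProb_le
    intro T hT
    have hfr := frac_le T (c * L) _ rfl
    have hcore := pr_small_core (n := n) η C' L hη0 hη1 hnL h1 (abs_nonneg C) h2 h3 h4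
      (fun ω => T.path (hat ω)) (adapted_path T) (by
        intro ω
        have h5 := hq n T hT (bitsEquiv n ω).1
        rw [answers_bitsEquiv] at h5
        rw [← QueryTree.toFinset_path] at h5
        refine le_trans (le_of_eq ?_) (h5.trans ?_)
        · congr!
        · calc C * n * L ^ C ≤ C' * n * L ^ C := by
                gcongr
                exact le_abs_self C
            _ ≤ C' * n * L ^ C' := by
                gcongr
                exact le_abs_self C)
    have hmono : pr (fun ω : Sym2 (Fin n) → Bool => ∃ K : Finset (Fin n), K.card = ⌈c * L⌉₊ ∧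
          ∀ u ∈ K, ∀ v ∈ K, u ≠ v → ω s(u, v) = true ∧ s(u, v) ∈ T.path (hat ω)) ≤
        pr (fun ω : Sym2 (Fin n) → Bool => ∃ K : Finset (Fin n),
          K.card = ⌈(3 / 2 + 40 * η) * L⌉₊ ∧
          ∀ u ∈ K, ∀ v ∈ K, u ≠ v → ω s(u, v) = true ∧ s(u, v) ∈ T.path (hat ω)) := by
      apply pr_mono
      rintro ω ⟨K, hK, h⟩
      have h5 : ⌈(3 / 2 + 40 * η) * L⌉₊ ≤ K.card := by
        rw [hK]
        apply Nat.ceil_mono
        gcongr
      obtain ⟨K', hsub, hcard⟩ := exists_subset_card_eq h5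
      exact ⟨K', hcard, fun u hu v hv => h u (hsub hu) v (hsub hv)⟩
    have hfinal := (hfr.trans hmono).trans hcore
    rw [div_le_iff₀ (by exact_mod_cast Fintype.card_pos)] at hfinal
    have h6 : 2 * (univ.filter fun G : SimpleGraph (Fin n) => Finds T G (c * L)).card ≤
        Fintype.card (SimpleGraph (Fin n)) := by
      have : (2 : ℝ) * ((univ.filter fun G : SimpleGraph (Fin n) => Finds T G (c * L)).card : ℝ) ≤
          (Fintype.card (SimpleGraph (Fin n)) : ℝ) := by linarith
      exact_mod_cast this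
    have h7 : (2 : ENNReal) *
        ((univ.filter fun G : SimpleGraph (Fin n) => Finds T G (c * L)).card : ENNReal) ≤
        (Fintype.card (SimpleGraph (Fin n)) : ENNReal) := by exact_mod_cast h6
    calc ((univ.filter fun G : SimpleGraph (Fin n) => Finds T G (c * L)).card : ENNReal)
        = 1 / 2 * (2 * ((univ.filter fun G : SimpleGraph (Fin n) => Finds T G (c * L)).card :
            ENNReal)) := by
          rw [← mul_assoc, one_div, ENNReal.inv_mul_cancel (by norm_num) (by norm_num), one_mul]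
      _ ≤ 1 / 2 * (Fintype.card (SimpleGraph (Fin n)) : ENNReal) := by gcongr
  have hlt : ∀ᶠ n : ℕ in atTop, 1 / 2 < successProb (A n) (c * Real.logb 2 n) :=
    hlim.eventually (eventually_gt_nhds (by
      rw [one_div]
      exact ENNReal.inv_lt_one.2 (by norm_num)))
  obtain ⟨n, h1, h2⟩ := (hle.and hlt).exists
  exact absurd h1 (not_le.2 h2)

end Pool.Agent.CliqueQuery
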