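import Pool.Agent.CliqueQuery.GreedyTree
import Pool.Agent.CliqueQuery.UpperMain

/-!
# The lower bound
-/

namespace Pool.Agent.CliqueQuery

open Finset Classical Filter Topology

/-- number of greedy steps -/
noncomputable def stepsJ (ε : ℝ) (n : ℕ) : ℕ := ⌊(1 / 2 - ε) * Real.logb 2 n⌋₊

/-- size of the clique found by exhaustive search -/
noncomputable def sizeB (ε : ℝ) (n : ℕ) : ℕ := ⌊(1 - ε) * Real.logb 2 n⌋₊

/-- the algorithm -/
noncomputable def algo (ε : ℝ) (n : ℕ) : QueryTree n :=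
  if n ≤ 1 then QueryTree.output ∅
  else QueryTree.greedy (Nat.sqrt n) (sizeB ε n) (stepsJ ε n) univ

lemma algo_queries (ε : ℝ) (hε : 0 < ε) (n : ℕ) (ans : Sym2 (Fin n) → Bool) :
    (((algo ε n).queried ans).card : ℝ) ≤ 2 * n * (Real.logb 2 n) ^ (2 : ℝ) := by
  unfold algo
  by_cases hn : n ≤ 1
  · rw [if_pos hn, QueryTree.queried_output, card_empty, Nat.cast_zero]
    have : 0 ≤ Real.logb 2 n := by
      rcases Nat.eq_zero_or_pos n with h | h
      · rw [h]; simp
      · exact Real.logb_nonneg (by norm_num) (by exact_mod_cast h)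
    positivity
  · rw [if_neg hn]
    have hn2 : 2 ≤ n := by omega
    have hL1 : 1 ≤ Real.logb 2 n := by
      rw [Real.le_logb_iff_rpow_le (by norm_num) (by positivity), Real.rpow_one]
      exact_mod_cast hn2
    set L := Real.logb 2 n with hL
    have h1 := QueryTree.card_queried_greedy (Nat.sqrt n) (sizeB ε n) ans (stepsJ ε n) univ
    have h2 : Nat.sqrt n * Nat.sqrt n ≤ n := Nat.sqrt_le n
    have h3 : (((QueryTree.greedy (Nat.sqrt n) (sizeB ε n) (stepsJ ε n) univ).queried ans).card : ℝ)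
        ≤ (stepsJ ε n : ℝ) * n + n := by
      exact_mod_cast h1.trans (Nat.add_le_add_left h2 _)
    refine h3.trans ?_
    have h4 : (stepsJ ε n : ℝ) ≤ L := by
      unfold stepsJ
      rw [← hL]
      by_cases h : 0 ≤ (1 / 2 - ε) * L
      · refine (Nat.floor_le h).trans ?_
        nlinarith
      · rw [Nat.floor_of_nonpos (by linarith)]
        simp only [Nat.cast_zero]
        linarith
    have h5 : L ^ (2 : ℝ) = L * L := by
      rw [Real.rpow_two]; ring
    rw [h5]
    have hn0 : (0 : ℝ) ≤ n := by positivity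
    nlinarith [mul_nonneg hn0 (sub_nonneg.2 h4), mul_nonneg hn0 (sub_nonneg.2 hL1),
      mul_nonneg (mul_nonneg hn0 (sub_nonneg.2 hL1)) (sub_nonneg.2 hL1)]

/-- the failure probability tends to zero -/
lemma algo_prob (ε : ℝ) (hε : 0 < ε) (hε1 : ε < 1 / 2) (ρ : ℝ) (hρ : 0 < ρ) :
    ∀ᶠ n : ℕ in atTop, pr (fun ω : Sym2 (Fin n) → Bool =>
      ¬ Succ (Nat.sqrt n) (sizeB ε n) (stepsJ ε n) univ ω) ≤ ρ := by
  set κ : ℝ := (ε / 8) ^ 2 / 2 with hκ
  have hκ0 : 0 < κ := by positivity
  have hev : ∀ᶠ x : ℝ in atTop, 4 ≤ x ∧ (2 * x) ≤ (2 : ℝ) ^ (1 / 2 * x) ∧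
      8 / ε * x ≤ (2 : ℝ) ^ (1 / 2 * x) ∧
      8 / (κ * ρ) * x ≤ (2 : ℝ) ^ (1 / 2 * x) ∧ 4 / ρ * x ^ (2 : ℝ) ≤ (2 : ℝ) ^ (ε / 2 * x) := by
    have e1 := eventually_poly_le (1 / 2) 2 1 (by norm_num)
    have e2 := eventually_poly_le (1 / 2) (8 / ε) 1 (by norm_num)
    have e3 := eventually_poly_le (1 / 2) (8 / (κ * ρ)) 1 (by norm_num)
    have e4 := eventually_poly_le (ε / 2) (4 / ρ) 2 (by positivity)
    filter_upwards [e1, e2, e3, e4, eventually_ge_atTop 4] with x h1 h2 h3 h4 h5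
    rw [Real.rpow_one] at h1 h2 h3
    exact ⟨h5, h1, h2, h3, h4⟩
  filter_upwards [tendsto_L.eventually hev, eventually_ge_atTop 1] with n hn hn1
  obtain ⟨h1, h2, h3, h4, h5⟩ := hn
  set L := Real.logb 2 n with hL
  have hn0 : (0 : ℝ) < n := by exact_mod_cast hn1
  have hnL : (2 : ℝ) ^ L = n := Real.rpow_logb (by norm_num) (by norm_num) hn0
  set W : ℝ := (2 : ℝ) ^ (1 / 2 * L) with hW
  have hWW : W * W = n := by
    rw [hW, ← Real.rpow_add (by norm_num), ← hnL]
    congr 1
    ring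
  have hW4 : 8 ≤ W := by linarith
  set M := Nat.sqrt n with hM
  have hMle : (M : ℝ) ≤ W := by
    have h6 : ((M : ℕ) : ℝ) * M ≤ W * W := by
      rw [hWW]; exact_mod_cast Nat.sqrt_le n
    by_contra hc
    push Not at hc
    nlinarith
  have hMge : W / 2 + 2 ≤ M := by
    have h6 : W < (M : ℝ) + 1 := by
      have h7 : n < (M + 1) * (M + 1) := Nat.lt_succ_sqrt n
      have h8 : W * W < ((M : ℝ) + 1) * (M + 1) := by
        rw [hWW]; exact_mod_cast h7
      by_contra hc
      push Not at hc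
      have h9 : (0 : ℝ) ≤ (M : ℝ) + 1 := by positivity
      nlinarith
    linarith
  have hM1 : 1 ≤ M := by
    have : (1 : ℝ) ≤ M := by linarith
    exact_mod_cast this
  have hM0 : (0 : ℝ) < M := by exact_mod_cast hM1
  set b := sizeB ε n with hb
  set J := stepsJ ε n with hJ
  have hbL : (b : ℝ) ≤ (1 - ε) * L := by
    rw [hb]; unfold sizeB
    exact Nat.floor_le (mul_nonneg (by linarith) (by linarith))
  have hJL : (J : ℝ) ≤ (1 / 2 - ε) * L := by
    rw [hJ]; unfold stepsJ
    exact Nat.floor_le (mul_nonneg (by linarith) (by linarith))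
  have hbM : b ≤ M := by
    have : (b : ℝ) ≤ M := by nlinarith
    exact_mod_cast this
  -- `y`
  set y : ℝ := Real.sqrt (2 ^ (b - 1)) with hy
  have hy2 : y ^ 2 = 2 ^ (b - 1) := Real.sq_sqrt (by positivity)
  have hy1 : 1 ≤ y := by
    rw [hy, Real.one_le_sqrt]
    exact one_le_pow₀ (by norm_num)
  have hyb : y ≤ (2 : ℝ) ^ ((1 - ε) / 2 * L) := by
    have h6 : y ^ 2 ≤ ((2 : ℝ) ^ ((1 - ε) / 2 * L)) ^ 2 := by
      rw [hy2, ← Real.rpow_natCast, ← Real.rpow_natCast, ← Real.rpow_mul (by norm_num)]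
      apply Real.rpow_le_rpow_of_exponent_le (by norm_num)
      have h7 : ((b - 1 : ℕ) : ℝ) ≤ b := by exact_mod_cast Nat.sub_le b 1
      push_cast
      linarith
    exact (pow_le_pow_iff_left₀ (by positivity) (by positivity) (by norm_num)).1 h6
  -- the size of the pool
  have hpool : (M : ℝ) * (2 + ε) ^ J ≤ (univ : Finset (Fin n)).card := by
    rw [card_univ, Fintype.card_fin]
    have h6 : 2 + ε ≤ (2 : ℝ) ^ (1 + ε) := by
      rw [Real.rpow_add (by norm_num), Real.rpow_one]
      have h7 : 1 + ε / 2 ≤ (2 : ℝ) ^ ε := by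
        rw [Real.rpow_def_of_pos (by norm_num)]
        have h8 := Real.add_one_le_exp (Real.log 2 * ε)
        have h9 := Real.log_two_gt_d9
        nlinarith
      linarith
    have h7 : (2 + ε) ^ J ≤ W := by
      calc (2 + ε) ^ J ≤ ((2 : ℝ) ^ (1 + ε)) ^ J := by gcongr
        _ = (2 : ℝ) ^ ((1 + ε) * J) := by
          rw [← Real.rpow_natCast, ← Real.rpow_mul (by norm_num)]
        _ ≤ (2 : ℝ) ^ (1 / 2 * L) := by
          apply Real.rpow_le_rpow_of_exponent_le (by norm_num)
          have h8 : (1 + ε) * (J : ℝ) ≤ (1 + ε) * ((1 / 2 - ε) * L) := by gcongr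
          nlinarith
    calc (M : ℝ) * (2 + ε) ^ J ≤ W * W := by gcongr
      _ = n := hWW
  have hmain := greedy_prob M b hM1 hbM y hy1 hy2 ε hε (by linarith)
    (by
      have : 8 ≤ ε * W := by
        rw [div_mul_eq_mul_div, div_le_iff₀ hε] at h3
        nlinarith
      nlinarith) J univ hpool
  refine hmain.trans ?_
  -- first term
  have ht1 : (J : ℝ) * Real.exp (-((ε / 8) ^ 2 * (M - 1) / 2)) ≤ ρ / 2 := by
    have e1 : -((ε / 8) ^ 2 * ((M : ℝ) - 1) / 2) = -(κ * (M - 1)) := by rw [hκ]; ring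
    rw [e1]
    have e2 : κ * W / 2 ≤ κ * (M - 1) := by nlinarith
    have e3 : Real.exp (-(κ * ((M : ℝ) - 1))) ≤ 2 / (κ * W) := by
      have e4 : Real.exp (-(κ * ((M : ℝ) - 1))) ≤ Real.exp (-(κ * W / 2)) :=
        Real.exp_le_exp.2 (by linarith)
      refine e4.trans ?_
      rw [Real.exp_neg, inv_le_comm₀ (Real.exp_pos _) (by positivity), inv_div]
      have := Real.add_one_le_exp (κ * W / 2)
      linarith
    have e5 : (J : ℝ) ≤ L := by nlinarith
    calc (J : ℝ) * Real.exp (-(κ * ((M : ℝ) - 1))) ≤ L * (2 / (κ * W)) := by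
          gcongr
      _ ≤ ρ / 2 := by
          rw [div_mul_eq_mul_div, div_le_iff₀ (by positivity)] at h4
          rw [← mul_div_assoc, div_le_div_iff₀ (by positivity) (by norm_num)]
          nlinarith
  -- second term
  have ht2 : y * (b : ℝ) ^ 2 / M ≤ ρ / 2 := by
    have e1 : (b : ℝ) ≤ L := by nlinarith
    have e2 : (2 : ℝ) ^ ((1 - ε) / 2 * L) * (2 : ℝ) ^ (ε / 2 * L) = W := by
      rw [← Real.rpow_add (by norm_num), hW]
      congr 1
      ring
    set Y : ℝ := (2 : ℝ) ^ ((1 - ε) / 2 * L) with hY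
    have hY0 : 0 < Y := by positivity
    rw [Real.rpow_two] at h5
    have e3 : Y * (4 / ρ * L ^ 2) ≤ W := by
      rw [← e2]
      gcongr
    rw [div_le_div_iff₀ hM0 (by norm_num)]
    calc y * (b : ℝ) ^ 2 * 2 ≤ Y * L ^ 2 * 2 := by gcongr
      _ = ρ * (Y * (4 / ρ * L ^ 2) / 2) := by
          field_simp
          ring
      _ ≤ ρ * (W / 2) := by gcongr
      _ ≤ ρ * M := by
          gcongr
          linarith
  linarith

theorem achievable {c : ℝ} (hc0 : 0 ≤ c) (hc : c < 3 / 2) : Achievable c := by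
  set ε : ℝ := (3 / 2 - c) / 4 with hε
  have hε0 : 0 < ε := by rw [hε]; linarith
  have hε1 : ε < 1 / 2 := by rw [hε]; linarith
  refine ⟨2, fun n => PMF.pure (algo ε n), ?_, ?_⟩
  · intro n T hT G
    rw [PMF.support_pure, Set.mem_singleton_iff] at hT
    subst hT
    exact algo_queries ε hε0 n _
  · have hfrac : Tendsto (fun n : ℕ => ((univ.filter fun G : SimpleGraph (Fin n) =>
        Finds (algo ε n) G (c * Real.logb 2 n)).card : ℝ) /
        (Fintype.card (SimpleGraph (Fin n)) : ℝ)) atTop (𝓝 1) := by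
      rw [Metric.tendsto_atTop']
      intro ρ hρ
      have h1 := algo_prob ε hε0 hε1 (ρ / 2) (by linarith)
      have h2 : ∀ᶠ n : ℕ in atTop, 4 ≤ (3 / 2 - c) * Real.logb 2 n := by
        have := tendsto_L.eventually (eventually_ge_atTop (4 / (3 / 2 - c)))
        filter_upwards [this] with n hn
        rw [div_le_iff₀ (by linarith)] at hn
        linarith
      have h3 := (h1.and h2).and (eventually_gt_atTop 1)
      rw [eventually_atTop] at h3
      obtain ⟨N, hN⟩ := h3
      refine ⟨N, fun n hn => ?_⟩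
      obtain ⟨⟨h4, h5⟩, h6⟩ := hN n hn.le
      set L := Real.logb 2 n with hL
      have hJ : (1 / 2 - ε) * L - 1 ≤ stepsJ ε n := by
        unfold stepsJ
        have := Nat.lt_floor_add_one ((1 / 2 - ε) * Real.logb 2 n)
        rw [← hL] at this ⊢
        linarith
      have hb : (1 - ε) * L - 1 ≤ sizeB ε n := by
        unfold sizeB
        have := Nat.lt_floor_add_one ((1 - ε) * Real.logb 2 n)
        rw [← hL] at this ⊢
        linarith
      have h7 := frac_ge (n := n) (Nat.sqrt n) (sizeB ε n) (stepsJ ε n) (c * L) (by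
        have e1 : (1 / 2 - ε) * L + (1 - ε) * L = c * L + (3 / 2 - c) * L / 2 := by
          rw [hε]; ring
        linarith)
      have h8 : algo ε n = QueryTree.greedy (Nat.sqrt n) (sizeB ε n) (stepsJ ε n) univ := by
        unfold algo
        rw [if_neg (by omega)]
      rw [← h8] at h7
      have h9 : ((univ.filter fun G : SimpleGraph (Fin n) =>
          Finds (algo ε n) G (c * L)).card : ℝ) /
          (Fintype.card (SimpleGraph (Fin n)) : ℝ) ≤ 1 := by
        rw [div_le_one (by exact_mod_cast Fintype.card_pos)]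
        exact_mod_cast card_le_univ _
      rw [Real.dist_eq, abs_lt]
      constructor <;> linarith
    have h1 := ENNReal.tendsto_ofReal hfrac
    rw [ENNReal.ofReal_one] at h1
    refine h1.congr fun n => ?_
    rw [successProb_pure]

end Pool.Agent.CliqueQuery
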