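import Pool.Agent.CliqueQuery.Upper

/-!
# The second moment of the number of cliques, and independence
-/

namespace Pool.Agent.CliqueQuery

open Finset Classical

set_option linter.unusedSectionVars false

variable {V : Type} [Fintype V]

lemma choose_sub_le (M k u : ℕ) (hu : u ≤ k) (hk : k ≤ M) :
    (M : ℝ) ^ u * ((M - u).choose (k - u) : ℝ) ≤ (k : ℝ) ^ u * (M.choose k : ℝ) := by
  induction u with
  | zero => simp
  | succ u ih =>
    have ih' := ih (by omega)
    obtain ⟨M', hM'⟩ : ∃ M', M - u = M' + 1 := ⟨M - u - 1, by omega⟩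
    obtain ⟨k', hk'⟩ : ∃ k', k - u = k' + 1 := ⟨k - u - 1, by omega⟩
    have e1 : M - (u + 1) = M' := by omega
    have e2 : k - (u + 1) = k' := by omega
    rw [hM', hk'] at ih'
    rw [e1, e2]
    have h1 : ((M' : ℝ) + 1) * (M'.choose k' : ℝ) = ((M' + 1).choose (k' + 1) : ℝ) * (k' + 1) := by
      exact_mod_cast Nat.add_one_mul_choose_eq M' k'
    have h2 : (M : ℝ) * (k' + 1) ≤ k * (M' + 1) := by
      have : M * (k' + 1) ≤ k * (M' + 1) := by
        have a1 : M = M' + 1 + u := by omega
        have a2 : k = k' + 1 + u := by omega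
        have a3 : k' ≤ M' := by omega
        rw [a1, a2]
        nlinarith
      exact_mod_cast this
    have h3 : (M : ℝ) * (M'.choose k' : ℝ) ≤ k * ((M' + 1).choose (k' + 1) : ℝ) := by
      have h4 : ((M' : ℝ) + 1) * ((M : ℝ) * (M'.choose k' : ℝ)) ≤
          ((M' : ℝ) + 1) * (k * ((M' + 1).choose (k' + 1) : ℝ)) := by
        calc ((M' : ℝ) + 1) * ((M : ℝ) * (M'.choose k' : ℝ))
            = M * (((M' : ℝ) + 1) * (M'.choose k' : ℝ)) := by ring
          _ = (M * (k' + 1)) * ((M' + 1).choose (k' + 1) : ℝ) := by rw [h1]; ring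
          _ ≤ (k * (M' + 1)) * ((M' + 1).choose (k' + 1) : ℝ) := by gcongr
          _ = _ := by ring
      exact le_of_mul_le_mul_left h4 (by positivity)
    calc (M : ℝ) ^ (u + 1) * (M'.choose k' : ℝ)
        = (M : ℝ) ^ u * ((M : ℝ) * (M'.choose k' : ℝ)) := by ring
      _ ≤ (M : ℝ) ^ u * (k * ((M' + 1).choose (k' + 1) : ℝ)) := by gcongr
      _ = k * ((M : ℝ) ^ u * ((M' + 1).choose (k' + 1) : ℝ)) := by ring
      _ ≤ k * ((k : ℝ) ^ u * (M.choose k : ℝ)) := by gcongr
      _ = _ := by ring

lemma card_superset_le (P U : Finset V) (k : ℕ) (hU : U ⊆ P) :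
    ((powersetCard k P).filter fun T => U ⊆ T).card ≤ (P.card - U.card).choose (k - U.card) := by
  rw [← card_sdiff_of_subset hU, ← card_powersetCard]
  refine card_le_card_of_injOn (fun T => T \ U) ?_ ?_
  · intro T hT
    simp only [coe_filter, mem_powersetCard, Set.mem_ofPred_eq] at hT
    simp only [mem_coe, mem_powersetCard]
    refine ⟨sdiff_subset_sdiff hT.1.1 le_rfl, ?_⟩
    rw [card_sdiff_of_subset hT.2, hT.1.2]
  · intro T hT T' hT' h
    simp only [coe_filter, mem_powersetCard, Set.mem_ofPred_eq] at hT hT'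
    simp only at h
    rw [← sdiff_union_of_subset hT.2, ← sdiff_union_of_subset hT'.2, h]

lemma sum_pow_inter_le (P S : Finset V) (k : ℕ) (hS : S ⊆ P) (hSk : S.card = k)
    (y : ℝ) (hy : 1 ≤ y) (hP : 0 < P.card) :
    ∑ T ∈ powersetCard k P, y ^ (S ∩ T).card ≤
      ((powersetCard k P).card : ℝ) * (1 + y * k / P.card) ^ k := by
  have hkP : k ≤ P.card := hSk ▸ card_le_card hS
  have h1 : ∀ T ∈ powersetCard k P, y ^ (S ∩ T).card =
      ∑ U ∈ S.powerset, if U ⊆ T then (y - 1) ^ U.card else 0 := by
    intro T _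
    have h2 := Finset.sum_pow_mul_eq_add_pow (y - 1) 1 (S ∩ T)
    simp only [one_pow, mul_one, sub_add_cancel] at h2
    rw [← h2, ← sum_filter]
    refine sum_congr ?_ fun _ _ => rfl
    ext U
    simp only [mem_powerset, mem_filter, subset_inter_iff]
  rw [sum_congr rfl h1, sum_comm]
  have hp : (0 : ℝ) < P.card := by exact_mod_cast hP
  have h3 : ∀ U ∈ S.powerset, (∑ T ∈ powersetCard k P, if U ⊆ T then (y - 1) ^ U.card else 0) ≤
      ((powersetCard k P).card : ℝ) * ((y - 1) * k / P.card) ^ U.card := by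
    intro U hU
    rw [mem_powerset] at hU
    rw [← sum_filter, sum_const, nsmul_eq_mul]
    have h4 : (((powersetCard k P).filter fun T => U ⊆ T).card : ℝ) ≤
        ((P.card - U.card).choose (k - U.card) : ℝ) := by
      exact_mod_cast card_superset_le P U k (hU.trans hS)
    have h5 := choose_sub_le P.card k U.card (hSk ▸ card_le_card hU) hkP
    have h6 : ((P.card - U.card).choose (k - U.card) : ℝ) ≤
        ((powersetCard k P).card : ℝ) * ((k : ℝ) / P.card) ^ U.card := by
      rw [card_powersetCard, div_pow, ← mul_div_assoc, le_div_iff₀ (by positivity)]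
      linarith
    have hy0 : 0 ≤ y - 1 := by linarith
    calc (((powersetCard k P).filter fun T => U ⊆ T).card : ℝ) * (y - 1) ^ U.card
        ≤ (((powersetCard k P).card : ℝ) * ((k : ℝ) / P.card) ^ U.card) * (y - 1) ^ U.card := by
          gcongr
          exact h4.trans h6
      _ = _ := by
          rw [mul_div_assoc, mul_pow]
          ring
  refine (sum_le_sum h3).trans ?_
  rw [← mul_sum]
  gcongr
  have h7 := Finset.sum_pow_mul_eq_add_pow ((y - 1) * k / P.card) 1 S
  simp only [one_pow, mul_one] at h7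
  rw [h7, hSk]
  have hy0 : 0 ≤ y - 1 := by linarith
  gcongr ?_ ^ k
  rw [add_comm]
  gcongr
  linarith

lemma isCl_iff (ω : Sym2 V → Bool) (S : Finset V) :
    IsCl ω S ↔ ∀ e ∈ prs S, ω e = true := by
  constructor
  · intro h e he
    obtain ⟨u, hu, v, hv, huv, rfl⟩ := mem_prs.1 he
    exact h u hu v hv huv
  · intro h u hu v hv huv
    exact h _ (mem_prs.2 ⟨u, hu, v, hv, huv, rfl⟩)

/-- A set of `p` vertices contains a clique of size `k` with probability at least
`1 - 2^((k-1)/2) k² / p`. -/
theorem clique_prob (P : Finset V) (k : ℕ) (hk : k ≤ P.card) (hP : 0 < P.card)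
    (y : ℝ) (hy : 1 ≤ y) (hy2 : y ^ 2 = 2 ^ (k - 1)) :
    pr (fun ω : Sym2 V → Bool => ¬ ∃ K ⊆ P, K.card = k ∧ IsCl ω K) ≤
      y * (k : ℝ) ^ 2 / P.card := by
  set I := powersetCard k P with hI
  set p : ℝ := (P.card : ℝ) with hp
  have hp0 : 0 < p := by rw [hp]; exact_mod_cast hP
  have hI0 : 0 < (I.card : ℝ) := by
    rw [hI, card_powersetCard]
    exact_mod_cast Nat.choose_pos hk
  set N : ℝ := 2 ^ Fintype.card (Sym2 V) with hN
  have hN0 : 0 < N := by positivity
  set q : ℝ := (1 / 2) ^ (k.choose 2) with hq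
  have hq0 : 0 < q := by positivity
  -- first moment
  have hm1 : ∑ S ∈ I, pr (fun ω : Sym2 V → Bool => IsCl ω S) = I.card * q := by
    rw [← nsmul_eq_mul, ← sum_const]
    refine sum_congr rfl fun S hS => ?_
    rw [hI, mem_powersetCard] at hS
    rw [pr_congr fun ω => isCl_iff ω S, pr_fixed (prs S) (fun _ => true), card_prs, hS.2]
  -- second moment
  have hm2 : ∑ T ∈ I ×ˢ I, pr (fun ω : Sym2 V → Bool => IsCl ω T.1 ∧ IsCl ω T.2) ≤
      (I.card * q) ^ 2 * (1 + y * k / p) ^ k := by
    rw [sum_product]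
    have h1 : ∀ S ∈ I, ∑ T ∈ I, pr (fun ω : Sym2 V → Bool => IsCl ω S ∧ IsCl ω T) ≤
        q ^ 2 * (I.card * (1 + y * k / p) ^ k) := by
      intro S hS
      rw [hI, mem_powersetCard] at hS
      have h2 := sum_pow_inter_le P S k hS.1 hS.2 y hy hP
      refine le_trans ?_ (mul_le_mul_of_nonneg_left h2 (by positivity))
      rw [mul_sum]
      refine sum_le_sum fun T hT => ?_
      rw [mem_powersetCard] at hT
      have h3 : pr (fun ω : Sym2 V → Bool => IsCl ω S ∧ IsCl ω T) =
          (1 / 2) ^ (prs S ∪ prs T).card := by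
        rw [← pr_fixed (prs S ∪ prs T) (fun _ => true)]
        apply pr_congr
        intro ω
        rw [isCl_iff, isCl_iff]
        constructor
        · rintro ⟨a, b⟩ e he
          rcases mem_union.1 he with he | he
          · exact a e he
          · exact b e he
        · intro a
          exact ⟨fun e he => a e (mem_union_left _ he), fun e he => a e (mem_union_right _ he)⟩
      have h4 : prs S ∩ prs T = prs (S ∩ T) := by
        ext e
        simp only [mem_inter, mem_prs]
        constructor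
        · rintro ⟨⟨u, hu, v, hv, huv, rfl⟩, u', hu', v', hv', huv', h⟩
          rcases Sym2.eq_iff.1 h with ⟨rfl, rfl⟩ | ⟨rfl, rfl⟩
          · exact ⟨u', ⟨hu, hu'⟩, v', ⟨hv, hv'⟩, huv, rfl⟩
          · exact ⟨v', ⟨hu, hv'⟩, u', ⟨hv, hu'⟩, huv, rfl⟩
        · rintro ⟨u, hu, v, hv, huv, rfl⟩
          exact ⟨⟨u, hu.1, v, hv.1, huv, rfl⟩, u, hu.2, v, hv.2, huv, rfl⟩
      have h5 : (prs S ∪ prs T).card + (S ∩ T).card.choose 2 = k.choose 2 + k.choose 2 := by
        have := card_union_add_card_inter (prs S) (prs T)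
        rw [h4, card_prs, card_prs, card_prs, hS.2, hT.2] at this
        exact this
      rw [h3]
      set i := (S ∩ T).card with hi
      have hik : i ≤ k := by
        rw [hi, ← hS.2]
        exact card_le_card inter_subset_left
      have h6 : (2 : ℝ) ^ (i.choose 2) ≤ y ^ i := by
        have h7 : ((2 : ℝ) ^ (i.choose 2)) ^ 2 ≤ (y ^ i) ^ 2 := by
          rw [← pow_mul, ← pow_mul, mul_comm i 2, pow_mul y 2 i, hy2, ← pow_mul]
          apply pow_le_pow_right₀ (by norm_num)
          have h8 : i.choose 2 * 2 = i * (i - 1) := by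
            rw [Nat.choose_two_right]
            exact Nat.div_mul_cancel (Nat.even_mul_pred_self i).two_dvd
          rw [h8, mul_comm]
          exact Nat.mul_le_mul_right _ (by omega)
        exact (pow_le_pow_iff_left₀ (by positivity) (by positivity) (by norm_num)).1 h7
      have h9 : ((1 : ℝ) / 2) ^ (prs S ∪ prs T).card = q ^ 2 * 2 ^ (i.choose 2) := by
        have h10 : q ^ 2 = (1 / 2) ^ ((prs S ∪ prs T).card + i.choose 2) := by
          rw [h5, hq, pow_add, sq]
        rw [h10, pow_add, mul_assoc, ← mul_pow]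
        norm_num
      rw [h9]
      gcongr
    refine (sum_le_sum h1).trans ?_
    rw [sum_const, nsmul_eq_mul]
    apply le_of_eq
    ring
  -- in terms of the number of cliques
  set X : (Sym2 V → Bool) → ℝ := fun ω => ((I.filter fun S => IsCl ω S).card : ℝ) with hX
  have hs1 : (∑ ω, X ω) / N = I.card * q := by
    rw [← hm1, sum_pr_eq]
  have hs2 : (∑ ω, X ω ^ 2) / N ≤ (I.card * q) ^ 2 * (1 + y * k / p) ^ k := by
    refine le_trans (le_of_eq ?_) hm2
    rw [sum_pr_eq]
    congr 1
    refine sum_congr rfl fun ω _ => ?_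
    rw [hX]
    simp only
    rw [sq, ← Nat.cast_mul, ← card_product, ← filter_product]
    congr!
  have hcs : (∑ ω, X ω) ^ 2 ≤ ((univ.filter fun ω => ∃ K ⊆ P, K.card = k ∧ IsCl ω K).card : ℝ) *
      ∑ ω, X ω ^ 2 := by
    have h1 : ∑ ω, X ω = ∑ ω ∈ univ.filter fun ω => ∃ K ⊆ P, K.card = k ∧ IsCl ω K, X ω := by
      symm
      apply sum_subset (filter_subset _ _)
      intro ω _ hω
      simp only [mem_filter, mem_univ, true_and] at hω
      simp only [hX, Nat.cast_eq_zero, card_eq_zero]
      rw [filter_eq_empty_iff]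
      intro S hS hcl
      rw [hI, mem_powersetCard] at hS
      exact hω ⟨S, hS.1, hS.2, hcl⟩
    have h2 : ∑ ω ∈ univ.filter (fun ω => ∃ K ⊆ P, K.card = k ∧ IsCl ω K), X ω ^ 2 ≤
        ∑ ω, X ω ^ 2 :=
      sum_le_sum_of_subset_of_nonneg (filter_subset _ _) fun _ _ _ => sq_nonneg _
    rw [h1]
    refine (sq_sum_le_card_mul_sum_sq).trans ?_
    gcongr
  set A : ℝ := pr (fun ω : Sym2 V → Bool => ∃ K ⊆ P, K.card = k ∧ IsCl ω K) with hA
  have hA' : A * N = ((univ.filter fun ω => ∃ K ⊆ P, K.card = k ∧ IsCl ω K).card : ℝ) := by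
    rw [hA, pr_eq (fun ω : Sym2 V → Bool => ∃ K ⊆ P, K.card = k ∧ IsCl ω K),
      div_mul_cancel₀ _ hN0.ne']
  rw [pr_not, ← hA]
  set z : ℝ := 1 + y * k / p with hz
  have hz0 : 0 < z := by positivity
  have h1 : (I.card * q) ^ 2 ≤ A * ((I.card * q) ^ 2 * z ^ k) := by
    rw [← hs1, div_pow, div_le_iff₀ (by positivity)]
    refine hcs.trans ?_
    rw [← hA', ← div_pow, hs1]
    rw [div_le_iff₀ hN0] at hs2
    have hA0 : 0 ≤ A := pr_nonneg _
    calc A * N * ∑ ω, X ω ^ 2 ≤ A * N * ((I.card * q) ^ 2 * z ^ k * N) := by gcongr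
      _ = _ := by ring
  have h2 : 1 ≤ A * z ^ k := by
    have h3 : (0 : ℝ) < (I.card * q) ^ 2 := by positivity
    have h4 : (I.card * q) ^ 2 * 1 ≤ (I.card * q) ^ 2 * (A * z ^ k) := by
      calc (I.card * q) ^ 2 * 1 = (I.card * q) ^ 2 := mul_one _
        _ ≤ A * ((I.card * q) ^ 2 * z ^ k) := h1
        _ = _ := by ring
    exact le_of_mul_le_mul_left h4 h3
  have h3 : z ^ k ≤ Real.exp (y * k ^ 2 / p) := by
    have h4 : z ≤ Real.exp (y * k / p) := by
      have := Real.add_one_le_exp (y * k / p)
      linarith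
    calc z ^ k ≤ (Real.exp (y * k / p)) ^ k := by gcongr
      _ = _ := by
        rw [← Real.exp_nat_mul]
        congr 1
        ring
  have hA0 : 0 ≤ A := pr_nonneg _
  have h4 : 1 ≤ A * Real.exp (y * k ^ 2 / p) := h2.trans (by gcongr)
  have h5 : Real.exp (-(y * k ^ 2 / p)) ≤ A := by
    rw [Real.exp_neg, inv_le_iff_one_le_mul₀ (Real.exp_pos _)]
    exact h4
  have h6 := Real.add_one_le_exp (-(y * k ^ 2 / p))
  linarith

/-- independence of the bits in `Z` and an event that does not depend on them -/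
lemma pr_fixed_and {E : Type} [Fintype E] (Z : Finset E) (t : E → Bool)
    (B : (E → Bool) → Prop)
    (hB : ∀ ω ω' : E → Bool, (∀ e ∉ Z, ω e = ω' e) → (B ω ↔ B ω')) :
    pr (fun ω : E → Bool => (∀ e ∈ Z, ω e = t e) ∧ B ω) = (1 / 2) ^ Z.card * pr B := by
  -- all patterns on `Z` are equally likely
  have hpat : ∀ t : E → Bool, ((univ.filter fun ω : E → Bool => (∀ e ∈ Z, ω e = t e) ∧ B ω).card) =
      ((univ.filter fun ω : E → Bool => (∀ e ∈ Z, ω e = false) ∧ B ω).card) := by
    intro t
    refine Finset.card_bij' (fun ω _ e => if e ∈ Z then false else ω e)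
      (fun ω _ e => if e ∈ Z then t e else ω e) ?_ ?_ ?_ ?_
    · intro ω hω
      simp only [mem_filter, mem_univ, true_and] at hω ⊢
      refine ⟨fun e he => by simp [he], ?_⟩
      refine (hB _ _ ?_).2 hω.2
      intro e he
      simp [he]
    · intro ω hω
      simp only [mem_filter, mem_univ, true_and] at hω ⊢
      refine ⟨fun e he => by simp [he], ?_⟩
      refine (hB _ _ ?_).2 hω.2
      intro e he
      simp [he]
    · intro ω hω
      simp only [mem_filter, mem_univ, true_and] at hω
      funext e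
      by_cases he : e ∈ Z
      · simp [he, hω.1 e he]
      · simp [he]
    · intro ω hω
      simp only [mem_filter, mem_univ, true_and] at hω
      funext e
      by_cases he : e ∈ Z
      · simp [he, hω.1 e he]
      · simp [he]
  have htot : (univ.filter B).card = 2 ^ Z.card *
      ((univ.filter fun ω : E → Bool => (∀ e ∈ Z, ω e = false) ∧ B ω).card) := by
    have h1 := Finset.card_eq_sum_card_fiberwise (s := univ.filter B)
      (t := (univ : Finset (Finset E)).filter fun S => S ⊆ Z)
      (f := fun ω => Z.filter fun e => ω e = true) (by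
        intro ω _
        simp only [coe_filter, mem_univ, true_and, Set.mem_ofPred_eq]
        exact filter_subset _ _)
    rw [h1]
    have h2 : ∀ S ∈ (univ : Finset (Finset E)).filter fun S => S ⊆ Z,
        ((univ.filter B).filter fun ω => (Z.filter fun e => ω e = true) = S).card =
        ((univ.filter fun ω : E → Bool => (∀ e ∈ Z, ω e = false) ∧ B ω).card) := by
      intro S hS
      simp only [mem_filter, mem_univ, true_and] at hS
      rw [← hpat fun e => decide (e ∈ S)]
      congr 1
      ext ω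
      simp only [mem_filter, mem_univ, true_and]
      rw [and_comm]
      refine and_congr_left fun _ => ?_
      constructor
      · rintro rfl e he
        simp only [mem_filter, he, true_and]
        cases ω e <;> simp
      · intro h
        ext e
        simp only [mem_filter]
        constructor
        · rintro ⟨he, h'⟩
          rw [h e he] at h'
          exact of_decide_eq_true h'
        · intro he
          refine ⟨hS he, ?_⟩
          rw [h e (hS he)]
          exact decide_eq_true he
    rw [sum_congr rfl h2, sum_const, smul_eq_mul]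
    congr 1
    have h3 : ((univ : Finset (Finset E)).filter fun S => S ⊆ Z) = Z.powerset := by
      ext S
      simp
    rw [h3, card_powerset]
  rw [pr_eq (fun ω : E → Bool => (∀ e ∈ Z, ω e = t e) ∧ B ω), hpat t, pr_eq B, htot]
  push_cast
  rw [one_div, inv_pow]
  field_simp

end Pool.Agent.CliqueQuery
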