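import Pool.Agent.CliqueQuery.Bits

/-!
# Properties of the random graph that do not depend on the algorithm
-/

namespace Pool.Agent.CliqueQuery

open Finset Classical

set_option linter.unusedSectionVars false

variable {V : Type} [Fintype V]

/-- neighbours of `v` in `D` -/
noncomputable def nbr (ω : Sym2 V → Bool) (v : V) (D : Finset V) : Finset V :=
  D.filter fun w => w ≠ v ∧ ω s(v, w) = true

/-- `S` is a clique -/
def IsCl (ω : Sym2 V → Bool) (S : Finset V) : Prop :=
  ∀ u ∈ S, ∀ v ∈ S, u ≠ v → ω s(u, v) = true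

/-- common neighbours of `S` outside `S` -/
noncomputable def cn (ω : Sym2 V → Bool) (S : Finset V) : Finset V :=
  univ.filter fun w => w ∉ S ∧ ∀ v ∈ S, ω s(v, w) = true

/-- number of ordered cliques of size `i` in `D` -/
noncomputable def cc (ω : Sym2 V → Bool) : ℕ → Finset V → ℕ
  | 0, _ => 1
  | i + 1, D => ∑ v ∈ D, cc ω i (nbr ω v D)

/-- few vertices of a large set `D` have many neighbours in `D` -/
def Good1 (r0 r1 : ℕ) (η : ℝ) (ω : Sym2 V → Bool) : Prop :=
  ∀ D : Finset V, r1 ≤ D.card →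
    (D.filter fun v => (1 / 2 + η) * (D.card : ℝ) ≤ ((nbr ω v D).card : ℝ)).card < r0

/-- sets of size `s` have few common neighbours -/
def Good2 (s r2 : ℕ) (ω : Sym2 V → Bool) : Prop :=
  ∀ S : Finset V, S.card = s → (cn ω S).card < r2

lemma nbr_subset (ω : Sym2 V → Bool) (v : V) (D : Finset V) : nbr ω v D ⊆ D := filter_subset _ _

/-- the pairs between two disjoint sets -/
noncomputable def btw (R D : Finset V) : Finset (Sym2 V) :=
  (R ×ˢ D).image fun p => s(p.1, p.2)

lemma btw_injOn {R D : Finset V} (h : Disjoint R D) :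
    Set.InjOn (fun p : V × V => s(p.1, p.2)) ((R ×ˢ D : Finset (V × V)) : Set (V × V)) := by
  rintro ⟨a, b⟩ h1 ⟨c, d⟩ h2 hcd
  simp only [coe_product, Set.mem_prod, mem_coe] at h1 h2
  simp only [Sym2.eq_iff] at hcd
  rcases hcd with ⟨h3, h4⟩ | ⟨h3, h4⟩
  · rw [h3, h4]
  · exfalso
    rw [h3] at h1
    exact (disjoint_left.1 h h1.1) h2.2

lemma card_btw {R D : Finset V} (h : Disjoint R D) : (btw R D).card = R.card * D.card := by
  rw [btw, card_image_of_injOn (btw_injOn h), card_product]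

lemma card_btw_filter {R D : Finset V} (h : Disjoint R D) (ω : Sym2 V → Bool) :
    ((btw R D).filter fun e => ω e = true).card = ∑ v ∈ R, (nbr ω v D).card := by
  have h1 : ((btw R D).filter fun e => ω e = true) =
      ((R ×ˢ D).filter fun p : V × V => ω s(p.1, p.2) = true).image fun p => s(p.1, p.2) := by
    ext e
    simp only [btw, mem_filter, mem_image]
    constructor
    · rintro ⟨⟨p, hp, rfl⟩, he⟩
      exact ⟨p, ⟨hp, he⟩, rfl⟩
    · rintro ⟨p, ⟨hp, he⟩, rfl⟩
      exact ⟨⟨p, hp, rfl⟩, he⟩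
  rw [h1, card_image_of_injOn]
  · rw [card_filter, sum_product]
    refine sum_congr rfl fun v hv => ?_
    rw [nbr, card_filter]
    refine sum_congr rfl fun w hw => ?_
    have hne : w ≠ v := fun hvw => disjoint_left.1 h hv (hvw ▸ hw)
    simp [hne]
  · refine (btw_injOn h).mono ?_
    intro p hp
    exact (mem_filter.1 (mem_coe.1 hp)).1

lemma pr_not_good1 (r0 r1 : ℕ) (η : ℝ) (h0 : 0 < η) (h1 : η ≤ 1 / 2)
    (hr : 2 * (r0 : ℝ) ≤ η * r1) (hn : 2 ≤ Fintype.card V)
    (hbig : 6 * Real.log (Fintype.card V) ≤ η ^ 2 * r0 / 16) :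
    pr (fun ω : Sym2 V → Bool => ¬ Good1 r0 r1 η ω) ≤
      3 * ((Fintype.card V : ℝ) ^ (4 * r1))⁻¹ := by
  set n := Fintype.card V with hnn
  have hn0 : (0 : ℝ) < n := by positivity
  -- the union bound
  let I : Finset (Σ _ : Finset V, Finset V) :=
    (univ.filter fun D : Finset V => r1 ≤ D.card).sigma fun D => powersetCard r0 D
  have hstep1 : pr (fun ω : Sym2 V → Bool => ¬ Good1 r0 r1 η ω) ≤
      pr (fun ω : Sym2 V → Bool => ∃ i ∈ I,
        (1 / 2 + η / 2) * ((btw i.2 (i.1 \ i.2)).card : ℝ) ≤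
          (((btw i.2 (i.1 \ i.2)).filter fun e => ω e = true).card : ℝ)) := by
    apply pr_mono
    intro ω hω
    unfold Good1 at hω
    push Not at hω
    obtain ⟨D, hD, hcard⟩ := hω
    obtain ⟨R, hRsub, hRcard⟩ := exists_subset_card_eq hcard
    have hRD : R ⊆ D := hRsub.trans (filter_subset _ _)
    refine ⟨⟨D, R⟩, ?_, ?_⟩
    · simp only [I, mem_sigma, mem_filter, mem_univ, true_and, mem_powersetCard]
      exact ⟨hD, hRD, hRcard⟩
    · simp only
      rw [card_btw disjoint_sdiff, card_btw_filter disjoint_sdiff, card_sdiff_of_subset hRD, hRcard]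
      push_cast
      have hle : ∀ v ∈ R, (1 / 2 + η / 2) * (D.card : ℝ) ≤ ((nbr ω v (D \ R)).card : ℝ) := by
        intro v hv
        have hv' := (mem_filter.1 (hRsub hv)).2
        have h3 : (nbr ω v D).card ≤ (nbr ω v (D \ R)).card + R.card := by
          have : nbr ω v D ⊆ nbr ω v (D \ R) ∪ R := by
            intro w hw
            simp only [nbr, mem_filter, mem_union, mem_sdiff] at hw ⊢
            by_cases hwR : w ∈ R
            · exact Or.inr hwR
            · exact Or.inl ⟨⟨hw.1, hwR⟩, hw.2⟩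
          exact (card_le_card this).trans (card_union_le _ _)
        have h3' : ((nbr ω v D).card : ℝ) ≤ ((nbr ω v (D \ R)).card : ℝ) + r0 := by
          rw [← hRcard]; exact_mod_cast h3
        have h4 : (r1 : ℝ) ≤ D.card := by exact_mod_cast hD
        nlinarith
      have hsum : (r0 : ℝ) * ((1 / 2 + η / 2) * (D.card : ℝ)) ≤
          ∑ v ∈ R, ((nbr ω v (D \ R)).card : ℝ) := by
        rw [← hRcard, ← nsmul_eq_mul]
        exact card_nsmul_le_sum _ _ _ hle
      refine le_trans ?_ hsum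
      have h5 : ((D.card - r0 : ℕ) : ℝ) ≤ D.card := by exact_mod_cast Nat.sub_le _ _
      have h6 : (0 : ℝ) ≤ r0 := by positivity
      have h7 : (0:ℝ) ≤ 1 / 2 + η / 2 := by linarith
      calc (1 / 2 + η / 2) * ((r0 : ℝ) * ((D.card - r0 : ℕ) : ℝ))
          ≤ (1 / 2 + η / 2) * ((r0 : ℝ) * D.card) := by gcongr
        _ = (r0 : ℝ) * ((1 / 2 + η / 2) * (D.card : ℝ)) := by ring
  refine hstep1.trans ((pr_exists_le I _).trans ?_)
  -- each term
  have hterm : ∀ i ∈ I, pr (fun ω : Sym2 V → Bool =>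
        (1 / 2 + η / 2) * ((btw i.2 (i.1 \ i.2)).card : ℝ) ≤
          (((btw i.2 (i.1 \ i.2)).filter fun e => ω e = true).card : ℝ)) ≤
      ((n : ℝ) ^ (6 * i.1.card))⁻¹ := by
    rintro ⟨D, R⟩ hi
    simp only [I, mem_sigma, mem_filter, mem_univ, true_and, mem_powersetCard] at hi
    obtain ⟨hD, hRD, hRcard⟩ := hi
    refine (pr_tail (btw R (D \ R)) true (η / 2) (by linarith) (by linarith)).trans ?_
    simp only
    rw [card_btw disjoint_sdiff, card_sdiff_of_subset hRD, hRcard]
    have hlogn : 0 ≤ Real.log n := Real.log_natCast_nonneg n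
    have h4 : (r1 : ℝ) ≤ D.card := by exact_mod_cast hD
    have hr0D : r0 ≤ D.card := by rw [← hRcard]; exact card_le_card hRD
    have h5 : (D.card : ℝ) / 2 ≤ ((D.card - r0 : ℕ) : ℝ) := by
      rw [Nat.cast_sub hr0D]
      nlinarith
    have h6 : ((n : ℝ) ^ (6 * D.card))⁻¹ = Real.exp (-(6 * Real.log n * D.card)) := by
      rw [← Real.rpow_natCast, ← Real.rpow_neg hn0.le, Real.rpow_def_of_pos hn0]
      congr 1
      push_cast
      ring
    rw [h6]
    apply Real.exp_le_exp.2
    push_cast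
    have h7 : (0:ℝ) ≤ D.card := by positivity
    have h8 : (0:ℝ) ≤ r0 := by positivity
    have h9 : (0:ℝ) ≤ η ^ 2 * r0 := by positivity
    nlinarith [mul_le_mul_of_nonneg_right hbig h7, mul_le_mul_of_nonneg_left h5 h9]
  refine (sum_le_sum hterm).trans ?_
  rw [sum_sigma]
  simp only [sum_const, card_powersetCard, nsmul_eq_mul]
  have hD : ∀ D ∈ (univ.filter fun D : Finset V => r1 ≤ D.card),
      (D.card.choose r0 : ℝ) * ((n : ℝ) ^ (6 * D.card))⁻¹ ≤
        ((n : ℝ) ^ (4 * r1))⁻¹ * ((n : ℝ)⁻¹) ^ D.card := by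
    intro D hD
    simp only [mem_filter, mem_univ, true_and] at hD
    by_cases hr0 : r0 ≤ D.card
    · have hDn : D.card ≤ n := by rw [hnn]; exact card_le_univ D
      have h1 : (D.card.choose r0 : ℝ) ≤ (n : ℝ) ^ D.card := by
        have h2 : D.card.choose r0 ≤ D.card ^ r0 := Nat.choose_le_pow _ _
        have h3 : D.card ^ r0 ≤ n ^ D.card := by
          calc D.card ^ r0 ≤ n ^ r0 := Nat.pow_le_pow_left hDn _
            _ ≤ n ^ D.card := Nat.pow_le_pow_right (by omega) hr0
        exact_mod_cast h2.trans h3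
      have hn1 : (1 : ℝ) ≤ n := by exact_mod_cast (by omega : 1 ≤ n)
      calc (D.card.choose r0 : ℝ) * ((n : ℝ) ^ (6 * D.card))⁻¹
          ≤ (n : ℝ) ^ D.card * ((n : ℝ) ^ (6 * D.card))⁻¹ := by gcongr
        _ = ((n : ℝ) ^ (4 * D.card))⁻¹ * ((n : ℝ)⁻¹) ^ D.card := by
            rw [inv_pow, ← mul_inv, ← pow_add, ← div_eq_mul_inv, div_eq_iff (by positivity),
              inv_mul_eq_div, eq_div_iff (by positivity), ← pow_add]
            congr 1
            omega
        _ ≤ ((n : ℝ) ^ (4 * r1))⁻¹ * ((n : ℝ)⁻¹) ^ D.card := by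
            gcongr
    · rw [Nat.choose_eq_zero_of_lt (by omega)]
      simp only [Nat.cast_zero, zero_mul]
      positivity
  refine (sum_le_sum hD).trans ?_
  rw [← mul_sum]
  have hall : ∑ D ∈ (univ.filter fun D : Finset V => r1 ≤ D.card), ((n : ℝ)⁻¹) ^ D.card ≤ 3 := by
    have h1 : ∑ D ∈ (univ.filter fun D : Finset V => r1 ≤ D.card), ((n : ℝ)⁻¹) ^ D.card ≤
        ∑ D ∈ (univ : Finset V).powerset, ((n : ℝ)⁻¹) ^ D.card := by
      refine sum_le_sum_of_subset_of_nonneg ?_ fun _ _ _ => by positivity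
      intro D _
      simp
    refine h1.trans ?_
    have h2 := Finset.sum_pow_mul_eq_add_pow ((n : ℝ)⁻¹) 1 (univ : Finset V)
    simp only [one_pow, mul_one] at h2
    rw [h2, card_univ, ← hnn]
    have h3 : ((n : ℝ)⁻¹ + 1) ^ n ≤ Real.exp 1 := by
      have h4 : (n : ℝ)⁻¹ + 1 ≤ Real.exp ((n : ℝ)⁻¹) := Real.add_one_le_exp _
      calc ((n : ℝ)⁻¹ + 1) ^ n ≤ (Real.exp ((n : ℝ)⁻¹)) ^ n := by gcongr
        _ = Real.exp 1 := by
            rw [← Real.exp_nat_mul, mul_inv_cancel₀ hn0.ne']
    exact h3.trans (le_of_lt Real.exp_one_lt_three)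
  calc ((n : ℝ) ^ (4 * r1))⁻¹ * ∑ D ∈ (univ.filter fun D : Finset V => r1 ≤ D.card),
        ((n : ℝ)⁻¹) ^ D.card ≤ ((n : ℝ) ^ (4 * r1))⁻¹ * 3 := by gcongr
    _ = 3 * ((n : ℝ) ^ (4 * r1))⁻¹ := by ring

lemma pr_not_good2 (s r2 : ℕ) :
    pr (fun ω : Sym2 V → Bool => ¬ Good2 s r2 ω) ≤
      (Fintype.card V : ℝ) ^ (s + r2) * (1 / 2) ^ (s * r2) := by
  set n := Fintype.card V with hnn
  let I : Finset (Finset V × Finset V) :=
    ((powersetCard s univ) ×ˢ (powersetCard r2 univ)).filter fun p => Disjoint p.1 p.2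
  have hstep1 : pr (fun ω : Sym2 V → Bool => ¬ Good2 s r2 ω) ≤
      pr (fun ω : Sym2 V → Bool => ∃ i ∈ I, ∀ e ∈ btw i.1 i.2, ω e = true) := by
    apply pr_mono
    intro ω hω
    unfold Good2 at hω
    push Not at hω
    obtain ⟨S, hS, hcard⟩ := hω
    obtain ⟨W, hWsub, hWcard⟩ := exists_subset_card_eq hcard
    refine ⟨(S, W), ?_, ?_⟩
    · simp only [I, mem_filter, mem_product, mem_powersetCard, subset_univ, true_and]
      refine ⟨⟨hS, hWcard⟩, ?_⟩
      rw [disjoint_right]
      intro w hw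
      exact (mem_filter.1 (hWsub hw)).2.1
    · intro e he
      simp only [btw, mem_image, mem_product] at he
      obtain ⟨⟨v, w⟩, ⟨hv, hw⟩, rfl⟩ := he
      exact (mem_filter.1 (hWsub hw)).2.2 v hv
  refine hstep1.trans ((pr_exists_le I _).trans ?_)
  have hterm : ∀ i ∈ I, pr (fun ω : Sym2 V → Bool => ∀ e ∈ btw i.1 i.2, ω e = true) =
      (1 / 2) ^ (s * r2) := by
    rintro ⟨S, W⟩ hi
    simp only [I, mem_filter, mem_product, mem_powersetCard, subset_univ, true_and] at hi
    have := pr_fixed (btw S W) (fun _ => true)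
    rw [card_btw hi.2, hi.1.1, hi.1.2] at this
    exact this
  rw [sum_congr rfl hterm, sum_const, nsmul_eq_mul]
  gcongr
  have h1 : I.card ≤ n ^ (s + r2) := by
    refine (card_filter_le _ _).trans ?_
    rw [card_product, card_powersetCard, card_powersetCard, card_univ, pow_add]
    exact Nat.mul_le_mul (Nat.choose_le_pow _ _) (Nat.choose_le_pow _ _)
  exact_mod_cast h1

/-- the bounding function -/
noncomputable def Phi (lam x : ℝ) : ℝ := Real.exp ((Real.log x) ^ 2 / (2 * lam))

lemma Phi_mono {lam x y : ℝ} (hl : 0 < lam) (hx : 1 ≤ x) (hxy : x ≤ y) : Phi lam x ≤ Phi lam y := by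
  unfold Phi
  apply Real.exp_le_exp.2
  have h1 : 0 ≤ Real.log x := Real.log_nonneg hx
  have h2 : Real.log x ≤ Real.log y := Real.log_le_log (by linarith) hxy
  gcongr

lemma one_le_Phi {lam x : ℝ} (hl : 0 < lam) : 1 ≤ Phi lam x := by
  unfold Phi
  apply Real.one_le_exp
  positivity

lemma Phi_half {η x : ℝ} (h0 : 0 < η) (h1 : η < 1 / 2) (hx : 0 < x) :
    x * Phi (-Real.log (1 / 2 + η)) ((1 / 2 + η) * x) ≤
      2 * Phi (-Real.log (1 / 2 + η)) x := by
  set lam := -Real.log (1 / 2 + η) with hlam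
  have hlpos : 0 < lam := by
    rw [hlam, neg_pos]
    exact Real.log_neg (by linarith) (by linarith)
  unfold Phi
  rw [Real.log_mul (by linarith) hx.ne']
  have h2 : Real.log (1 / 2 + η) = -lam := by rw [hlam]; ring
  rw [h2]
  have h3 : (-lam + Real.log x) ^ 2 / (2 * lam) =
      (Real.log x) ^ 2 / (2 * lam) + (lam / 2 - Real.log x) := by
    field_simp
    ring
  rw [h3, Real.exp_add, Real.exp_sub, Real.exp_log hx]
  have h4 : Real.exp (lam / 2) ≤ 2 := by
    have h5 : lam ≤ Real.log 2 := by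
      rw [hlam, ← Real.log_inv]
      apply Real.log_le_log (by positivity)
      rw [inv_le_comm₀ (by linarith) (by norm_num)]
      linarith
    calc Real.exp (lam / 2) ≤ Real.exp (Real.log 2) := by
          apply Real.exp_le_exp.2
          have : 0 < Real.log 2 := Real.log_pos (by norm_num)
          linarith
      _ = 2 := Real.exp_log (by norm_num)
  have h6 : 0 < Real.exp ((Real.log x) ^ 2 / (2 * lam)) := Real.exp_pos _
  calc x * (Real.exp ((Real.log x) ^ 2 / (2 * lam)) * (Real.exp (lam / 2) / x))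
      = Real.exp (lam / 2) * Real.exp ((Real.log x) ^ 2 / (2 * lam)) := by
        field_simp
    _ ≤ 2 * Real.exp ((Real.log x) ^ 2 / (2 * lam)) := by gcongr

/-- the number of cliques in an arbitrary set -/
lemma cc_le {r0 r1 : ℕ} {η : ℝ} (h0 : 0 < η) (h1 : η < 1 / 2) (hr : r0 ≤ r1) (hr1 : 2 ≤ r1)
    {ω : Sym2 V → Bool} (hω : Good1 r0 r1 η ω) (i : ℕ) :
    ∀ D : Finset V, (cc ω i D : ℝ) ≤
      ((r1 : ℝ) + 2) ^ i * Phi (-Real.log (1 / 2 + η)) (max 1 (D.card : ℝ)) := by
  set lam := -Real.log (1 / 2 + η) with hlam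
  have hlpos : 0 < lam := by
    rw [hlam, neg_pos]
    exact Real.log_neg (by linarith) (by linarith)
  induction i with
  | zero =>
    intro D
    simp only [cc, Nat.cast_one, pow_zero, one_mul]
    exact one_le_Phi hlpos
  | succ i ih =>
    intro D
    set A : ℝ := (r1 : ℝ) + 2 with hA
    have hA0 : 0 < A := by positivity
    have hsub : ∀ v ∈ D, (cc ω i (nbr ω v D) : ℝ) ≤ A ^ i * Phi lam (max 1 (D.card : ℝ)) := by
      intro v _
      refine (ih _).trans ?_
      gcongr
      refine Phi_mono hlpos (le_max_left _ _) ?_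
      refine max_le_max le_rfl ?_
      exact_mod_cast card_le_card (nbr_subset ω v D)
    have hPpos : 0 < Phi lam (max 1 (D.card : ℝ)) := lt_of_lt_of_le one_pos (one_le_Phi hlpos)
    simp only [cc]
    push_cast
    by_cases hD : r1 ≤ D.card
    · -- large `D`
      rw [← Finset.sum_filter_add_sum_filter_not D
        (fun v => (1 / 2 + η) * (D.card : ℝ) ≤ ((nbr ω v D).card : ℝ))]
      have hDpos : (2 : ℝ) ≤ D.card := by exact_mod_cast hr1.trans hD
      have hpop : ∑ v ∈ D.filter (fun v => (1 / 2 + η) * (D.card : ℝ) ≤ ((nbr ω v D).card : ℝ)),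
          (cc ω i (nbr ω v D) : ℝ) ≤ r1 * (A ^ i * Phi lam (max 1 (D.card : ℝ))) := by
        refine (sum_le_card_nsmul _ _ _ fun v hv => hsub v (mem_filter.1 hv).1).trans ?_
        rw [nsmul_eq_mul]
        have h2 := hω D hD
        have h3 : ((D.filter fun v => (1 / 2 + η) * (D.card : ℝ) ≤
            ((nbr ω v D).card : ℝ)).card : ℝ) ≤ r1 := by
          exact_mod_cast (h2.le.trans hr)
        gcongr
      have hunpop : ∑ v ∈ D.filter (fun v => ¬ (1 / 2 + η) * (D.card : ℝ) ≤
          ((nbr ω v D).card : ℝ)), (cc ω i (nbr ω v D) : ℝ) ≤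
          2 * (A ^ i * Phi lam (max 1 (D.card : ℝ))) := by
        have hmax : max 1 (D.card : ℝ) = D.card := max_eq_right (by linarith)
        have hbound : ∀ v ∈ D.filter (fun v => ¬ (1 / 2 + η) * (D.card : ℝ) ≤
            ((nbr ω v D).card : ℝ)), (cc ω i (nbr ω v D) : ℝ) ≤
            A ^ i * Phi lam ((1 / 2 + η) * D.card) := by
          intro v hv
          have hv2 := (mem_filter.1 hv).2
          push Not at hv2
          refine (ih _).trans ?_
          gcongr
          refine Phi_mono hlpos (le_max_left _ _) (max_le ?_ hv2.le)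
          nlinarith
        refine (sum_le_card_nsmul _ _ _ hbound).trans ?_
        rw [nsmul_eq_mul]
        have h4 : ((D.filter fun v => ¬ (1 / 2 + η) * (D.card : ℝ) ≤
            ((nbr ω v D).card : ℝ)).card : ℝ) ≤ D.card := by
          exact_mod_cast card_filter_le _ _
        have h5 := Phi_half (η := η) (x := D.card) h0 h1 (by linarith)
        rw [← hlam] at h5
        have h6 : 0 ≤ Phi lam ((1 / 2 + η) * D.card) := (Real.exp_pos _).le
        rw [hmax]
        calc ((D.filter fun v => ¬ (1 / 2 + η) * (D.card : ℝ) ≤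
              ((nbr ω v D).card : ℝ)).card : ℝ) * (A ^ i * Phi lam ((1 / 2 + η) * D.card))
            ≤ D.card * (A ^ i * Phi lam ((1 / 2 + η) * D.card)) := by gcongr
          _ = A ^ i * (D.card * Phi lam ((1 / 2 + η) * D.card)) := by ring
          _ ≤ A ^ i * (2 * Phi lam D.card) := by gcongr
          _ = 2 * (A ^ i * Phi lam D.card) := by ring
      calc _ ≤ r1 * (A ^ i * Phi lam (max 1 (D.card : ℝ))) +
            2 * (A ^ i * Phi lam (max 1 (D.card : ℝ))) := add_le_add hpop hunpop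
        _ = A ^ (i + 1) * Phi lam (max 1 (D.card : ℝ)) := by rw [hA]; ring
    · push Not at hD
      refine (sum_le_card_nsmul _ _ _ hsub).trans ?_
      rw [nsmul_eq_mul]
      have h3 : (D.card : ℝ) ≤ A := by
        have : (D.card : ℝ) ≤ r1 := by exact_mod_cast hD.le
        rw [hA]; linarith
      calc (D.card : ℝ) * (A ^ i * Phi lam (max 1 (D.card : ℝ)))
          ≤ A * (A ^ i * Phi lam (max 1 (D.card : ℝ))) := by gcongr
        _ = A ^ (i + 1) * Phi lam (max 1 (D.card : ℝ)) := by ring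

/-- the number of unordered cliques -/
lemma card_cliques_le (ω : Sym2 V → Bool) (i : ℕ) :
    ∀ D : Finset V, ((powersetCard i D).filter fun S => IsCl ω S).card ≤ cc ω i D := by
  induction i with
  | zero =>
    intro D
    simp only [powersetCard_zero, cc]
    exact (card_filter_le _ _).trans (by simp)
  | succ i ih =>
    intro D
    have hsub : ((powersetCard (i + 1) D).filter fun S => IsCl ω S) ⊆
        D.biUnion fun v => ((powersetCard i (nbr ω v D)).filter fun S => IsCl ω S).image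
          (insert v) := by
      intro S hS
      simp only [mem_filter, mem_powersetCard] at hS
      obtain ⟨⟨hSD, hScard⟩, hcl⟩ := hS
      have hne : S.Nonempty := by
        rw [← card_pos, hScard]; omega
      obtain ⟨v, hv⟩ := hne
      simp only [mem_biUnion, mem_image, mem_filter, mem_powersetCard]
      refine ⟨v, hSD hv, S.erase v, ⟨⟨?_, ?_⟩, ?_⟩, insert_erase hv⟩
      · intro w hw
        rw [mem_erase] at hw
        simp only [nbr, mem_filter]
        exact ⟨hSD hw.2, hw.1, hcl v hv w hw.2 (Ne.symm hw.1)⟩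
      · rw [card_erase_of_mem hv, hScard]; rfl
      · intro a ha b hb hab
        exact hcl a (mem_of_mem_erase ha) b (mem_of_mem_erase hb) hab
    refine (card_le_card hsub).trans (card_biUnion_le.trans ?_)
    simp only [cc]
    exact sum_le_sum fun v _ => card_image_le.trans (ih _)

end Pool.Agent.CliqueQuery
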