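import Pool.Agent.CliqueQuery.Static

/-!
# The adaptive part of the upper bound
-/

namespace Pool.Agent.CliqueQuery

open Finset Classical

set_option linter.unusedSectionVars false

variable {V : Type} [Fintype V]

/-- the neighbours of `v` among the pairs in the list `l` -/
noncomputable def nbl (l : List (Sym2 V)) (v : V) : Finset V :=
  univ.filter fun w => s(v, w) ∈ l

/-- The active vertices after the queries in the list `l`: the roots, the vertices of degree at
least `Δ`, and those that were queried with a root that had degree at most `Δ`. -/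
noncomputable def Act (R : Finset V) (Δ : ℕ) (l : List (Sym2 V)) : Finset V :=
  univ.filter fun x => x ∈ R ∨ Δ ≤ (nbl l x).card ∨
    ∃ r ∈ R, ∃ i, s(r, x) ∈ l.take i ∧ (nbl (l.take i) r).card ≤ Δ

lemma nbl_mono {l l' : List (Sym2 V)} (h : ∀ e ∈ l, e ∈ l') (v : V) : nbl l v ⊆ nbl l' v := by
  intro w hw
  simp only [nbl, mem_filter, mem_univ, true_and] at hw ⊢
  exact h _ hw

lemma Act_mono (R : Finset V) (Δ : ℕ) (l : List (Sym2 V)) {i j : ℕ} (hij : i ≤ j) :
    Act R Δ (l.take i) ⊆ Act R Δ (l.take j) := by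
  intro x hx
  simp only [Act, mem_filter, mem_univ, true_and] at hx ⊢
  rcases hx with hx | hx | ⟨r, hr, i', h1, h2⟩
  · exact Or.inl hx
  · refine Or.inr (Or.inl (hx.trans (card_le_card (nbl_mono ?_ x))))
    intro e he
    exact (List.take_subset_take_left l hij) he
  · refine Or.inr (Or.inr ⟨r, hr, min i' i, ?_, ?_⟩)
    · rw [List.take_take] at h1 ⊢
      rwa [min_eq_left ((min_le_right _ _).trans hij)]
    · rw [List.take_take] at h2 ⊢
      rwa [min_eq_left ((min_le_right _ _).trans hij)]

lemma Act_mono' (R : Finset V) (Δ : ℕ) (l : List (Sym2 V)) (i : ℕ) :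
    Act R Δ (l.take i) ⊆ Act R Δ l := by
  have h := Act_mono R Δ l (le_max_left i l.length)
  rwa [List.take_of_length_le (le_max_right _ _)] at h

lemma mem_Act_of_root {R : Finset V} {Δ : ℕ} {l : List (Sym2 V)} {r x : V} (hr : r ∈ R)
    {i j : ℕ} (hij : i ≤ j) (h1 : s(r, x) ∈ l.take i) (h2 : (nbl (l.take i) r).card ≤ Δ) :
    x ∈ Act R Δ (l.take j) := by
  apply Act_mono R Δ l hij
  simp only [Act, mem_filter, mem_univ, true_and]
  refine Or.inr (Or.inr ⟨r, hr, i, ?_, ?_⟩)
  · rwa [List.take_take, min_self]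
  · rwa [List.take_take, min_self]

/-- the total degree -/
lemma sum_card_nbl_le (l : List (Sym2 V)) : ∑ v, (nbl l v).card ≤ 2 * l.toFinset.card := by
  have h1 : ∑ v, (nbl l v).card = ((univ : Finset (V × V)).filter fun p => s(p.1, p.2) ∈ l).card := by
    rw [card_filter, ← univ_product_univ, sum_product]
    refine sum_congr rfl fun v _ => ?_
    rw [nbl, card_filter]
  rw [h1]
  have h2 := Finset.card_le_mul_card_image_of_maps_to
    (f := fun p : V × V => s(p.1, p.2)) (s := (univ : Finset (V × V)).filter fun p => s(p.1, p.2) ∈ l)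
    (t := l.toFinset) (by
      intro p hp
      simpa using (mem_filter.1 hp).2) 2 (by
      intro e _
      induction e using Sym2.ind with
      | _ a b =>
        have hsub : (((univ : Finset (V × V)).filter fun p => s(p.1, p.2) ∈ l).filter
            fun p => s(p.1, p.2) = s(a, b)) ⊆ {(a, b), (b, a)} := by
          rintro ⟨c, d⟩ hcd
          simp only [mem_filter, mem_univ, true_and, Sym2.eq_iff] at hcd
          simp only [mem_insert, mem_singleton, Prod.mk.injEq]
          exact hcd.2
        exact (card_le_card hsub).trans card_le_two)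
  exact h2

lemma card_Act_le (R : Finset V) (Δ : ℕ) (l : List (Sym2 V)) :
    ∃ H : ℕ, (Act R Δ l).card ≤ R.card + H + R.card * Δ ∧ H * Δ ≤ 2 * l.toFinset.card := by
  refine ⟨(univ.filter fun x => Δ ≤ (nbl l x).card).card, ?_, ?_⟩
  · have hsub : Act R Δ l ⊆ (R ∪ univ.filter fun x => Δ ≤ (nbl l x).card) ∪
        R.biUnion fun r => univ.filter fun x =>
          ∃ i, s(r, x) ∈ l.take i ∧ (nbl (l.take i) r).card ≤ Δ := by
      intro x hx
      simp only [Act, mem_filter, mem_univ, true_and] at hx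
      simp only [mem_union, mem_biUnion, mem_filter, mem_univ, true_and]
      rcases hx with hx | hx | hx
      · exact Or.inl (Or.inl hx)
      · exact Or.inl (Or.inr hx)
      · exact Or.inr hx
    refine (card_le_card hsub).trans ((card_union_le _ _).trans ?_)
    refine add_le_add (card_union_le _ _) ?_
    refine card_biUnion_le_card_mul _ _ _ fun r _ => ?_
    -- the vertices queried with `r` while `r` has small degree
    by_cases hne : (univ.filter fun x => ∃ i, s(r, x) ∈ l.take i ∧
        (nbl (l.take i) r).card ≤ Δ).Nonempty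
    · -- the largest `i ≤ length` with small degree
      let I : Finset ℕ := (range (l.length + 1)).filter fun i => (nbl (l.take i) r).card ≤ Δ
      have hI : I.Nonempty := by
        obtain ⟨x, hx⟩ := hne
        simp only [mem_filter, mem_univ, true_and] at hx
        obtain ⟨i, _, hi⟩ := hx
        refine ⟨min i l.length, ?_⟩
        simp only [I, mem_filter, mem_range]
        refine ⟨by omega, ?_⟩
        rcases le_total i l.length with h | h
        · rwa [min_eq_left h]
        · rw [min_eq_right h, List.take_length]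
          rwa [List.take_of_length_le h] at hi
      have hmax := I.max'_mem hI
      set i0 := I.max' hI with hi0
      simp only [I, mem_filter, mem_range] at hmax
      refine le_trans (card_le_card ?_) hmax.2
      intro x hx
      simp only [mem_filter, mem_univ, true_and] at hx
      obtain ⟨i, h1, h2⟩ := hx
      simp only [nbl, mem_filter, mem_univ, true_and]
      have hmem : min i l.length ∈ I := by
        simp only [I, mem_filter, mem_range]
        refine ⟨by omega, ?_⟩
        rcases le_total i l.length with h | h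
        · rwa [min_eq_left h]
        · rw [min_eq_right h, List.take_length]
          rwa [List.take_of_length_le h] at h2
      have hle : min i l.length ≤ i0 := I.le_max' _ hmem
      apply List.take_subset_take_left l hle
      rcases le_total i l.length with h | h
      · rwa [min_eq_left h]
      · rw [min_eq_right h, List.take_length]
        exact List.mem_of_mem_take h1
    · rw [not_nonempty_iff_eq_empty] at hne
      rw [hne]; simp
  · calc (univ.filter fun x => Δ ≤ (nbl l x).card).card * Δ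
        = ∑ _x ∈ univ.filter fun x => Δ ≤ (nbl l x).card, Δ := by rw [sum_const, smul_eq_mul]
      _ ≤ ∑ x ∈ univ.filter fun x => Δ ≤ (nbl l x).card, (nbl l x).card :=
          sum_le_sum fun x hx => (mem_filter.1 hx).2
      _ ≤ ∑ x, (nbl l x).card := sum_le_sum_of_subset (filter_subset _ _)
      _ ≤ 2 * l.toFinset.card := sum_card_nbl_le l

/-! ### Combinatorial lemmas -/

lemma exists_initial {α : Type} (W : Finset α) (t : α → ℕ)
    (ht : Set.InjOn t (W : Set α)) (g : ℕ) (hg : g ≤ W.card) :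
    ∃ Z ⊆ W, Z.card = g ∧ ∀ z ∈ Z, ∀ w ∈ W, w ∉ Z → t z < t w := by
  induction g with
  | zero => exact ⟨∅, empty_subset _, rfl, by simp⟩
  | succ g ih =>
    obtain ⟨Z, hZW, hZg, hZ⟩ := ih (by omega)
    have hne : (W \ Z).Nonempty := by
      rw [← card_pos, card_sdiff_of_subset hZW]
      omega
    obtain ⟨w0, hw0, hmin⟩ := exists_min_image (W \ Z) t hne
    rw [mem_sdiff] at hw0
    refine ⟨insert w0 Z, insert_subset hw0.1 hZW, by rw [card_insert_of_notMem hw0.2, hZg], ?_⟩
    intro z hz w hw hwZ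
    rw [mem_insert, not_or] at hwZ
    rcases mem_insert.1 hz with rfl | hz
    · have h1 := hmin w (mem_sdiff.2 ⟨hw, hwZ.2⟩)
      refine lt_of_le_of_ne h1 fun h => hwZ.1 ?_
      exact (ht hw0.1 hw h).symm
    · exact hZ z hz w hw hwZ.2

/-- a hitting set -/
lemma exists_hitting {α ι : Type} (K : Finset α) (X : Finset ι) (Z : ι → Finset α) (g r : ℕ)
    (hZ : ∀ x ∈ X, Z x ⊆ K) (hZg : ∀ x ∈ X, (Z x).card = g)
    (hr : X.card * (K.card - g) ^ r < K.card ^ r) :
    ∃ ρ : Fin r → α, (∀ i, ρ i ∈ K) ∧ ∀ x ∈ X, ∃ i, ρ i ∈ Z x := by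
  have h1 : (Fintype.piFinset fun _ : Fin r => K).card = K.card ^ r := by
    rw [Fintype.card_piFinset]; simp
  have h2 : (X.biUnion fun x => Fintype.piFinset fun _ : Fin r => K \ Z x).card ≤
      X.card * (K.card - g) ^ r := by
    refine card_biUnion_le_card_mul _ _ _ fun x hx => ?_
    rw [Fintype.card_piFinset]
    simp only [prod_const, card_univ, Fintype.card_fin]
    rw [card_sdiff_of_subset (hZ x hx), hZg x hx]
  have h3 : ∃ ρ ∈ (Fintype.piFinset fun _ : Fin r => K),
      ρ ∉ X.biUnion fun x => Fintype.piFinset fun _ : Fin r => K \ Z x := by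
    by_contra hcon
    push Not at hcon
    have : (Fintype.piFinset fun _ : Fin r => K) ⊆
      X.biUnion fun x => Fintype.piFinset fun _ : Fin r => K \ Z x := hcon
    have := card_le_card this
    omega
  obtain ⟨ρ, hρ, hρ2⟩ := h3
  refine ⟨ρ, fun i => Fintype.mem_piFinset.1 hρ i, fun x hx => ?_⟩
  by_contra hcon
  push Not at hcon
  apply hρ2
  rw [mem_biUnion]
  refine ⟨x, hx, Fintype.mem_piFinset.2 fun i => mem_sdiff.2 ⟨Fintype.mem_piFinset.1 hρ i, hcon i⟩⟩

/-- the pairs inside `F` -/
noncomputable def prs (F : Finset V) : Finset (Sym2 V) := F.offDiag.image Sym2.mk.uncurry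

lemma card_prs (F : Finset V) : (prs F).card = F.card.choose 2 := Sym2.card_image_offDiag F

lemma mem_prs {F : Finset V} {e : Sym2 V} :
    e ∈ prs F ↔ ∃ u ∈ F, ∃ v ∈ F, u ≠ v ∧ s(u, v) = e := by
  simp only [prs, mem_image, mem_offDiag, Prod.exists, Function.uncurry_apply_pair]
  constructor
  · rintro ⟨u, v, ⟨hu, hv, huv⟩, rfl⟩
    exact ⟨u, hu, v, hv, huv, rfl⟩
  · rintro ⟨u, hu, v, hv, huv, rfl⟩
    exact ⟨u, v, ⟨hu, hv, huv⟩, rfl⟩

/-! ### The structure of a clique found by the algorithm -/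

/-- Let all pairs of `K` be in the list `l`. Then there are few roots in `K` such that the first
`s` active vertices `S` of `K` appear when few pairs in the remaining part `F` have been queried. -/
theorem exists_structure (l : List (Sym2 V)) (K : Finset V) (Δ s f g r : ℕ)
    (hK : K.card = s + f) (hl : ∀ u ∈ K, ∀ v ∈ K, u ≠ v → s(u, v) ∈ l) (hg1 : 1 ≤ g) (hgf : g ≤ f)
    (hr : (s + f) * ((s + f) - g) ^ r < (s + f) ^ r) :
    ∃ (ρ : Fin r → V) (S F : Finset V), S.card = s ∧ F.card = f ∧ S ⊆ K ∧ F ⊆ K ∧ Disjoint S F ∧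
      ∃ j, S ⊆ Act (univ.image ρ) Δ (l.take j) ∧
        ((prs F).filter fun e => e ∈ l.take j).card ≤ f * g + 1 := by
  -- time of a pair
  let t : Sym2 V → ℕ := fun e => l.idxOf e + 1
  have ht_mem : ∀ e ∈ l, ∀ j, e ∈ l.take j ↔ t e ≤ j := by
    intro e he j
    rw [List.mem_take_iff_idxOf_lt he]
    exact Iff.rfl
  have ht_inj : ∀ e ∈ l, ∀ e' ∈ l, t e = t e' → e = e' := by
    intro e he e' he' h
    have h' : l.idxOf e = l.idxOf e' := by simpa [t] using h
    exact (List.idxOf_inj he).1 h'
  -- the neighbours that have small degree when queried with `x`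
  let W : V → Finset V := fun x =>
    (K.erase x).filter fun u => (nbl (l.take (t s(u, x))) u).card ≤ Δ
  have hWK : ∀ x, W x ⊆ K := fun x => (filter_subset _ _).trans (erase_subset _ _)
  have hWt : ∀ x ∈ K, Set.InjOn (fun u => t s(u, x)) (W x : Set V) := by
    intro x hx u hu v hv h
    have hu' := mem_erase.1 (mem_filter.1 (mem_coe.1 hu)).1
    have hv' := mem_erase.1 (mem_filter.1 (mem_coe.1 hv)).1
    have h1 := ht_inj _ (hl u hu'.2 x hx hu'.1) _ (hl v hv'.2 x hx hv'.1) h
    rw [Sym2.eq_iff] at h1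
    rcases h1 with ⟨h1, _⟩ | ⟨h1, _⟩
    · exact h1
    · exact absurd h1 hu'.1
  -- the first `g` elements of `W x`
  have hZex : ∀ x ∈ K, g ≤ (W x).card → ∃ Z ⊆ W x, Z.card = g ∧
      ∀ z ∈ Z, ∀ w ∈ W x, w ∉ Z → t s(z, x) < t s(w, x) :=
    fun x hx hg => exists_initial (W x) _ (hWt x hx) g hg
  let X : Finset V := K.filter fun x => g ≤ (W x).card
  have hZex' : ∀ x : V, ∃ Z : Finset V, x ∈ X → Z ⊆ W x ∧ Z.card = g ∧
      ∀ z ∈ Z, ∀ w ∈ W x, w ∉ Z → t s(z, x) < t s(w, x) := by
    intro x
    by_cases hx : x ∈ X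
    · obtain ⟨Z, h1, h2, h3⟩ := hZex x (mem_filter.1 hx).1 (mem_filter.1 hx).2
      exact ⟨Z, fun _ => ⟨h1, h2, h3⟩⟩
    · exact ⟨∅, fun h => absurd h hx⟩
  choose Z hZ using hZex'
  obtain ⟨ρ, hρK, hρZ⟩ := exists_hitting K X Z g r
    (fun x hx => (hZ x hx).1.trans (hWK x)) (fun x hx => (hZ x hx).2.1) (by
      rw [hK]
      refine lt_of_le_of_lt (Nat.mul_le_mul_right _ ?_) hr
      rw [← hK]
      exact card_filter_le _ _)
  set R : Finset V := univ.image ρ with hR
  -- partners of `x` queried while both are inactive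
  let Y : V → Finset V := fun x => (K.erase x).filter fun y =>
    x ∉ Act R Δ (l.take (t s(y, x))) ∧ y ∉ Act R Δ (l.take (t s(y, x)))
  have hY : ∀ x ∈ K, (Y x).card < g := by
    intro x hx
    have hYW : Y x ⊆ W x := by
      intro y hy
      simp only [Y, W, mem_filter] at hy ⊢
      refine ⟨hy.1, ?_⟩
      by_contra hcon
      push Not at hcon
      apply hy.2.2
      simp only [Act, mem_filter, mem_univ, true_and]
      exact Or.inr (Or.inl hcon.le)
    by_cases hgW : g ≤ (W x).card
    · have hxX : x ∈ X := mem_filter.2 ⟨hx, hgW⟩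
      obtain ⟨i, hi⟩ := hρZ x hxX
      have hri : ρ i ∈ R := mem_image_of_mem _ (mem_univ i)
      obtain ⟨hZW, hZg, hZt⟩ := hZ x hxX
      have hriW := hZW hi
      have hriK := mem_erase.1 (mem_filter.1 hriW).1
      have hsub : Y x ⊆ (Z x).erase (ρ i) := by
        intro y hy
        have hyW := hYW hy
        have hyK := mem_erase.1 (mem_filter.1 hy).1
        have hylt : t s(y, x) < t s(ρ i, x) := by
          by_contra hcon
          push Not at hcon
          apply (mem_filter.1 hy).2.1
          refine mem_Act_of_root hri hcon ?_ (mem_filter.1 hriW).2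
          exact (ht_mem _ (hl _ hriK.2 _ hx hriK.1) _).2 le_rfl
        rw [mem_erase]
        refine ⟨fun h => by rw [h] at hylt; exact lt_irrefl _ hylt, ?_⟩
        by_contra hcon
        exact absurd (hZt _ hi y hyW hcon) (not_lt.2 hylt.le)
      refine lt_of_le_of_lt (card_le_card hsub) ?_
      rw [card_erase_of_mem hi, hZg]
      omega
    · push Not at hgW
      exact lt_of_le_of_lt (card_le_card hYW) hgW
  -- at the end most of `K` is active
  have hend : s ≤ (K ∩ Act R Δ (l.take l.length)).card := by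
    have h1 : (K \ Act R Δ (l.take l.length)).card ≤ g := by
      by_cases hne : (K \ Act R Δ (l.take l.length)).Nonempty
      · obtain ⟨x, hx⟩ := hne
        have hx' := mem_sdiff.1 hx
        have hsub : (K \ Act R Δ (l.take l.length)).erase x ⊆ Y x := by
          intro y hy
          have hy' := mem_erase.1 hy
          have hy'' := mem_sdiff.1 hy'.2
          simp only [Y, mem_filter, mem_erase]
          have hle : t s(y, x) ≤ l.length := by
            have hmem := hl y hy''.1 x hx'.1 hy'.1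
            have := List.idxOf_lt_length_of_mem hmem
            exact this
          exact ⟨⟨hy'.1, hy''.1⟩, fun h => hx'.2 (Act_mono R Δ l hle h),
            fun h => hy''.2 (Act_mono R Δ l hle h)⟩
        have h2 := card_le_card hsub
        rw [card_erase_of_mem hx] at h2
        have h3 := hY x hx'.1
        omega
      · rw [not_nonempty_iff_eq_empty] at hne
        rw [hne]; simp
    have h2 := card_sdiff_add_card_inter K (Act R Δ (l.take l.length))
    omega
  -- the first time when `s` vertices are active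
  have hex : ∃ j, s ≤ (K ∩ Act R Δ (l.take j)).card := ⟨_, hend⟩
  set T := Nat.find hex with hT
  have hTs : s ≤ (K ∩ Act R Δ (l.take T)).card := Nat.find_spec hex
  rcases Nat.eq_zero_or_pos T with hT0 | hTpos
  · -- active from the start
    obtain ⟨S, hSsub, hScard⟩ := exists_subset_card_eq hTs
    have hSK : S ⊆ K := hSsub.trans inter_subset_left
    refine ⟨ρ, S, K \ S, hScard, ?_, hSK, sdiff_subset, disjoint_sdiff, T, ?_, ?_⟩
    · rw [card_sdiff_of_subset hSK, hK, hScard]; omega
    · exact hSsub.trans inter_subset_right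
    · rw [hT0]
      simp
  · have hlt : (K ∩ Act R Δ (l.take (T - 1))).card < s := by
      have := Nat.find_min hex (m := T - 1) (by omega)
      omega
    have hsub0 : K ∩ Act R Δ (l.take (T - 1)) ⊆ K ∩ Act R Δ (l.take T) :=
      inter_subset_inter_left (Act_mono R Δ l (by omega))
    obtain ⟨S, hS1, hS2, hScard⟩ := exists_subsuperset_card_eq hsub0 hlt.le hTs
    have hSK : S ⊆ K := hS2.trans inter_subset_left
    have hFcard : (K \ S).card = f := by
      rw [card_sdiff_of_subset hSK, hK, hScard]; omega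
    refine ⟨ρ, S, K \ S, hScard, hFcard, hSK, sdiff_subset, disjoint_sdiff, T,
      hS2.trans inter_subset_right, ?_⟩
    -- the pairs of `F` queried up to time `T`
    have hsub : ((prs (K \ S)).filter fun e => e ∈ l.take T) ⊆
        ((K \ S).biUnion fun x => (Y x).image fun y => s(y, x)) ∪
          ((prs (K \ S)).filter fun e => t e = T) := by
      intro e he
      rw [mem_filter, mem_prs] at he
      obtain ⟨⟨y, hy, x, hx, hyx, rfl⟩, hmem⟩ := he
      have hy' := mem_sdiff.1 hy
      have hx' := mem_sdiff.1 hx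
      have hl' := hl y hy'.1 x hx'.1 hyx
      have htle := (ht_mem _ hl' T).1 hmem
      rw [mem_union]
      rcases Nat.lt_or_ge (t s(y, x)) T with h | h
      · left
        rw [mem_biUnion]
        refine ⟨x, hx, mem_image.2 ⟨y, ?_, rfl⟩⟩
        simp only [Y, mem_filter, mem_erase]
        refine ⟨⟨hyx, hy'.1⟩, fun h1 => hx'.2 ?_, fun h1 => hy'.2 ?_⟩
        · exact hS1 (mem_inter.2 ⟨hx'.1, Act_mono R Δ l (by omega) h1⟩)
        · exact hS1 (mem_inter.2 ⟨hy'.1, Act_mono R Δ l (by omega) h1⟩)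
      · right
        rw [mem_filter, mem_prs]
        exact ⟨⟨y, hy, x, hx, hyx, rfl⟩, by omega⟩
    refine (card_le_card hsub).trans ((card_union_le _ _).trans (add_le_add ?_ ?_))
    · rw [← hFcard]
      refine card_biUnion_le_card_mul _ _ _ fun x hx => card_image_le.trans ?_
      exact (hY x (mem_sdiff.1 hx).1).le
    · rw [card_le_one]
      intro e he e' he'
      rw [mem_filter, mem_prs] at he he'
      obtain ⟨⟨y, hy, x, hx, hyx, rfl⟩, h1⟩ := he
      obtain ⟨⟨y', hy', x', hx', hyx', rfl⟩, h1'⟩ := he'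
      exact ht_inj _ (hl y (mem_sdiff.1 hy).1 x (mem_sdiff.1 hx).1 hyx) _
        (hl y' (mem_sdiff.1 hy').1 x' (mem_sdiff.1 hx').1 hyx') (h1.trans h1'.symm)

/-! ### Fresh pairs -/

/-- the list of queries only depends on the answers received -/
def Adapted (q : (Sym2 V → Bool) → List (Sym2 V)) : Prop :=
  ∀ ω ω' : Sym2 V → Bool, ∀ j, (∀ e ∈ (q ω).take j, ω' e = ω e) →
    (q ω').take j = (q ω).take j

/-- `S` is a clique of active vertices, `F` is contained in the common neighbourhood of `S`, and at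
some time when `S` is active at most `q0` pairs of `F` have been queried -/
def EvA (q : (Sym2 V → Bool) → List (Sym2 V)) (R : Finset V) (Δ q0 : ℕ) (S F : Finset V)
    (ω : Sym2 V → Bool) : Prop :=
  IsCl ω S ∧ F ⊆ cn ω S ∧ ∃ j, S ⊆ Act R Δ ((q ω).take j) ∧
    ((prs F).filter fun e => e ∈ (q ω).take j).card ≤ q0

theorem pr_EvA_and_le {q : (Sym2 V → Bool) → List (Sym2 V)} (hq : Adapted q) (R : Finset V)
    (Δ q0 : ℕ) (S F : Finset V) :
    pr (fun ω => EvA q R Δ q0 S F ω ∧ IsCl ω F) ≤
      (1 / 2) ^ (F.card.choose 2 - q0) * pr (EvA q R Δ q0 S F) := by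
  let J : (Sym2 V → Bool) → ℕ := fun ω => sInf {j | S ⊆ Act R Δ ((q ω).take j)}
  let U : (Sym2 V → Bool) → Finset (Sym2 V) := fun ω =>
    (prs F).filter fun e => e ∉ (q ω).take (J ω)
  let cls : (Sym2 V → Bool) → Finset (Sym2 V → Bool) := fun ω =>
    univ.filter fun ω' => ∀ e ∈ univ \ U ω, ω' e = ω e
  -- properties of `J`
  have hJ1 : ∀ ω, EvA q R Δ q0 S F ω → S ⊆ Act R Δ ((q ω).take (J ω)) := by
    intro ω hω
    obtain ⟨_, _, j, hj, _⟩ := hω
    exact Nat.sInf_mem (s := {j | S ⊆ Act R Δ ((q ω).take j)}) ⟨j, hj⟩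
  have hJ2 : ∀ ω, EvA q R Δ q0 S F ω →
      ((prs F).filter fun e => e ∈ (q ω).take (J ω)).card ≤ q0 := by
    intro ω hω
    obtain ⟨_, _, j, hj, hj2⟩ := hω
    have hle : J ω ≤ j := Nat.sInf_le hj
    refine le_trans (card_le_card ?_) hj2
    intro e he
    rw [mem_filter] at he ⊢
    exact ⟨he.1, List.take_subset_take_left _ hle he.2⟩
  -- the class of `ω`
  have hcls : ∀ ω, EvA q R Δ q0 S F ω → ∀ ω' ∈ cls ω, J ω' = J ω ∧ U ω' = U ω ∧
      EvA q R Δ q0 S F ω' := by
    intro ω hω ω' hω'
    have hagree : ∀ e, e ∉ U ω → ω' e = ω e := fun e he =>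
      (mem_filter.1 hω').2 e (mem_sdiff.2 ⟨mem_univ e, he⟩)
    have hagree2 : ∀ e ∈ (q ω).take (J ω), ω' e = ω e := fun e he =>
      hagree e fun h => (mem_filter.1 h).2 he
    have htake : (q ω').take (J ω) = (q ω).take (J ω) := hq ω ω' (J ω) hagree2
    have htake' : ∀ i ≤ J ω, (q ω').take i = (q ω).take i := by
      intro i hi
      have h1 := congrArg (List.take i) htake
      rwa [List.take_take, List.take_take, min_eq_left hi] at h1
    have hJeq : J ω' = J ω := by
      apply le_antisymm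
      · apply Nat.sInf_le
        show S ⊆ Act R Δ ((q ω').take (J ω))
        rw [htake]
        exact hJ1 ω hω
      · by_contra hcon
        push Not at hcon
        have h1 : S ⊆ Act R Δ ((q ω').take (J ω')) := by
          refine Nat.sInf_mem (s := {j | S ⊆ Act R Δ ((q ω').take j)}) ⟨J ω, ?_⟩
          show S ⊆ Act R Δ ((q ω').take (J ω))
          rw [htake]
          exact hJ1 ω hω
        rw [htake' _ hcon.le] at h1
        exact absurd (Nat.sInf_le h1 : J ω ≤ J ω') (not_le.2 hcon)
    have hUeq : U ω' = U ω := by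
      simp only [U]
      rw [hJeq, htake]
    have hdisj : ∀ u ∈ F, u ∉ S := fun u hu => (mem_filter.1 (hω.2.1 hu)).2.1
    refine ⟨hJeq, hUeq, ?_, ?_, J ω, ?_, ?_⟩
    · intro u hu v hv huv
      rw [hagree, hω.1 u hu v hv huv]
      intro hmem
      obtain ⟨a, ha, b, hb, _, hab⟩ := mem_prs.1 (mem_filter.1 hmem).1
      rw [Sym2.eq_iff] at hab
      rcases hab with ⟨rfl, rfl⟩ | ⟨rfl, rfl⟩
      · exact hdisj _ ha hu
      · exact hdisj _ ha hv
    · intro w hw
      have h1 := mem_filter.1 (hω.2.1 hw)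
      refine mem_filter.2 ⟨mem_univ w, h1.2.1, fun v hv => ?_⟩
      rw [hagree, h1.2.2 v hv]
      intro hmem
      obtain ⟨a, ha, b, hb, _, hab⟩ := mem_prs.1 (mem_filter.1 hmem).1
      rw [Sym2.eq_iff] at hab
      rcases hab with ⟨rfl, rfl⟩ | ⟨rfl, rfl⟩
      · exact hdisj _ ha hv
      · exact hdisj _ hb hv
    · rw [htake]; exact hJ1 ω hω
    · rw [htake]; exact hJ2 ω hω
  -- size of the class
  have hcard : ∀ ω, EvA q R Δ q0 S F ω →
      (2 : ℝ) ^ (F.card.choose 2 - q0) ≤ ((cls ω).card : ℝ) := by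
    intro ω hω
    have h1 := pr_fixed (univ \ U ω) ω
    rw [pr_eq, div_eq_iff (by positivity)] at h1
    have h2 : ((cls ω).card : ℝ) = (1 / 2) ^ (univ \ U ω).card * 2 ^ Fintype.card (Sym2 V) := by
      rw [← h1]
    rw [h2]
    have h3 : (univ \ U ω).card + (U ω).card = Fintype.card (Sym2 V) := by
      rw [card_sdiff_add_card_eq_card (subset_univ _), card_univ]
    rw [← h3, pow_add, ← mul_assoc, ← mul_pow]
    norm_num
    have h4 : ((prs F).filter fun e => e ∈ (q ω).take (J ω)).card + (U ω).card =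
        F.card.choose 2 := by
      rw [← card_prs F]
      exact Finset.card_filter_add_card_filter_not _
    have h5 := hJ2 ω hω
    apply pow_le_pow_right₀ (by norm_num)
    omega
  -- counting
  have hcount : ((univ.filter fun ω => EvA q R Δ q0 S F ω ∧ IsCl ω F).card : ℝ) *
      2 ^ (F.card.choose 2 - q0) ≤ ((univ.filter fun ω => EvA q R Δ q0 S F ω).card : ℝ) := by
    have hdisj : ((univ.filter fun ω => EvA q R Δ q0 S F ω ∧ IsCl ω F) :
        Set (Sym2 V → Bool)).PairwiseDisjoint cls := by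
      intro ω1 h1 ω2 h2 hne
      rw [Function.onFun, disjoint_left]
      intro ω' hω1 hω2
      apply hne
      have h1' := (mem_filter.1 (mem_coe.1 h1)).2
      have h2' := (mem_filter.1 (mem_coe.1 h2)).2
      have hU1 := (hcls ω1 h1'.1 ω' hω1).2.1
      have hU2 := (hcls ω2 h2'.1 ω' hω2).2.1
      funext e
      by_cases he : e ∈ U ω1
      · obtain ⟨u, hu, v, hv, huv, rfl⟩ := mem_prs.1 (mem_filter.1 he).1
        rw [h1'.2 u hu v hv huv, h2'.2 u hu v hv huv]
      · have he2 : e ∉ U ω2 := by rwa [← hU2, hU1]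
        have e1 := (mem_filter.1 hω1).2 e (mem_sdiff.2 ⟨mem_univ e, he⟩)
        have e2 := (mem_filter.1 hω2).2 e (mem_sdiff.2 ⟨mem_univ e, he2⟩)
        rw [← e1, ← e2]
    have hsub : (univ.filter fun ω => EvA q R Δ q0 S F ω ∧ IsCl ω F).biUnion cls ⊆
        univ.filter fun ω => EvA q R Δ q0 S F ω := by
      intro ω' hω'
      rw [mem_biUnion] at hω'
      obtain ⟨ω, hω, hω'⟩ := hω'
      exact mem_filter.2 ⟨mem_univ _, (hcls ω (mem_filter.1 hω).2.1 ω' hω').2.2⟩
    have h1 := card_le_card hsub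
    rw [card_biUnion hdisj] at h1
    calc ((univ.filter fun ω => EvA q R Δ q0 S F ω ∧ IsCl ω F).card : ℝ) *
          2 ^ (F.card.choose 2 - q0)
        = ∑ _ω ∈ univ.filter fun ω => EvA q R Δ q0 S F ω ∧ IsCl ω F,
            (2 : ℝ) ^ (F.card.choose 2 - q0) := by rw [sum_const, nsmul_eq_mul]
      _ ≤ ∑ ω ∈ univ.filter fun ω => EvA q R Δ q0 S F ω ∧ IsCl ω F, ((cls ω).card : ℝ) :=
          sum_le_sum fun ω hω => hcard ω (mem_filter.1 hω).2.1
      _ ≤ _ := by exact_mod_cast h1
  rw [pr_eq, pr_eq, ← mul_div_assoc]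
  gcongr
  rw [div_pow, one_pow, one_div, inv_mul_eq_div, le_div_iff₀ (by positivity)]
  convert hcount

/-! ### The union bound -/

/-- The main estimate: the probability that all pairs of some `k`-set are queried and are
edges. -/
theorem pr_found_le {q : (Sym2 V → Bool) → List (Sym2 V)} (hq : Adapted q)
    (Δ s f g r r0 r1 r2 m : ℕ) (η : ℝ) (h0 : 0 < η) (h1 : η < 1 / 2) (hr01 : r0 ≤ r1)
    (hr1 : 2 ≤ r1) (hg1 : 1 ≤ g) (hgf : g ≤ f)
    (hr : (s + f) * ((s + f) - g) ^ r < (s + f) ^ r)
    (hm : ∀ ω, ∀ R : Finset V, R.card ≤ r → (Act R Δ (q ω)).card ≤ m) (hm1 : 1 ≤ m) :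
    pr (fun ω => ∃ K : Finset V, K.card = s + f ∧
        ∀ u ∈ K, ∀ v ∈ K, u ≠ v → ω s(u, v) = true ∧ s(u, v) ∈ q ω) ≤
      (Fintype.card V : ℝ) ^ r * ((1 / 2) ^ (f.choose 2 - (f * g + 1)) *
        (((r1 : ℝ) + 2) ^ s * Phi (-Real.log (1 / 2 + η)) m * (r2 : ℝ) ^ f +
          (Fintype.card V : ℝ) ^ (s + f) *
            pr (fun ω : Sym2 V → Bool => ¬ (Good1 r0 r1 η ω ∧ Good2 s r2 ω)))) := by
  set n := Fintype.card V with hn
  set m0 := f.choose 2 - (f * g + 1) with hm0
  set lam := -Real.log (1 / 2 + η) with hlam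
  have hlpos : 0 < lam := by
    rw [hlam, neg_pos]
    exact Real.log_neg (by linarith) (by linarith)
  let I : Finset (Finset V × Finset V) := (powersetCard s univ) ×ˢ (powersetCard f univ)
  -- first union bound
  have step1 : pr (fun ω => ∃ K : Finset V, K.card = s + f ∧
        ∀ u ∈ K, ∀ v ∈ K, u ≠ v → ω s(u, v) = true ∧ s(u, v) ∈ q ω) ≤
      pr (fun ω => ∃ ρ ∈ (univ : Finset (Fin r → V)), ∃ i ∈ I,
        EvA q (univ.image ρ) Δ (f * g + 1) i.1 i.2 ω ∧ IsCl ω i.2) := by
    apply pr_mono
    rintro ω ⟨K, hK, hKq⟩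
    obtain ⟨ρ, S, F, hS, hF, hSK, hFK, hdisj, j, hj1, hj2⟩ :=
      exists_structure (q ω) K Δ s f g r hK (fun u hu v hv huv => (hKq u hu v hv huv).2)
        hg1 hgf hr
    refine ⟨ρ, mem_univ _, (S, F), ?_, ⟨?_, ?_, j, hj1, hj2⟩, ?_⟩
    · simp only [I, mem_product, mem_powersetCard, subset_univ, true_and]
      exact ⟨hS, hF⟩
    · exact fun u hu v hv huv => (hKq u (hSK hu) v (hSK hv) huv).1
    · intro w hw
      refine mem_filter.2 ⟨mem_univ _, fun h => disjoint_left.1 hdisj h hw, fun v hv => ?_⟩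
      exact (hKq v (hSK hv) w (hFK hw) fun h => disjoint_left.1 hdisj hv (h ▸ hw)).1
    · exact fun u hu v hv huv => (hKq u (hFK hu) v (hFK hv) huv).1
  refine step1.trans ((pr_exists_le _ _).trans ?_)
  -- it suffices to bound the contribution of one root set
  have step2 : ∀ ρ ∈ (univ : Finset (Fin r → V)), pr (fun ω => ∃ i ∈ I,
        EvA q (univ.image ρ) Δ (f * g + 1) i.1 i.2 ω ∧ IsCl ω i.2) ≤
      (1 / 2) ^ m0 * (((r1 : ℝ) + 2) ^ s * Phi lam m * (r2 : ℝ) ^ f +
          (n : ℝ) ^ (s + f) *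
            pr (fun ω : Sym2 V → Bool => ¬ (Good1 r0 r1 η ω ∧ Good2 s r2 ω))) := by
    intro ρ _
    set R : Finset V := univ.image ρ with hR
    have hRcard : R.card ≤ r := by
      rw [hR]
      exact card_image_le.trans (by simp)
    refine (pr_exists_le _ _).trans ?_
    have h2 : ∑ i ∈ I, pr (fun ω => EvA q R Δ (f * g + 1) i.1 i.2 ω ∧ IsCl ω i.2) ≤
        ∑ i ∈ I, (1 / 2) ^ m0 * pr (EvA q R Δ (f * g + 1) i.1 i.2) := by
      refine sum_le_sum fun i hi => ?_
      simp only [I, mem_product, mem_powersetCard, subset_univ, true_and] at hi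
      have h3 := pr_EvA_and_le hq R Δ (f * g + 1) i.1 i.2
      rwa [hi.2] at h3
    refine h2.trans ?_
    rw [← mul_sum]
    gcongr
    rw [sum_pr_eq, div_le_iff₀ (by positivity)]
    -- pointwise bound on the number of pairs
    have hpoint : ∀ ω : Sym2 V → Bool,
        ((I.filter fun i => EvA q R Δ (f * g + 1) i.1 i.2 ω).card : ℝ) ≤
        ((r1 : ℝ) + 2) ^ s * Phi lam m * (r2 : ℝ) ^ f +
          (n : ℝ) ^ (s + f) * (if ¬ (Good1 r0 r1 η ω ∧ Good2 s r2 ω) then 1 else 0) := by
      intro ω
      by_cases hgood : Good1 r0 r1 η ω ∧ Good2 s r2 ω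
      · rw [if_neg (not_not.2 hgood), mul_zero, add_zero]
        obtain ⟨hg1', hg2'⟩ := hgood
        set D := Act R Δ (q ω) with hD
        have hsub : (I.filter fun i => EvA q R Δ (f * g + 1) i.1 i.2 ω) ⊆
            ((powersetCard s D).filter fun S => IsCl ω S).biUnion fun S =>
              (powersetCard f (cn ω S)).image fun F => (S, F) := by
          rintro ⟨S, F⟩ hSF
          simp only [I, mem_filter, mem_product, mem_powersetCard, subset_univ, true_and] at hSF
          obtain ⟨⟨hS, hF⟩, hcl, hcn, j, hj, _⟩ := hSF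
          rw [mem_biUnion]
          refine ⟨S, ?_, mem_image.2 ⟨F, mem_powersetCard.2 ⟨hcn, hF⟩, rfl⟩⟩
          rw [mem_filter, mem_powersetCard]
          exact ⟨⟨hj.trans (Act_mono' R Δ (q ω) j), hS⟩, hcl⟩
        have h4 : (I.filter fun i => EvA q R Δ (f * g + 1) i.1 i.2 ω).card ≤
            cc ω s D * r2 ^ f := by
          refine (card_le_card hsub).trans ?_
          refine (card_biUnion_le_card_mul _ _ (r2 ^ f) fun S hS => ?_).trans ?_
          · refine card_image_le.trans ?_
            rw [card_powersetCard]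
            rw [mem_filter, mem_powersetCard] at hS
            exact (Nat.choose_le_pow _ _).trans (Nat.pow_le_pow_left (hg2' S hS.1.2).le _)
          · exact Nat.mul_le_mul_right _ (card_cliques_le ω s D)
        have h5 := cc_le h0 h1 hr01 hr1 hg1' s D
        have h6 : Phi lam (max 1 (D.card : ℝ)) ≤ Phi lam m := by
          refine Phi_mono hlpos (le_max_left _ _) (max_le ?_ ?_)
          · exact_mod_cast hm1
          · exact_mod_cast hm ω R hRcard
        calc ((I.filter fun i => EvA q R Δ (f * g + 1) i.1 i.2 ω).card : ℝ)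
            ≤ (cc ω s D : ℝ) * (r2 : ℝ) ^ f := by exact_mod_cast h4
          _ ≤ (((r1 : ℝ) + 2) ^ s * Phi lam (max 1 (D.card : ℝ))) * (r2 : ℝ) ^ f := by
              gcongr
          _ ≤ ((r1 : ℝ) + 2) ^ s * Phi lam m * (r2 : ℝ) ^ f := by gcongr
      · rw [if_pos hgood, mul_one]
        have h4 : (I.filter fun i => EvA q R Δ (f * g + 1) i.1 i.2 ω).card ≤ n ^ (s + f) := by
          refine (card_filter_le _ _).trans ?_
          simp only [I, card_product, card_powersetCard, card_univ]
          rw [pow_add]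
          exact Nat.mul_le_mul (Nat.choose_le_pow _ _) (Nat.choose_le_pow _ _)
        have h5 : 0 ≤ ((r1 : ℝ) + 2) ^ s * Phi lam m * (r2 : ℝ) ^ f := by
          have : 0 < Phi lam m := Real.exp_pos _
          positivity
        have h6 : ((I.filter fun i => EvA q R Δ (f * g + 1) i.1 i.2 ω).card : ℝ) ≤
            (n : ℝ) ^ (s + f) := by exact_mod_cast h4
        linarith
    have hlast : ∑ ω : Sym2 V → Bool,
        (if ¬ (Good1 r0 r1 η ω ∧ Good2 s r2 ω) then (1 : ℝ) else 0) =
        pr (fun ω : Sym2 V → Bool => ¬ (Good1 r0 r1 η ω ∧ Good2 s r2 ω)) *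
          2 ^ Fintype.card (Sym2 V) := by
      rw [pr_eq (fun ω : Sym2 V → Bool => ¬ (Good1 r0 r1 η ω ∧ Good2 s r2 ω)),
        div_mul_cancel₀ _ (by positivity), card_filter]
      push_cast
      rfl
    refine (sum_le_sum fun ω _ => hpoint ω).trans (le_of_eq ?_)
    rw [sum_add_distrib, sum_const, card_univ, nsmul_eq_mul, card_bits, ← mul_sum, hlast]
    ring
  refine (sum_le_sum step2).trans ?_
  rw [sum_const, nsmul_eq_mul]
  have hcardρ : ((univ : Finset (Fin r → V)).card : ℝ) = (n : ℝ) ^ r := by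
    rw [card_univ, Fintype.card_fun, Fintype.card_fin]
    push_cast
    rfl
  rw [hcardρ]

end Pool.Agent.CliqueQuery
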