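import Pool.Agent.CliqueQuery.Defs
import Pool.Agent.CliqueQuery.Upper

/-!
# Query trees, and random graphs as random bits
-/

namespace Pool.Agent.CliqueQuery

open Finset Classical

namespace QueryTree

variable {n : ℕ}

lemma queried_output (ans : Sym2 (Fin n) → Bool) (S : Finset (Fin n)) :
    (output S).queried ans = ∅ := rfl

lemma queried_query (ans : Sym2 (Fin n) → Bool) (e : Sym2 (Fin n)) (next : Bool → QueryTree n) :
    (query e next).queried ans = insert e ((next (ans e)).queried ans) := rfl

lemma out_output (ans : Sym2 (Fin n) → Bool) (S : Finset (Fin n)) :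
    (output S).out ans = S := rfl

lemma out_query (ans : Sym2 (Fin n) → Bool) (e : Sym2 (Fin n)) (next : Bool → QueryTree n) :
    (query e next).out ans = (next (ans e)).out ans := rfl

/-- the list of queries -/
noncomputable def path (ans : Sym2 (Fin n) → Bool) (T : QueryTree n) : List (Sym2 (Fin n)) :=
  QueryTree.rec (fun _ => []) (fun e _ q => e :: q (ans e)) T

lemma path_output (ans : Sym2 (Fin n) → Bool) (S : Finset (Fin n)) :
    (output S).path ans = [] := rfl

lemma path_query (ans : Sym2 (Fin n) → Bool) (e : Sym2 (Fin n)) (next : Bool → QueryTree n) :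
    (query e next).path ans = e :: (next (ans e)).path ans := rfl

lemma toFinset_path (ans : Sym2 (Fin n) → Bool) (T : QueryTree n) :
    (T.path ans).toFinset = T.queried ans := by
  induction T with
  | output S => simp [path_output, queried_output]
  | query e next ih =>
    rw [path_query, queried_query, List.toFinset_cons, ih]

lemma mem_path (ans : Sym2 (Fin n) → Bool) (T : QueryTree n) (e : Sym2 (Fin n)) :
    e ∈ T.path ans ↔ e ∈ T.queried ans := by
  rw [← toFinset_path, List.mem_toFinset]

lemma path_take_eq (ans ans' : Sym2 (Fin n) → Bool) (T : QueryTree n) :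
    ∀ j, (∀ e ∈ (T.path ans).take j, ans' e = ans e) →
      (T.path ans').take j = (T.path ans).take j := by
  induction T with
  | output S => intro j _; simp [path_output]
  | query e next ih =>
    intro j h
    rcases j with _ | j
    · simp
    · rw [path_query, List.take_succ_cons] at h ⊢
      rw [path_query, List.take_succ_cons]
      have h1 : ans' e = ans e := h e (by simp)
      rw [h1]
      congr 1
      exact ih (ans e) j fun e' he' => h e' (List.mem_cons_of_mem _ he')

end QueryTree

/-- ignore the bits of diagonal pairs -/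
noncomputable def hat {n : ℕ} (ω : Sym2 (Fin n) → Bool) (e : Sym2 (Fin n)) : Bool :=
  if e.IsDiag then false else ω e

lemma adapted_path {n : ℕ} (T : QueryTree n) :
    Adapted (fun ω : Sym2 (Fin n) → Bool => T.path (hat ω)) := by
  intro ω ω' j h
  refine QueryTree.path_take_eq (hat ω) (hat ω') T j fun e he => ?_
  unfold hat
  split_ifs
  · rfl
  · exact h e he

/-- Bits as a graph together with the diagonal bits. -/
noncomputable def bitsEquiv (n : ℕ) : (Sym2 (Fin n) → Bool) ≃
    SimpleGraph (Fin n) × ({e : Sym2 (Fin n) // e.IsDiag} → Bool) where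
  toFun ω := (SimpleGraph.fromEdgeSet {e | ω e = true}, fun e => ω e)
  invFun p := fun e => if h : e.IsDiag then p.2 ⟨e, h⟩ else answers p.1 e
  left_inv ω := by
    funext e
    by_cases h : e.IsDiag
    · simp [h]
    · simp [h, answers]
  right_inv p := by
    rcases p with ⟨G, δ⟩
    ext u v
    · simp only [SimpleGraph.fromEdgeSet_adj, Set.mem_ofPred_eq, Sym2.mk_isDiag_iff]
      constructor
      · rintro ⟨h1, h2⟩
        simpa [h2, answers] using h1
      · intro h
        have h2 : u ≠ v := h.ne
        simp [h2, answers, h]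
    · exact dif_pos u.2

lemma answers_bitsEquiv {n : ℕ} (ω : Sym2 (Fin n) → Bool) :
    answers (bitsEquiv n ω).1 = hat ω := by
  funext e
  simp only [bitsEquiv, Equiv.coe_fn_mk, answers, hat]
  by_cases h : e.IsDiag
  · simp [h]
  · simp [h]

/-- The fraction of graphs with a property is the probability for random bits. -/
lemma card_graphs {n : ℕ} (Q : (Sym2 (Fin n) → Bool) → Prop) :
    ((univ.filter fun G : SimpleGraph (Fin n) => Q (answers G)).card : ℝ) /
      (Fintype.card (SimpleGraph (Fin n)) : ℝ) = pr fun ω => Q (hat ω) := by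
  have h1 : (univ.filter fun ω : Sym2 (Fin n) → Bool => Q (hat ω)).card =
      (univ.filter fun G : SimpleGraph (Fin n) => Q (answers G)).card *
        Fintype.card ({e : Sym2 (Fin n) // e.IsDiag} → Bool) := by
    rw [← card_univ (α := ({e : Sym2 (Fin n) // e.IsDiag} → Bool)), ← card_product]
    refine Finset.card_bij (fun ω _ => bitsEquiv n ω) ?_ ?_ ?_
    · intro ω hω
      rw [mem_filter] at hω
      rw [mem_product, mem_filter, answers_bitsEquiv]
      exact ⟨⟨mem_univ _, hω.2⟩, mem_univ _⟩
    · intro a _ b _ h
      exact (bitsEquiv n).injective h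
    · rintro ⟨G, δ⟩ h
      rw [mem_product, mem_filter] at h
      refine ⟨(bitsEquiv n).symm (G, δ), ?_, by simp⟩
      rw [mem_filter, ← answers_bitsEquiv]
      refine ⟨mem_univ _, ?_⟩
      rw [Equiv.apply_symm_apply]
      exact h.1.2
  have h2 : (2 : ℝ) ^ Fintype.card (Sym2 (Fin n)) = (Fintype.card (SimpleGraph (Fin n)) : ℝ) *
        (Fintype.card ({e : Sym2 (Fin n) // e.IsDiag} → Bool) : ℝ) := by
    rw [← card_bits (E := Sym2 (Fin n)), Fintype.card_congr (bitsEquiv n), Fintype.card_prod]
    push_cast
    rfl
  rw [pr_eq (fun ω => Q (hat ω)), h1, h2]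
  push_cast
  have h3 : (0 : ℝ) < (Fintype.card ({e : Sym2 (Fin n) // e.IsDiag} → Bool) : ℝ) := by
    exact_mod_cast Fintype.card_pos
  have h4 : (0 : ℝ) < (Fintype.card (SimpleGraph (Fin n)) : ℝ) := by
    exact_mod_cast Fintype.card_pos
  rw [mul_div_mul_right _ _ h3.ne']

end Pool.Agent.CliqueQuery
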